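import Pool.Agent.Helper54_QE.Pair2

/-!
# Measurability tools
-/

set_option autoImplicit false
set_option linter.unusedSectionVars false

open scoped InnerProductSpace ComplexConjugate Topology ENNReal
open MeasureTheory Filter

noncomputable section

namespace Pool.Agent.QE

open Pool.Agent.Anderson Pool.Agent.Helper54.Bal

variable {d : ℕ} {Ω : Type*} [MeasurableSpace Ω]

theorem hasSum_del (f : L2 d) : HasSum (fun x => f x • (del x : L2 d)) f := by
  have h := lp.hasSum_single (p := 2) (by norm_num) f
  have e : (fun x => f x • (del x : L2 d)) = fun x => lp.single 2 x (f x) := by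
    funext x
    unfold del
    rw [← lp.single_smul, smul_eq_mul, mul_one]
  rw [e]
  exact h

theorem continuous_coord (x : Site d) : Continuous fun f : L2 d => f x := by
  have : (fun f : L2 d => f x) = fun f => ⟪del x, f⟫_ℂ := by
    funext f; rw [inner_del_left]
  rw [this]
  exact continuous_const.inner continuous_id

theorem measurable_coord {u : Ω → L2 d} (hu : StronglyMeasurable u) (x : Site d) :
    Measurable fun ω => u ω x :=
  ((continuous_coord x).comp_stronglyMeasurable hu).measurable

/-- application of a measurable family of operators to a measurable family of vectors -/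
theorem sm_apply {D : Ω → Op d} (hD : ∀ f, StronglyMeasurable fun ω => D ω f)
    {u : Ω → L2 d} (hu : StronglyMeasurable u) : StronglyMeasurable fun ω => D ω (u ω) := by
  have h1 : ∀ s : Finset (Site d),
      StronglyMeasurable fun ω => ∑ y ∈ s, u ω y • D ω (del y) := by
    intro s
    refine Finset.stronglyMeasurable_fun_sum s fun y _ => ?_
    exact ((continuous_coord y).comp_stronglyMeasurable hu).smul (hD (del y))
  refine stronglyMeasurable_of_tendsto (u := (atTop : Filter (Finset (Site d)))) h1 ?_
  rw [tendsto_pi_nhds]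
  intro ω
  have h2 := (hasSum_del (u ω)).mapL (D ω)
  have h3 : (fun y => D ω (u ω y • del y)) = fun y => u ω y • D ω (del y) := by
    funext y; rw [map_smul]
  rw [h3] at h2
  exact h2

theorem sm_G {ε : ℝ} (hε : ε ≠ 0) {V : Ω → Cfg d} {E : Ω → ℝ} {φ : Ω → L2 d}
    (hV : Measurable V) (hE : Measurable E) (hφ : StronglyMeasurable φ) :
    StronglyMeasurable fun p => G (V p) (zz ε (E p)) (φ p) := by
  have h0 : StronglyMeasurable fun p => (V p, E p, φ p) :=
    hV.stronglyMeasurable.prodMk (hE.stronglyMeasurable.prodMk hφ)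
  have h1 := (continuous_G (d := d) hε).comp_stronglyMeasurable h0
  exact h1

theorem sm_cov {A : Cfg d → Op d} (hA : Cov A) {V : Ω → Cfg d} {φ : Ω → L2 d}
    (hV : Measurable V) (hφ : StronglyMeasurable φ) :
    StronglyMeasurable fun p => A (V p) (φ p) :=
  sm_apply (D := fun p => A (V p)) (fun f => (hA.meas f).comp_measurable hV) hφ

theorem measurable_Fw {w : Cfg d → L2 d} (hw : StronglyMeasurable w) {ε : ℝ} (hε : ε ≠ 0) :
    Measurable (Fw w ε) := by
  have h1 : StronglyMeasurable fun p : Cfg d × ℝ => w p.1 := hw.comp_measurable measurable_fst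
  exact (h1.inner (sm_G hε measurable_fst measurable_snd h1)).measurable

theorem measurable_gw {w : Cfg d → L2 d} (hw : StronglyMeasurable w) {ε : ℝ} (hε : ε ≠ 0) :
    Measurable (gw w ε) := by
  have h1 := measurable_Fw hw hε
  have h2 : Measurable fun p : Cfg d × ℝ => zz ε p.2 :=
    (continuous_zz ε).measurable.comp measurable_snd
  unfold gw
  exact (h1.div (h1.add_const _)).div (h2.add_const _)

theorem measurable_dq {A : Cfg d → Op d} (hA : Cov A)
    (hu : ∀ x₀ : Site d, Measurable (upd (d := d) x₀)) (x₀ x : Site d) {ε : ℝ} (hε : ε ≠ 0) :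
    Measurable (dq A x₀ x ε) := by
  have m1 : Measurable fun ω : (Cfg d × ℝ) × ℝ => ω.1.1 := measurable_fst.comp measurable_fst
  have m2 : Measurable fun ω : (Cfg d × ℝ) × ℝ => ω.1.2 := measurable_snd.comp measurable_fst
  have m3 : Measurable fun ω : (Cfg d × ℝ) × ℝ => Function.update ω.1.1 x₀ ω.2 :=
    measurable_fst.comp (hu x₀)
  have s1 : StronglyMeasurable fun ω : (Cfg d × ℝ) × ℝ => G ω.1.1 (zz ε ω.1.2) (del x) :=
    sm_G hε m1 m2 stronglyMeasurable_const
  unfold dq
  exact (((sm_cov hA m3 s1).sub (sm_cov hA m1 s1)).norm.measurable).const_mul _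

theorem measurable_rr {A : Cfg d → Op d} (hA : Cov A) (x : Site d) {ε : ℝ} (hε : ε ≠ 0) :
    Measurable fun p : Cfg d × ℝ => ‖rr (A p.1) p.1 (zz ε p.2) x‖ := by
  have s1 : StronglyMeasurable fun p : Cfg d × ℝ => G p.1 (zz ε p.2) (del x) :=
    sm_G hε measurable_fst measurable_snd stronglyMeasurable_const
  have s2 : StronglyMeasurable fun p : Cfg d × ℝ => A p.1 (G p.1 (zz ε p.2) (del x)) :=
    sm_cov hA measurable_fst s1
  have s3 : StronglyMeasurable fun p : Cfg d × ℝ => G p.1 (zz ε p.2) (A p.1 (del x)) :=
    sm_G hε measurable_fst measurable_snd ((hA.meas (del x)).comp_measurable measurable_fst)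
  have m1 : Measurable fun p : Cfg d × ℝ => aa (A p.1) p.1 (zz ε p.2) x := by
    unfold aa
    exact (Complex.measurable_im.comp (measurable_coord s3 x)).div
      (Complex.measurable_im.comp (measurable_coord s1 x))
  have m2 : StronglyMeasurable fun p : Cfg d × ℝ => (aa (A p.1) p.1 (zz ε p.2) x : ℂ) :=
    (Complex.measurable_ofReal.comp m1).stronglyMeasurable
  unfold rr
  exact (s2.sub (m2.smul s1)).norm.measurable

/-! ### the reference measure on energies -/

theorem measurable_dens : Measurable fun E : ℝ => ENNReal.ofReal (1 + E ^ 2)⁻¹ := by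
  fun_prop

theorem lam_le : lam ≤ (volume : Measure ℝ) := by
  unfold lam
  calc (volume : Measure ℝ).withDensity (fun E => ENNReal.ofReal (1 + E ^ 2)⁻¹) ≤
      (volume : Measure ℝ).withDensity 1 := by
        refine withDensity_mono (Eventually.of_forall fun E => ?_)
        simp only [Pi.one_apply]
        rw [← ENNReal.ofReal_one]
        refine ENNReal.ofReal_le_ofReal ?_
        exact inv_le_one_of_one_le₀ (by nlinarith [sq_nonneg E])
    _ = volume := withDensity_one

theorem ac_lam : (volume : Measure ℝ) ≪ lam := by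
  unfold lam
  refine withDensity_absolutelyContinuous' measurable_dens.aemeasurable ?_
  refine Eventually.of_forall fun E => ?_
  have : 0 < (1 + E ^ 2)⁻¹ := by positivity
  simpa using this

theorem lam_univ : lam Set.univ = ENNReal.ofReal Real.pi := by
  unfold lam
  rw [withDensity_apply _ MeasurableSet.univ, Measure.restrict_univ,
    ← ofReal_integral_eq_lintegral_ofReal integrable_inv_one_add_sq
      (Eventually.of_forall fun E => by positivity), integral_univ_inv_one_add_sq]

instance : IsFiniteMeasure lam := ⟨by rw [lam_univ]; exact ENNReal.ofReal_lt_top⟩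

end Pool.Agent.QE
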