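import Pool.Agent.Helper54_QE.Defs2
import Pool.Agent.Helper54_QE.Meas
import Pool.Agent.Helper36_QE.Trace

/-!
# Algebra of covariant families and the Cayley transform
-/

set_option autoImplicit false
set_option linter.unusedSectionVars false

open scoped InnerProductSpace ComplexConjugate Topology ENNReal
open MeasureTheory Filter

noncomputable section

namespace Pool.Agent.QE

open Pool.Agent.Anderson Pool.Agent.Helper54.Bal

variable {d : ℕ}

/-! ### closure of covariant families -/

theorem shift_add' (a : Site d) (f g : L2 d) : shift a (f + g) = shift a f + shift a g :=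
  map_add _ _ _

theorem Cov.add {A B : Cfg d → Op d} (hA : Cov A) (hB : Cov B) : Cov fun V => A V + B V where
  meas f := (hA.meas f).add (hB.meas f)
  cov a V f := by
    simp only [_root_.add_apply]
    rw [hA.cov, hB.cov, map_add]
  bdd := by
    obtain ⟨C, hC⟩ := hA.bdd
    obtain ⟨D, hD⟩ := hB.bdd
    exact ⟨C + D, fun V => (norm_add_le _ _).trans (add_le_add (hC V) (hD V))⟩

theorem Cov.smul {A : Cfg d → Op d} (hA : Cov A) (c : ℂ) : Cov fun V => c • A V where
  meas f := (hA.meas f).const_smul c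
  cov a V f := by
    simp only [_root_.smul_apply]
    rw [hA.cov, map_smul]
  bdd := by
    obtain ⟨C, hC⟩ := hA.bdd
    refine ⟨‖c‖ * C, fun V => ?_⟩
    rw [norm_smul]
    exact mul_le_mul_of_nonneg_left (hC V) (norm_nonneg _)

theorem Cov.neg {A : Cfg d → Op d} (hA : Cov A) : Cov fun V => -A V := by
  have := hA.smul (-1)
  simpa using this

theorem Cov.sub {A B : Cfg d → Op d} (hA : Cov A) (hB : Cov B) : Cov fun V => A V - B V := by
  have := hA.add hB.neg
  simpa [sub_eq_add_neg] using this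

theorem Cov.one : Cov fun _ : Cfg d => (1 : Op d) where
  meas _ := stronglyMeasurable_const
  cov _ _ _ := rfl
  bdd := ⟨‖(1 : Op d)‖, fun _ => le_rfl⟩

theorem Cov.zero : Cov fun _ : Cfg d => (0 : Op d) where
  meas _ := stronglyMeasurable_const
  cov a V f := by simp
  bdd := ⟨0, fun _ => by simp⟩

theorem Cov.mul {A B : Cfg d → Op d} (hA : Cov A) (hB : Cov B) : Cov fun V => A V * B V where
  meas f := sm_cov hA measurable_id (hB.meas f)
  cov a V f := by
    change A (tau a V) (B (tau a V) (shift a f)) = shift a (A V (B V f))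
    rw [hB.cov, hA.cov]
  bdd := by
    obtain ⟨C, hC⟩ := hA.bdd
    obtain ⟨D, hD⟩ := hB.bdd
    refine ⟨|C| * |D|, fun V => (norm_mul_le _ _).trans ?_⟩
    have h1 := (hC V).trans (le_abs_self C)
    have h2 := (hD V).trans (le_abs_self D)
    exact mul_le_mul h1 h2 (norm_nonneg _) (abs_nonneg _)

theorem Cov.pow {A : Cfg d → Op d} (hA : Cov A) (n : ℕ) : Cov fun V => (A V) ^ n := by
  induction n with
  | zero => simpa using (Cov.one (d := d))
  | succ n ih =>
    have := ih.mul hA
    simpa [pow_succ] using this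

theorem Cov.sum {ι : Type*} (s : Finset ι) {A : ι → Cfg d → Op d} (hA : ∀ i ∈ s, Cov (A i)) :
    Cov fun V => ∑ i ∈ s, A i V := by
  classical
  induction s using Finset.induction_on with
  | empty => simpa using (Cov.zero (d := d))
  | insert a s ha ih =>
    have h1 := (hA a (Finset.mem_insert_self a s)).add
      (ih fun i hi => hA i (Finset.mem_insert_of_mem hi))
    simpa [Finset.sum_insert ha] using h1

theorem shift_inner' (a : Site d) (f g : L2 d) : ⟪shift a f, shift a g⟫_ℂ = ⟪f, g⟫_ℂ :=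
  (shift a).inner_map_map f g

theorem shift_shift_neg (a : Site d) (v : L2 d) : shift a (shift (-a) v) = v := by
  ext x
  rw [shift_apply, shift_apply, add_neg_cancel_right]

theorem Cov.adj {A : Cfg d → Op d} (hA : Cov A) :
    Cov fun V => ContinuousLinearMap.adjoint (A V) where
  meas f := by
    refine Tr.sm_of_coord fun x => ?_
    simp only [Tr.adj_coord]
    exact ((hA.meas (del x)).inner stronglyMeasurable_const).measurable
  cov a V f := by
    refine ext_inner_left ℂ fun v => ?_
    rw [ContinuousLinearMap.adjoint_inner_right]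
    rw [← shift_shift_neg a v]
    rw [hA.cov, shift_inner', shift_inner', ContinuousLinearMap.adjoint_inner_right]
  bdd := by
    obtain ⟨C, hC⟩ := hA.bdd
    refine ⟨C, fun V => ?_⟩
    rw [ContinuousLinearMap.adjoint.norm_map]
    exact hC V

theorem Cov.res {z : ℂ} (hz : z.im ≠ 0) : Cov fun V : Cfg d => G V z where
  meas f := by
    have h1 : StronglyMeasurable fun V : Cfg d => G V (zz z.im ((fun _ => z.re) V)) f :=
      sm_G hz measurable_id measurable_const stronglyMeasurable_const
    have e : zz z.im z.re = z := by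
      apply Complex.ext <;> simp [zz]
    simp only [e] at h1
    exact h1
  cov a V f := Tr.G_cov hz a V f
  bdd := ⟨|z.im|⁻¹, fun V => (isRes_G V).opNorm_le hz⟩

theorem cov_rf (p : RF) : Cov fun V : Cfg d => p.op V := by
  unfold RF.op
  exact Cov.sum _ fun k _ => (Cov.res (p.hw k)).smul _

theorem I_im_ne : (Complex.I).im ≠ 0 := by simp

theorem negI_im_ne : (-Complex.I).im ≠ 0 := by simp

theorem cov_cay : Cov fun V : Cfg d => cay V :=
  Cov.one.sub ((Cov.res negI_im_ne).smul _)

theorem cov_cayS : Cov fun V : Cfg d => cayS V :=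
  Cov.one.add ((Cov.res I_im_ne).smul _)

theorem cov_avg {B : Cfg d → Op d} (hB : Cov B) (N : ℕ) : Cov fun V => avg V N (B V) := by
  unfold avg
  exact (Cov.sum _ fun n _ => ((cov_cayS.pow n).mul hB).mul (cov_cay.pow n)).smul _

/-! ### the Cayley transform -/

theorem cay_apply (V : Cfg d) (f : L2 d) :
    cay V f = f - (2 * Complex.I) • G V (-Complex.I) f := rfl

theorem cayS_apply (V : Cfg d) (f : L2 d) :
    cayS V f = f + (2 * Complex.I) • G V Complex.I f := rfl

theorem cay_mul_cayS (V : Cfg d) : cay V * cayS V = 1 := by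
  have h := (isRes_G V).ident _ _ I_im_ne negI_im_ne
  have hc := (isRes_G V).comm I_im_ne negI_im_ne
  unfold cay cayS
  have e2 : Complex.I - -Complex.I = 2 * Complex.I := by ring
  rw [e2] at h
  generalize G V (-Complex.I) = P at *
  generalize G V Complex.I = Q at *
  generalize 2 * Complex.I = a at *
  have e : (1 - a • P) * (1 + a • Q) = 1 + a • (Q - P) - (a * a) • (P * Q) := by
    simp only [sub_mul, mul_add, one_mul, mul_one, smul_sub, smul_mul_assoc, mul_smul_comm,
      smul_smul]
    abel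
  rw [e, h, hc, smul_smul]
  abel

theorem cayS_mul_cay (V : Cfg d) : cayS V * cay V = 1 := by
  have hc := (isRes_G V).comm I_im_ne negI_im_ne
  have h := cay_mul_cayS V
  rw [← h]
  unfold cay cayS
  generalize G V (-Complex.I) = P at *
  generalize G V Complex.I = Q at *
  generalize 2 * Complex.I = a at *
  simp only [sub_mul, mul_sub, mul_add, add_mul, one_mul, mul_one, smul_mul_assoc, mul_smul_comm,
    hc, smul_add, smul_sub]
  abel

theorem cay_inner (V : Cfg d) (f g : L2 d) : ⟪cay V f, g⟫_ℂ = ⟪f, cayS V g⟫_ℂ := by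
  rw [cay_apply, cayS_apply, inner_sub_left, inner_add_right, inner_smul_left, inner_smul_right,
    (isRes_G V).adj _ negI_im_ne]
  simp only [map_mul, Complex.conj_I, map_ofNat, map_neg, neg_neg]
  ring

theorem cayS_inner (V : Cfg d) (f g : L2 d) : ⟪cayS V f, g⟫_ℂ = ⟪f, cay V g⟫_ℂ := by
  rw [← inner_conj_symm, ← cay_inner, inner_conj_symm]

theorem cayS_cay_apply (V : Cfg d) (f : L2 d) : cayS V (cay V f) = f :=
  congrArg (fun T : Op d => T f) (cayS_mul_cay V)

theorem cay_cayS_apply (V : Cfg d) (f : L2 d) : cay V (cayS V f) = f :=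
  congrArg (fun T : Op d => T f) (cay_mul_cayS V)

theorem norm_cay (V : Cfg d) (f : L2 d) : ‖cay V f‖ = ‖f‖ := by
  have h : ⟪cay V f, cay V f⟫_ℂ = ⟪f, f⟫_ℂ := by rw [cay_inner, cayS_cay_apply]
  rw [inner_self_eq_norm_sq_to_K, inner_self_eq_norm_sq_to_K] at h
  have h2 : ‖cay V f‖ ^ 2 = ‖f‖ ^ 2 := by exact_mod_cast h
  exact (pow_left_inj₀ (norm_nonneg _) (norm_nonneg _) two_ne_zero).1 h2

theorem norm_cayS (V : Cfg d) (f : L2 d) : ‖cayS V f‖ = ‖f‖ := by
  rw [← norm_cay V (cayS V f), cay_cayS_apply]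

theorem adjoint_cay (V : Cfg d) : ContinuousLinearMap.adjoint (cay V) = cayS V := by
  refine ContinuousLinearMap.ext fun f => ext_inner_left ℂ fun v => ?_
  rw [ContinuousLinearMap.adjoint_inner_right, cay_inner]

theorem adjoint_cayS (V : Cfg d) : ContinuousLinearMap.adjoint (cayS V) = cay V := by
  refine ContinuousLinearMap.ext fun f => ext_inner_left ℂ fun v => ?_
  rw [ContinuousLinearMap.adjoint_inner_right, cayS_inner]

theorem norm_cay_pow (V : Cfg d) (n : ℕ) (f : L2 d) : ‖(cay V ^ n) f‖ = ‖f‖ := by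
  induction n generalizing f with
  | zero => simp
  | succ n ih =>
    have e : (cay V ^ (n + 1)) f = (cay V ^ n) (cay V f) := by rw [pow_succ]; rfl
    rw [e, ih, norm_cay]

theorem norm_cayS_pow (V : Cfg d) (n : ℕ) (f : L2 d) : ‖(cayS V ^ n) f‖ = ‖f‖ := by
  induction n generalizing f with
  | zero => simp
  | succ n ih =>
    have e : (cayS V ^ (n + 1)) f = (cayS V ^ n) (cayS V f) := by rw [pow_succ]; rfl
    rw [e, ih, norm_cayS]

theorem cayS_pow_inner (V : Cfg d) (n : ℕ) (f g : L2 d) :
    ⟪(cayS V ^ n) f, g⟫_ℂ = ⟪f, (cay V ^ n) g⟫_ℂ := by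
  induction n generalizing f g with
  | zero => simp
  | succ n ih =>
    have e : (cayS V ^ (n + 1)) f = (cayS V ^ n) (cayS V f) := by rw [pow_succ]; rfl
    have e2 : (cay V ^ (n + 1)) g = cay V ((cay V ^ n) g) := by rw [pow_succ']; rfl
    rw [e, ih, cayS_inner, e2]

theorem norm_avg_le (V : Cfg d) (N : ℕ) {B : Op d} {C : ℝ} (hC : ‖B‖ ≤ C) :
    ‖avg V N B‖ ≤ C := by
  have hC0 : 0 ≤ C := (norm_nonneg _).trans hC
  refine ContinuousLinearMap.opNorm_le_bound _ hC0 fun f => ?_
  unfold avg
  have e : (((N : ℂ) + 1)⁻¹ • ∑ n ∈ Finset.range (N + 1), cayS V ^ n * B * cay V ^ n) f =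
      ((N : ℂ) + 1)⁻¹ • ∑ n ∈ Finset.range (N + 1), (cayS V ^ n) (B ((cay V ^ n) f)) := by
    rw [_root_.smul_apply, _root_.sum_apply]
    rfl
  rw [e, norm_smul, norm_inv]
  have h1 : ‖((N : ℂ) + 1)‖ = (N : ℝ) + 1 := by
    have : ((N : ℂ) + 1) = (((N : ℝ) + 1 : ℝ) : ℂ) := by push_cast; ring
    rw [this, Complex.norm_real, Real.norm_of_nonneg (by positivity)]
  rw [h1]
  have h2 : ‖∑ n ∈ Finset.range (N + 1), (cayS V ^ n) (B ((cay V ^ n) f))‖ ≤
      ∑ n ∈ Finset.range (N + 1), C * ‖f‖ := by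
    refine norm_sum_le_of_le _ fun n _ => ?_
    rw [norm_cayS_pow]
    refine (B.le_opNorm _).trans ?_
    rw [norm_cay_pow]
    exact mul_le_mul_of_nonneg_right hC (norm_nonneg _)
  rw [Finset.sum_const, Finset.card_range, nsmul_eq_mul] at h2
  rw [Nat.cast_add, Nat.cast_one] at h2
  have h3 : (0:ℝ) < (N : ℝ) + 1 := by positivity
  rw [inv_mul_le_iff₀ h3]
  linarith

/-! ### the norm of functions of `H` -/

theorem norm_rf_op_le (p : RF) (V : Cfg d) : ‖p.op V‖ ≤ ∑ k, ‖p.a k‖ * |(p.w k).im|⁻¹ := by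
  unfold RF.op
  refine (norm_sum_le _ _).trans (Finset.sum_le_sum fun k _ => ?_)
  rw [norm_smul]
  exact mul_le_mul_of_nonneg_left ((isRes_G V).opNorm_le (p.hw k)) (norm_nonneg _)

end Pool.Agent.QE
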