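import Pool.Agent.Helper54_QE.Defs

/-!
# Rank one formulas and the key inequality
-/

set_option autoImplicit false
set_option linter.unusedSectionVars false

open scoped InnerProductSpace ComplexConjugate Topology ENNReal
open MeasureTheory Filter

noncomputable section

namespace Pool.Agent.QE

open Pool.Agent.Anderson Pool.Agent.Helper54.Bal

variable {d : ℕ}

theorem conj_zz' (η E : ℝ) : conj (zz η E) = zz (-η) E := by
  unfold zz
  simp [map_add, map_mul]

theorem star_del' (x : Site d) : star (del x) = del x := by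
  ext y
  rw [star_apply, del_apply]
  split_ifs <;> simp

/-- change of the potential at one site -/
theorem G_upd {V : Cfg d} {z : ℂ} (hz : z.im ≠ 0) (x₀ : Site d) (s : ℝ) (f : L2 d) :
    G V z f = G (Function.update V x₀ s) z f +
      (((s : ℂ) - V x₀) * G (Function.update V x₀ s) z f x₀) • G V z (del x₀) := by
  symm
  apply G_unique hz
  intro x
  set V' := Function.update V x₀ s with hV'
  have h1 := G_eq (V := V') hz f x
  have h2 := G_eq (V := V) hz (del x₀) x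
  set c : ℂ := ((s : ℂ) - V x₀) * G V' z f x₀ with hc
  have hl : lap (⇑(G V' z f + c • G V z (del x₀))) x =
      lap (G V' z f) x + c * lap (G V z (del x₀)) x := by
    rw [← Lap_apply, ← Lap_apply, ← Lap_apply, map_add, map_smul, lp.coeFn_add, Pi.add_apply,
      lp.coeFn_smul, Pi.smul_apply, smul_eq_mul]
  rw [hl, lp.coeFn_add, Pi.add_apply, lp.coeFn_smul, Pi.smul_apply, smul_eq_mul]
  have h3 : lap (G V' z f) x + c * lap (G V z (del x₀)) x +
      ((V x : ℂ) - z) * (G V' z f x + c * G V z (del x₀) x) =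
      (lap (G V' z f) x + ((V' x : ℂ) - z) * G V' z f x) +
      ((V x : ℂ) - V' x) * G V' z f x +
      c * (lap (G V z (del x₀)) x + ((V x : ℂ) - z) * G V z (del x₀) x) := by ring
  rw [h3, h1, h2, del_apply]
  by_cases hx : x = x₀
  · subst hx
    rw [if_pos rfl, hV', Function.update_self, hc, ← hV']
    ring
  · rw [if_neg hx, hV', Function.update_of_ne hx]
    ring

theorem upd_upd (V : Cfg d) (x₀ : Site d) (s : ℝ) :
    Function.update (Function.update V x₀ s) x₀ (V x₀) = V := by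
  rw [Function.update_idem, Function.update_eq_self]

/-- the reversed formula -/
theorem G_upd' {V : Cfg d} {z : ℂ} (hz : z.im ≠ 0) (x₀ : Site d) (s : ℝ) (f : L2 d) :
    G V z f = G (Function.update V x₀ s) z f +
      (((s : ℂ) - V x₀) * G V z f x₀) • G (Function.update V x₀ s) z (del x₀) := by
  have h := G_upd (V := Function.update V x₀ s) hz x₀ (V x₀) f
  rw [upd_upd, Function.update_self] at h
  rw [h]
  have e : (((V x₀ : ℝ) : ℂ) - (s : ℝ)) * G V z f x₀ = -(((s : ℂ) - V x₀) * G V z f x₀) := by ring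
  rw [e, neg_smul]
  abel

theorem G_symm {V : Cfg d} {z : ℂ} (hz : z.im ≠ 0) (x y : Site d) :
    G V z (del y) x = G V z (del x) y := by
  have h1 : ⟪del x, G V z (del y)⟫_ℂ = ⟪G V (conj z) (del x), del y⟫_ℂ := by
    rw [(isRes_G V).adj _ (conj_im_ne hz), Complex.conj_conj]
  rw [inner_del_left, inner_del_right] at h1
  have h2 := G_star (V := V) hz (del x)
  rw [star_del'] at h2
  rw [h2, star_apply, Complex.conj_conj] at h1
  exact h1

theorem G_conj_del {V : Cfg d} {z : ℂ} (hz : z.im ≠ 0) (x y : Site d) :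
    G V (conj z) (del x) y = conj (G V z (del x) y) := by
  have h2 := G_star (V := V) hz (del x)
  rw [star_del'] at h2
  rw [h2, star_apply]

/-- the Gram matrix of the resolvent vectors -/
theorem gram_G {V : Cfg d} {z : ℂ} (hz : z.im ≠ 0) (u v : L2 d) :
    (2 * Complex.I * z.im) * ⟪G V z u, G V z v⟫_ℂ = ⟪u, G V z v⟫_ℂ - ⟪G V z u, v⟫_ℂ := by
  have hz' := conj_im_ne hz
  have h1 : ⟪G V z u, G V z v⟫_ℂ = ⟪u, G V (conj z) (G V z v)⟫_ℂ := (isRes_G V).adj z hz _ _
  have h2 := (isRes_G V).ident_apply hz' hz v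
  have h3 : ⟪u, G V (conj z) v⟫_ℂ - ⟪u, G V z v⟫_ℂ = (conj z - z) * ⟪G V z u, G V z v⟫_ℂ := by
    rw [← inner_sub_right, h2, inner_smul_right, h1]
  have h4 : ⟪G V z u, v⟫_ℂ = ⟪u, G V (conj z) v⟫_ℂ := (isRes_G V).adj z hz _ _
  have h5 : (conj z - z) = -(2 * Complex.I * z.im) := by
    apply Complex.ext <;> simp
    ring
  rw [h4]
  rw [h5] at h3
  linear_combination h3

theorem gram_del {V : Cfg d} {z : ℂ} (hz : z.im ≠ 0) (x y : Site d) :
    (z.im : ℂ) * ⟪G V z (del y), G V z (del x)⟫_ℂ = ((G V z (del x) y).im : ℂ) := by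
  have h := gram_G (V := V) hz (del y) (del x)
  rw [inner_del_left, inner_del_right, G_symm hz x y, Complex.sub_conj] at h
  have hI : (2 * Complex.I : ℂ) ≠ 0 := by simp
  apply mul_left_cancel₀ hI
  rw [← mul_assoc, h]
  push_cast
  ring

theorem im_G_del' {V : Cfg d} {z : ℂ} (hz : z.im ≠ 0) (x : Site d) :
    (G V z (del x) x).im = z.im * ‖G V z (del x)‖ ^ 2 := by
  rw [← (isRes_G V).im_inner hz, inner_del_left]

theorem G_del_ne {V : Cfg d} {z : ℂ} (hz : z.im ≠ 0) (x : Site d) : G V z (del x) ≠ 0 := by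
  intro h
  have h1 := (isRes_G V).inj z hz _ h
  have h2 := norm_del x
  rw [h1, norm_zero] at h2
  exact zero_ne_one h2

theorem norm_G_del_pos {V : Cfg d} {z : ℂ} (hz : z.im ≠ 0) (x : Site d) :
    0 < ‖G V z (del x)‖ := norm_pos_iff.2 (G_del_ne hz x)

theorem im_G_del_pos {V : Cfg d} {z : ℂ} (hz : 0 < z.im) (x : Site d) :
    0 < (G V z (del x) x).im := by
  rw [im_G_del' hz.ne']
  have := norm_G_del_pos (V := V) hz.ne' x
  positivity

/-! ### the local value of a conserved observable -/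

section obs

variable {A : Op d} {V : Cfg d} (hsa : ∀ f g : L2 d, ⟪A f, g⟫_ℂ = ⟪f, A g⟫_ℂ)
  (hcm : ∀ z : ℂ, z.im ≠ 0 → ∀ f : L2 d, A (G V z f) = G V z (A f))

include hsa hcm in
theorem gram_A {z : ℂ} (hz : z.im ≠ 0) (x : Site d) :
    (z.im : ℂ) * ⟪G V z (del x), A (G V z (del x))⟫_ℂ = ((G V z (A (del x)) x).im : ℂ) := by
  have h := gram_G (V := V) hz (del x) (A (del x))
  rw [hcm z hz]
  have h1 : ⟪G V z (del x), A (del x)⟫_ℂ = conj ⟪del x, G V z (A (del x))⟫_ℂ := by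
    rw [← hsa, hcm z hz, inner_conj_symm]
  rw [h1, inner_del_left, Complex.sub_conj] at h
  have hI : (2 * Complex.I : ℂ) ≠ 0 := by simp
  apply mul_left_cancel₀ hI
  rw [← mul_assoc, h]
  push_cast
  ring

/-- the local value `⟪Gδ, AGδ⟫ / ‖Gδ‖²` -/
def aa (A : Op d) (V : Cfg d) (z : ℂ) (x : Site d) : ℝ :=
  (G V z (A (del x)) x).im / (G V z (del x) x).im

/-- the residual -/
def rr (A : Op d) (V : Cfg d) (z : ℂ) (x : Site d) : L2 d :=
  A (G V z (del x)) - (aa A V z x : ℂ) • G V z (del x)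

theorem A_G_del (A : Op d) (V : Cfg d) (z : ℂ) (x : Site d) :
    A (G V z (del x)) = (aa A V z x : ℂ) • G V z (del x) + rr A V z x := by
  unfold rr; abel

include hsa hcm

theorem aa_eq {z : ℂ} (hz : z.im ≠ 0) (x : Site d) :
    ⟪G V z (del x), A (G V z (del x))⟫_ℂ = (aa A V z x : ℂ) * ((‖G V z (del x)‖ ^ 2 : ℝ) : ℂ) := by
  have h := gram_A hsa hcm hz x
  have h0 : (z.im : ℂ) ≠ 0 := by exact_mod_cast hz
  apply mul_left_cancel₀ h0
  rw [h]
  have h1 : (z.im : ℂ) * ((aa A V z x : ℂ) * ((‖G V z (del x)‖ ^ 2 : ℝ) : ℂ)) =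
      (aa A V z x : ℂ) * (((z.im * ‖G V z (del x)‖ ^ 2 : ℝ)) : ℂ) := by
    push_cast; ring
  rw [h1, ← im_G_del' hz]
  unfold aa
  have h2 : (G V z (del x) x).im ≠ 0 := by
    rw [im_G_del' hz]
    have := norm_G_del_pos (V := V) hz x
    exact mul_ne_zero hz (by positivity)
  rw [← Complex.ofReal_mul, div_mul_cancel₀ _ h2]

theorem inner_rr {z : ℂ} (hz : z.im ≠ 0) (x : Site d) : ⟪G V z (del x), rr A V z x⟫_ℂ = 0 := by
  unfold rr
  rw [inner_sub_right, inner_smul_right, aa_eq hsa hcm hz, inner_self_eq_norm_sq_to_K]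
  push_cast
  simp

/-- best approximation -/
theorem norm_rr_le {z : ℂ} (hz : z.im ≠ 0) (x : Site d) (c : ℂ) :
    ‖rr A V z x‖ ≤ ‖A (G V z (del x)) - c • G V z (del x)‖ := by
  have h1 : A (G V z (del x)) - c • G V z (del x) =
      rr A V z x + ((aa A V z x : ℂ) - c) • G V z (del x) := by
    rw [A_G_del, sub_smul]; abel
  have h2 : ⟪rr A V z x, ((aa A V z x : ℂ) - c) • G V z (del x)⟫_ℂ = 0 := by
    rw [inner_smul_right, ← inner_conj_symm, inner_rr hsa hcm hz]
    simp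
  have h3 := norm_add_sq_eq_norm_sq_add_norm_sq_of_inner_eq_zero _ _ h2
  rw [← h1] at h3
  have h4 := norm_nonneg (rr A V z x)
  have h5 := norm_nonneg (A (G V z (del x)) - c • G V z (del x))
  have h6 := norm_nonneg (((aa A V z x : ℂ) - c) • G V z (del x))
  nlinarith [mul_self_nonneg (‖((aa A V z x : ℂ) - c) • G V z (del x)‖)]

theorem norm_rr_le' {z : ℂ} (hz : z.im ≠ 0) (x : Site d) :
    ‖rr A V z x‖ ≤ ‖A‖ * ‖G V z (del x)‖ := by
  have h := norm_rr_le hsa hcm hz x 0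
  rw [zero_smul, sub_zero] at h
  exact h.trans (A.le_opNorm _)

theorem abs_aa_le {z : ℂ} (hz : z.im ≠ 0) (x : Site d) : |aa A V z x| ≤ ‖A‖ := by
  have h := aa_eq hsa hcm hz x
  have hp := norm_G_del_pos (V := V) hz x
  have h1 : ‖⟪G V z (del x), A (G V z (del x))⟫_ℂ‖ ≤ ‖A‖ * ‖G V z (del x)‖ ^ 2 := by
    refine (norm_inner_le_norm _ _).trans ?_
    have := A.le_opNorm (G V z (del x))
    nlinarith
  rw [h, norm_mul, Complex.norm_real, Complex.norm_real, Real.norm_eq_abs,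
    Real.norm_of_nonneg (by positivity)] at h1
  exact le_of_mul_le_mul_right h1 (by positivity)

end obs

/-! ### the key inequality -/

section key

variable {V : Cfg d} {x₀ : Site d} {s : ℝ} {A A' : Op d}
  (hcm : ∀ z : ℂ, z.im ≠ 0 → ∀ f : L2 d, A (G V z f) = G V z (A f))
  (hsa' : ∀ f g : L2 d, ⟪A' f, g⟫_ℂ = ⟪f, A' g⟫_ℂ)
  (hcm' : ∀ z : ℂ, z.im ≠ 0 → ∀ f : L2 d,
    A' (G (Function.update V x₀ s) z f) = G (Function.update V x₀ s) z (A' f))

theorem G_upd_del {z : ℂ} (hz : z.im ≠ 0) :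
    G V z (del x₀) = (1 + ((s : ℂ) - V x₀) * G V z (del x₀) x₀) •
      G (Function.update V x₀ s) z (del x₀) := by
  have h := G_upd' (V := V) hz x₀ s (del x₀)
  rw [add_smul, one_smul]
  exact h

theorem G_upd_del' {z : ℂ} (hz : z.im ≠ 0) :
    G (Function.update V x₀ s) z (del x₀) =
      (1 - ((s : ℂ) - V x₀) * G (Function.update V x₀ s) z (del x₀) x₀) • G V z (del x₀) := by
  have h := G_upd (V := V) hz x₀ s (del x₀)
  rw [sub_smul, one_smul, eq_sub_iff_add_eq]
  exact h.symm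

/-- the two factors are inverse to each other -/
theorem factor_mul {z : ℂ} (hz : z.im ≠ 0) :
    (1 + ((s : ℂ) - V x₀) * G V z (del x₀) x₀) *
      (1 - ((s : ℂ) - V x₀) * G (Function.update V x₀ s) z (del x₀) x₀) = 1 := by
  have h1 := G_upd_del (V := V) (x₀ := x₀) (s := s) hz
  have h2 := G_upd_del' (V := V) (x₀ := x₀) (s := s) hz
  rw [h2, smul_smul] at h1
  have h3 : ((1 + ((s : ℂ) - V x₀) * G V z (del x₀) x₀) *
      (1 - ((s : ℂ) - V x₀) * G (Function.update V x₀ s) z (del x₀) x₀) - 1) •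
      G V z (del x₀) = 0 := by
    rw [sub_smul, one_smul, ← h1, sub_self]
  rcases smul_eq_zero.1 h3 with h | h
  · exact sub_eq_zero.1 h
  · exact absurd h (G_del_ne hz x₀)

include hcm hcm' in
theorem diff_eq {z : ℂ} (hz : z.im ≠ 0) : ∃ c : ℂ,
    A' (G V z (del x₀)) - A (G V z (del x₀)) =
      G V z ((1 + ((s : ℂ) - V x₀) * G V z (del x₀) x₀) • A' (del x₀) - c • del x₀ -
        A (del x₀)) := by
  set V' := Function.update V x₀ s with hV'
  set b : ℂ := 1 + ((s : ℂ) - V x₀) * G V z (del x₀) x₀ with hb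
  refine ⟨b * (((s : ℂ) - V x₀) * G V' z (A' (del x₀)) x₀), ?_⟩
  have h1 : A' (G V z (del x₀)) = b • G V' z (A' (del x₀)) := by
    conv_lhs => rw [G_upd_del (s := s) hz]
    rw [map_smul, hcm' z hz]
  have h2 := G_upd (V := V) hz x₀ s (A' (del x₀))
  rw [← hV'] at h2
  have h3 : G V' z (A' (del x₀)) = G V z (A' (del x₀)) -
      (((s : ℂ) - V x₀) * G V' z (A' (del x₀)) x₀) • G V z (del x₀) := by
    rw [eq_sub_iff_add_eq]; exact h2.symm
  rw [h1, hcm z hz, map_sub, map_sub, map_smul, map_smul, h3, smul_sub, smul_smul]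
  have e : ∀ a b c : L2 d, a - b - c = a - b - c := fun _ _ _ => rfl
  have h4 : G V z (A' (del x₀)) - (((s : ℂ) - V x₀) * G V' z (A' (del x₀)) x₀) •
      G V z (del x₀) = G V' z (A' (del x₀)) := h3.symm
  rw [h4]

include hcm hsa' hcm' in
/-- the key inequality -/
theorem key {z : ℂ} (hz : 0 < z.im) :
    2 * |s - V x₀| * (G V z (del x₀) x₀).im * ‖rr A' (Function.update V x₀ s) z x₀‖ ≤
      ‖A' (G V z (del x₀)) - A (G V z (del x₀))‖ +
      ‖A' (G V (conj z) (del x₀)) - A (G V (conj z) (del x₀))‖ := by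
  have hz0 := hz.ne'
  have hz' := conj_im_ne hz0
  set V' := Function.update V x₀ s with hV'
  set t : ℂ := (s : ℂ) - V x₀ with ht
  set g : ℂ := G V z (del x₀) x₀ with hg
  set f' : L2 d := A' (del x₀) with hf'
  obtain ⟨c₁, h1⟩ := diff_eq (s := s) hcm hcm' hz0
  obtain ⟨c₂, h2⟩ := diff_eq (s := s) hcm hcm' hz'
  rw [G_conj_del hz0, ← hg, ← ht, ← hf'] at h2
  rw [← hg, ← ht, ← hf'] at h1
  rw [h1, h2, (isRes_G V).norm_conj hz0]
  have h3 : ‖G V z ((t * (g - conj g)) • f' - (c₁ - c₂) • del x₀)‖ ≤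
      ‖G V z ((1 + t * g) • f' - c₁ • del x₀ - A (del x₀))‖ +
      ‖G V z ((1 + t * conj g) • f' - c₂ • del x₀ - A (del x₀))‖ := by
    refine le_trans (le_of_eq ?_) (norm_sub_le _ _)
    rw [← map_sub]
    congr 2
    have e1 : (1 + t * g) • f' - c₁ • del x₀ - A (del x₀) -
        ((1 + t * conj g) • f' - c₂ • del x₀ - A (del x₀)) =
        ((1 + t * g) • f' - (1 + t * conj g) • f') - (c₁ • del x₀ - c₂ • del x₀) := by abel
    rw [e1, ← sub_smul, ← sub_smul]
    congr 2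
    ring
  refine le_trans ?_ h3
  -- rewrite in terms of `V'`
  have h4 := G_upd (V := V) hz0 x₀ s f'
  rw [← hV', ← ht] at h4
  have h5 := G_upd_del (V := V) (x₀ := x₀) (s := s) hz0
  rw [← hV', ← ht, ← hg] at h5
  have h6 : G V' z f' = A' (G V' z (del x₀)) := by rw [hf', hcm' z hz0]
  set b : ℂ := 1 + t * g with hb
  set τ : ℂ := t * (g - conj g) with hτ
  have h7 : ∃ c : ℂ, G V z (τ • f' - (c₁ - c₂) • del x₀) =
      τ • (A' (G V' z (del x₀))) - c • G V' z (del x₀) := by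
    refine ⟨-(τ * (t * G V' z f' x₀) * b) + (c₁ - c₂) * b, ?_⟩
    rw [map_sub, map_smul, map_smul, h4, h5, h6, smul_add, smul_smul, smul_smul, smul_smul,
      add_smul, neg_smul]
    abel
  obtain ⟨c, h8⟩ := h7
  rw [h8]
  have h9 : ‖τ‖ = 2 * |s - V x₀| * g.im := by
    have e1 : g - conj g = ((2 * g.im : ℝ) : ℂ) * Complex.I := Complex.sub_conj g
    have e2 : t = ((s - V x₀ : ℝ) : ℂ) := by rw [ht]; push_cast; ring
    have hpos : 0 ≤ g.im := (im_G_del_pos hz x₀).le
    rw [hτ, e1, e2, norm_mul, norm_mul, Complex.norm_I, mul_one, Complex.norm_real,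
      Complex.norm_real, Real.norm_eq_abs, Real.norm_of_nonneg (by positivity)]
    ring
  by_cases hτ0 : τ = 0
  · rw [← h9, hτ0, norm_zero, zero_mul]
    exact norm_nonneg _
  · have h10 : τ • (A' (G V' z (del x₀))) - c • G V' z (del x₀) =
        τ • (A' (G V' z (del x₀)) - (τ⁻¹ * c) • G V' z (del x₀)) := by
      rw [smul_sub, smul_smul, ← mul_assoc, mul_inv_cancel₀ hτ0, one_mul]
    rw [h10, norm_smul, h9]
    refine mul_le_mul_of_nonneg_left ?_ (by rw [← h9]; exact norm_nonneg _)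
    exact norm_rr_le hsa' hcm' hz0 x₀ _

end key

end Pool.Agent.QE
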