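import Pool.Agent.Helper54_QE.MainE
import Pool.Agent.Helper77_QE.Local
import Pool.Agent.Helper77_QE.Step

/-!
# All modules together
-/

set_option autoImplicit false
set_option linter.unusedSectionVars false

open scoped InnerProductSpace ComplexConjugate Topology ENNReal
open MeasureTheory Filter

noncomputable section

namespace Pool.Agent.QE

theorem step : StepStatement := QE77.step_of (QE77.local_of cyl) trace tight mp

end Pool.Agent.QE
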