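import Pool.Agent.Helper54_QE.Alg

/-!
# Modules ISO and RIGHT
-/

set_option autoImplicit false
set_option linter.unusedSectionVars false

open scoped InnerProductSpace ComplexConjugate Topology ENNReal
open MeasureTheory Filter

noncomputable section

namespace Pool.Agent.QE

open Pool.Agent.Anderson Pool.Agent.Helper54.Bal

variable {d : ℕ}

/-- the trace norm of the adjoint -/
theorem trace_adj (μ : Measure ℝ) [IsProbabilityMeasure μ] {T : Cfg d → Op d} (hT : Cov T) :
    ∫⁻ V, ‖T V (del 0)‖ₑ ^ 2 ∂(PP d μ) =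
      ∫⁻ V, ‖ContinuousLinearMap.adjoint (T V) (del 0)‖ₑ ^ 2 ∂(PP d μ) :=
  Tr.trace_gen μ (fun x y => Tr.measurable_coord (hT.meas (del x)) y) hT.cov 0

/-- right multiplication by a bounded covariant family -/
theorem trace_right (μ : Measure ℝ) [IsProbabilityMeasure μ] {D P : Cfg d → Op d} (hD : Cov D)
    (hP : Cov P) {K : ℝ} (hK : ∀ V, ‖P V‖ ≤ K) :
    ∫⁻ V, ‖D V (P V (del 0))‖ₑ ^ 2 ∂(PP d μ) ≤
      ENNReal.ofReal (K ^ 2) * ∫⁻ V, ‖D V (del 0)‖ₑ ^ 2 ∂(PP d μ) := by
  have hK0 : 0 ≤ K := (norm_nonneg _).trans (hK 0)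
  have h1 := trace_adj μ (hD.mul hP)
  have e1 : ∀ V, (D V * P V) (del 0) = D V (P V (del 0)) := fun V => rfl
  simp only [e1] at h1
  rw [h1, trace_adj μ hD, ← lintegral_const_mul' _ _ ENNReal.ofReal_ne_top]
  refine lintegral_mono fun V => ?_
  have e2 : ContinuousLinearMap.adjoint (D V * P V) (del 0) =
      ContinuousLinearMap.adjoint (P V) (ContinuousLinearMap.adjoint (D V) (del 0)) := by
    have : ContinuousLinearMap.adjoint (D V * P V) =
        ContinuousLinearMap.adjoint (P V) * ContinuousLinearMap.adjoint (D V) :=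
      ContinuousLinearMap.adjoint_comp _ _
    rw [this]; rfl
  rw [e2]
  have h2 := (ContinuousLinearMap.adjoint (P V)).le_opNorm
    (ContinuousLinearMap.adjoint (D V) (del 0))
  rw [ContinuousLinearMap.adjoint.norm_map] at h2
  have h3 : ‖ContinuousLinearMap.adjoint (P V) (ContinuousLinearMap.adjoint (D V) (del 0))‖ ≤
      K * ‖ContinuousLinearMap.adjoint (D V) (del 0)‖ :=
    h2.trans (mul_le_mul_of_nonneg_right (hK V) (norm_nonneg _))
  rw [← ofReal_norm, ← ofReal_norm, ← ENNReal.ofReal_pow (norm_nonneg _),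
    ← ENNReal.ofReal_pow (norm_nonneg _), ← ENNReal.ofReal_mul (by positivity)]
  refine ENNReal.ofReal_le_ofReal ?_
  rw [← mul_pow]
  gcongr

theorem iso : IsoStatement := by
  intro d μ _ D hD
  refine ⟨(cov_cayS.mul hD).mul cov_cay, ?_⟩
  have e1 : ∀ V : Cfg d, ‖(cayS V * D V * cay V) (del 0)‖ₑ = ‖(D V * cay V) (del 0)‖ₑ := by
    intro V
    have : (cayS V * D V * cay V) (del 0) = cayS V ((D V * cay V) (del 0)) := rfl
    rw [this, ← ofReal_norm, norm_cayS, ofReal_norm]
  simp only [e1]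
  rw [trace_adj μ (hD.mul cov_cay), trace_adj μ hD]
  refine lintegral_congr fun V => ?_
  have e2 : ContinuousLinearMap.adjoint (D V * cay V) (del 0) =
      cayS V (ContinuousLinearMap.adjoint (D V) (del 0)) := by
    have : ContinuousLinearMap.adjoint (D V * cay V) =
        ContinuousLinearMap.adjoint (cay V) * ContinuousLinearMap.adjoint (D V) :=
      ContinuousLinearMap.adjoint_comp _ _
    rw [this, adjoint_cay]; rfl
  rw [e2, ← ofReal_norm, norm_cayS, ofReal_norm]

theorem right : RightStatement := by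
  intro d μ _ p
  set K : ℝ := ∑ k, ‖p.a k‖ * |(p.w k).im|⁻¹ with hK
  refine ⟨K ^ 2, by positivity, fun D hD => ?_⟩
  exact trace_right μ hD (cov_rf p) fun V => norm_rf_op_le p V

end Pool.Agent.QE
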