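import Pool.Agent.Helper54_QE.Reg
import Pool.Agent.Helper54_QE.Iso

/-!
# Auxiliary facts for the quantum ergodicity theorem
-/

set_option autoImplicit false
set_option linter.unusedSectionVars false

open scoped InnerProductSpace ComplexConjugate Topology ENNReal
open MeasureTheory Filter

noncomputable section

namespace Pool.Agent.QE

open Pool.Agent.Anderson Pool.Agent.Helper54.Bal

variable {d : ℕ}

theorem enorm_sq_eq {X : Type*} [SeminormedAddCommGroup X] (v : X) :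
    ‖v‖ₑ ^ 2 = ENNReal.ofReal (‖v‖ ^ 2) := by
  rw [ENNReal.ofReal_pow (norm_nonneg _), ofReal_norm]

theorem norm_sq_add_le {X : Type*} [SeminormedAddCommGroup X] {θ : ℝ} (hθ : 0 < θ) (x y : X) :
    ‖x + y‖ ^ 2 ≤ (1 + θ) * ‖x‖ ^ 2 + (1 + θ⁻¹) * ‖y‖ ^ 2 := by
  have h1 := norm_add_le x y
  have h2 : ‖x + y‖ ^ 2 ≤ (‖x‖ + ‖y‖) ^ 2 := by gcongr
  have h3 : 0 ≤ θ⁻¹ * (θ * ‖x‖ - ‖y‖) ^ 2 := by positivity
  have h4 : θ⁻¹ * (θ * ‖x‖ - ‖y‖) ^ 2 = θ * ‖x‖ ^ 2 - 2 * ‖x‖ * ‖y‖ + θ⁻¹ * ‖y‖ ^ 2 := by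
    field_simp
    ring
  nlinarith

theorem enorm_sq_add_le {X : Type*} [SeminormedAddCommGroup X] {θ : ℝ} (hθ : 0 < θ) (x y : X) :
    ‖x + y‖ₑ ^ 2 ≤ ENNReal.ofReal (1 + θ) * ‖x‖ₑ ^ 2 + ENNReal.ofReal (1 + θ⁻¹) * ‖y‖ₑ ^ 2 := by
  have h0 : 0 < θ⁻¹ := inv_pos.2 hθ
  rw [enorm_sq_eq, enorm_sq_eq, enorm_sq_eq, ← ENNReal.ofReal_mul (by positivity),
    ← ENNReal.ofReal_mul (by positivity), ← ENNReal.ofReal_add (by positivity) (by positivity)]
  exact ENNReal.ofReal_le_ofReal (norm_sq_add_le hθ x y)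

/-- the trace norm does not depend on the site -/
theorem trace_site (μ : Measure ℝ) [IsProbabilityMeasure μ] {T : Cfg d → Op d} (hT : Cov T)
    (x : Site d) :
    ∫⁻ V, ‖T V (del x)‖ₑ ^ 2 ∂(PP d μ) = ∫⁻ V, ‖T V (del 0)‖ₑ ^ 2 ∂(PP d μ) := by
  rw [trace_adj μ hT]
  exact Tr.trace_gen μ (fun x y => Tr.measurable_coord (hT.meas (del x)) y) hT.cov x

/-- the spectral measure has mass at most one -/
theorem mass_le_one {V : Cfg d} {m : Measure ℝ} (hfin : IsFiniteMeasure m)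
    (hm : ∀ z : ℂ, z.im ≠ 0 → G V z (del 0) 0 = ∫ E : ℝ, 1 / ((E : ℂ) - z) ∂m) :
    m Set.univ ≤ 1 := by
  -- `∫ y² / (E² + y²) dm ≤ 1`
  have h1 : ∀ y : ℝ, 0 < y → ∫⁻ E, ENNReal.ofReal (y ^ 2 / (E ^ 2 + y ^ 2)) ∂m ≤ 1 := by
    intro y hy
    have hz : (zz y 0).im ≠ 0 := by rw [zz_im]; exact hy.ne'
    have h2 := hm _ hz
    have hne : ∀ t : ℝ, (t : ℂ) - zz y 0 ≠ 0 := fun t => real_sub_ne hz t
    have hint : Integrable (fun t : ℝ => 1 / ((t : ℂ) - zz y 0)) m := by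
      refine Integrable.of_bound (C := |(zz y 0).im|⁻¹) ?_ (Eventually.of_forall fun t => ?_)
      · have : Continuous fun t : ℝ => 1 / ((t : ℂ) - zz y 0) := by
          refine Continuous.div continuous_const (by fun_prop) hne
        exact this.aestronglyMeasurable
      · rw [one_div]; exact norm_inv_le hz t
    have h3 : (∫ t : ℝ, 1 / ((t : ℂ) - zz y 0) ∂m).im =
        ∫ t : ℝ, (1 / ((t : ℂ) - zz y 0)).im ∂m := (integral_im hint).symm
    have h4 := im_G_del' (V := V) hz 0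
    rw [zz_im, h2, h3] at h4
    have h5 : ∀ t : ℝ, (1 / ((t : ℂ) - zz y 0)).im = y / (t ^ 2 + y ^ 2) := by
      intro t
      rw [Complex.div_im, Complex.normSq_apply]
      simp only [Complex.sub_re, Complex.ofReal_re, zz_re, Complex.sub_im, Complex.ofReal_im,
        zz_im, Complex.one_im, Complex.one_re]
      have e : (t - 0) * (t - 0) + (0 - y) * (0 - y) = t ^ 2 + y ^ 2 := by ring
      rw [e]
      ring
    simp only [h5] at h4
    have hi2 : Integrable (fun t : ℝ => y / (t ^ 2 + y ^ 2)) m := by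
      have := hint.im
      simp only [RCLike.im_eq_complex_im, h5] at this
      exact this
    have h6 : ∫ t : ℝ, y ^ 2 / (t ^ 2 + y ^ 2) ∂m = y ^ 2 * ‖G V (zz y 0) (del 0)‖ ^ 2 := by
      have e : (fun t : ℝ => y ^ 2 / (t ^ 2 + y ^ 2)) = fun t => y * (y / (t ^ 2 + y ^ 2)) := by
        funext t; ring
      rw [e, integral_const_mul, h4]
      ring
    have h7 : y ^ 2 * ‖G V (zz y 0) (del 0)‖ ^ 2 ≤ 1 := by
      have h8 := (isRes_G V).norm_le hz (del 0)
      rw [norm_del, zz_im, abs_of_pos hy] at h8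
      rw [← mul_pow]
      have : 0 ≤ y * ‖G V (zz y 0) (del 0)‖ := by positivity
      exact pow_le_one₀ this h8
    have hi3 : Integrable (fun t : ℝ => y ^ 2 / (t ^ 2 + y ^ 2)) m := by
      have e : (fun t : ℝ => y ^ 2 / (t ^ 2 + y ^ 2)) = fun t => y * (y / (t ^ 2 + y ^ 2)) := by
        funext t; ring
      rw [e]
      exact hi2.const_mul y
    rw [← ofReal_integral_eq_lintegral_ofReal hi3 (Eventually.of_forall fun t => by positivity),
      h6]
    exact ENNReal.ofReal_le_one.2 h7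
  have h2 : ∫⁻ E : ℝ, liminf (fun n : ℕ => ENNReal.ofReal
      (((n : ℝ) + 1) ^ 2 / (E ^ 2 + ((n : ℝ) + 1) ^ 2))) atTop ∂m ≤ 1 := by
    refine (lintegral_liminf_le fun n => ?_).trans ?_
    · exact ((measurable_const.div ((measurable_id.pow_const 2).add_const _))).ennreal_ofReal
    · refine liminf_le_of_frequently_le' (Frequently.of_forall fun n => ?_)
      exact h1 _ (by positivity)
  have h3 : ∀ E : ℝ, liminf (fun n : ℕ => ENNReal.ofReal
      (((n : ℝ) + 1) ^ 2 / (E ^ 2 + ((n : ℝ) + 1) ^ 2))) atTop = 1 := by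
    intro E
    apply Tendsto.liminf_eq
    rw [← ENNReal.ofReal_one]
    refine (ENNReal.continuous_ofReal.tendsto 1).comp ?_
    have h4 : Tendsto (fun n : ℕ => E ^ 2 * (((n : ℝ) + 1)⁻¹) ^ 2) atTop (𝓝 (E ^ 2 * 0 ^ 2)) := by
      refine Tendsto.const_mul _ (Tendsto.pow ?_ 2)
      exact tendsto_inv_atTop_zero.comp
        (tendsto_atTop_add_const_right _ _ tendsto_natCast_atTop_atTop)
    have h5 : Tendsto (fun n : ℕ => 1 / (1 + E ^ 2 * (((n : ℝ) + 1)⁻¹) ^ 2)) atTop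
        (𝓝 (1 / (1 + E ^ 2 * 0 ^ 2))) := by
      refine Tendsto.div tendsto_const_nhds (h4.const_add 1) (by norm_num)
    have e : (1 : ℝ) / (1 + E ^ 2 * 0 ^ 2) = 1 := by norm_num
    rw [e] at h5
    refine h5.congr fun n => ?_
    have : ((n : ℝ) + 1) ≠ 0 := by positivity
    field_simp
    ring
  simp only [h3] at h2
  rw [lintegral_const, one_mul] at h2
  exact h2

/-- integral bound for the boundary values of the Green function -/
theorem g0_bound {V : Cfg d} {e : ℕ → ℝ} (he : ∀ k, 0 < e k) {g : ℝ → ℝ}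
    (hg : ∀ᵐ E : ℝ, Tendsto (fun k => (G V (zz (e k) E) (del 0) 0).im) atTop (𝓝 (g E))) :
    ∫⁻ E, ENNReal.ofReal (g E) ≤ ENNReal.ofReal Real.pi := by
  have h1 : ∀ k, ∫⁻ E, ENNReal.ofReal ((G V (zz (e k) E) (del 0) 0).im) =
      ENNReal.ofReal Real.pi := by
    intro k
    have h2 := Tr.plancherel V (he k).ne' (del 0)
    rw [show ‖(del 0 : L2 d)‖ₑ ^ 2 = 1 by rw [enorm_sq_eq, norm_del]; simp, mul_one] at h2
    rw [← h2]
    refine lintegral_congr fun E => ?_
    have hz : (zz (e k) E).im ≠ 0 := by rw [zz_im]; exact (he k).ne'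
    rw [enorm_sq_eq, (isRes_G V).norm_conj hz, abs_of_pos (he k),
      ← ENNReal.ofReal_mul (he k).le, im_G_del' hz, zz_im]
  have hm : ∀ k, Measurable fun E : ℝ => ENNReal.ofReal ((G V (zz (e k) E) (del 0) 0).im) := by
    intro k
    refine Measurable.ennreal_ofReal ?_
    exact Complex.measurable_im.comp (measurable_coord (sm_G (he k).ne' measurable_const
      measurable_id stronglyMeasurable_const) 0)
  calc ∫⁻ E, ENNReal.ofReal (g E) =
      ∫⁻ E, liminf (fun k => ENNReal.ofReal ((G V (zz (e k) E) (del 0) 0).im)) atTop := by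
        refine lintegral_congr_ae ?_
        filter_upwards [hg] with E hE
        symm
        apply Tendsto.liminf_eq
        exact (ENNReal.continuous_ofReal.tendsto _).comp hE
    _ ≤ liminf (fun k => ∫⁻ E, ENNReal.ofReal ((G V (zz (e k) E) (del 0) 0).im)) atTop :=
        lintegral_liminf_le hm
    _ ≤ _ := liminf_le_of_frequently_le' (Frequently.of_forall fun k => (h1 k).le)

/-- an orthonormal family supported in a finite set is not larger than the set -/
theorem card_le {Λ : Finset (Site d)} {n : ℕ} {φ : Fin n → L2 d} (hφ : Orthonormal ℂ φ)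
    (h0 : ∀ j, ∀ x ∉ Λ, φ j x = 0) : n ≤ Λ.card := by
  have h1 : ∑ j, ∑ x ∈ Λ, ‖φ j x‖ ^ 2 = n := by
    have : ∀ j, ∑ x ∈ Λ, ‖φ j x‖ ^ 2 = 1 := by
      intro j
      have h2 := L2.norm_sq (φ j)
      rw [hφ.1 j, one_pow] at h2
      rw [h2]
      symm
      apply tsum_eq_sum
      intro x hx
      rw [h0 j x hx, norm_zero]; norm_num
    simp only [this]
    simp
  have h2 : ∑ j, ∑ x ∈ Λ, ‖φ j x‖ ^ 2 ≤ ∑ x ∈ Λ, (1:ℝ) := by
    rw [Finset.sum_comm]
    refine Finset.sum_le_sum fun x _ => ?_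
    have h3 := hφ.sum_inner_products_le (del x) (s := Finset.univ)
    rw [norm_del, one_pow] at h3
    refine le_trans (le_of_eq ?_) h3
    refine Finset.sum_congr rfl fun j _ => ?_
    rw [inner_del_right, Complex.norm_conj]
  rw [h1, Finset.sum_const, nsmul_eq_mul, mul_one] at h2
  exact_mod_cast h2

end Pool.Agent.QE
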