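import Pool.Agent.Helper54_QE.Meas

/-!
# Boundary values of matrix elements of the resolvent along a sequence
-/

set_option autoImplicit false
set_option linter.unusedSectionVars false

open scoped InnerProductSpace ComplexConjugate Topology ENNReal
open MeasureTheory Filter

noncomputable section

namespace Pool.Agent.QE

open Pool.Agent.Anderson Pool.Agent.Helper54.Bal

variable {d : ℕ}

theorem Fw_im_nonneg (w : Cfg d → L2 d) {ε : ℝ} (hε : 0 < ε) (p : Cfg d × ℝ) :
    0 ≤ (Fw w ε p).im := by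
  unfold Fw
  rw [(isRes_G p.1).im_inner (by rw [zz_im]; exact hε.ne'), zz_im]
  positivity

theorem add_I_ne {F : ℂ} (h : 0 ≤ F.im) : F + Complex.I ≠ 0 := by
  intro h0
  have := congrArg Complex.im h0
  simp at this
  linarith

theorem tendsto_zz {e : ℕ → ℝ} (he0 : Tendsto e atTop (𝓝 0)) (E : ℝ) :
    Tendsto (fun k => zz (e k) E) atTop (𝓝 (E : ℂ)) := by
  unfold zz
  have h2 : Tendsto (fun k => (e k : ℂ) * Complex.I) atTop (𝓝 ((0 : ℝ) * Complex.I)) :=
    ((Complex.continuous_ofReal.tendsto 0).comp he0).mul_const _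
  have h3 := h2.const_add (E : ℂ)
  simpa using h3

theorem lintegral_Fw_le (hT : TightStatement) {μ : Measure ℝ} [IsProbabilityMeasure μ]
    {w : Cfg d → L2 d} (hw : StronglyMeasurable w) {C : ℝ} (hC : ∀ V, ‖w V‖ ≤ C) {ε : ℝ}
    (hε : 0 < ε) :
    ∫⁻ p, ENNReal.ofReal (Real.sqrt ‖Fw w ε p‖) ∂(KK d μ) ≤
      ENNReal.ofReal (Real.sqrt 2 * Real.pi * C) := by
  have hm : Measurable fun p : Cfg d × ℝ => ENNReal.ofReal (Real.sqrt ‖Fw w ε p‖) :=
    (((measurable_Fw hw hε.ne').norm).sqrt).ennreal_ofReal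
  rw [lintegral_prod _ hm.aemeasurable]
  calc _ ≤ ∫⁻ _ : Cfg d, ENNReal.ofReal (Real.sqrt 2 * Real.pi * C) ∂(PP d μ) := by
        refine lintegral_mono fun V => ?_
        refine (hT d V (w V) ε hε).trans ?_
        refine ENNReal.ofReal_le_ofReal ?_
        have := Real.pi_pos
        gcongr
        exact hC V
    _ = _ := by simp

/-- convergence of the Green function from convergence of its bounded transform -/
theorem bv_limit (hT : TightStatement) {μ : Measure ℝ} [IsProbabilityMeasure μ]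
    {w : Cfg d → L2 d} (hw : StronglyMeasurable w) {C : ℝ} (hC : ∀ V, ‖w V‖ ≤ C)
    {e : ℕ → ℝ} (he : ∀ k, 0 < e k) (he0 : Tendsto e atTop (𝓝 0)) {g₀ : Cfg d × ℝ → ℂ}
    (hg : Measurable g₀)
    (h : ∀ᵐ p ∂(KK d μ), Tendsto (fun k => gw w (e k) p) atTop (𝓝 (g₀ p))) :
    ∃ F₀ : Cfg d × ℝ → ℂ, Measurable F₀ ∧
      ∀ᵐ p ∂(KK d μ), Tendsto (fun k => Fw w (e k) p) atTop (𝓝 (F₀ p)) := by
  set Z₀ : Cfg d × ℝ → ℂ := fun p => g₀ p * ((p.2 : ℂ) + Complex.I) with hZ₀
  have hZm : Measurable Z₀ :=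
    hg.mul ((Complex.measurable_ofReal.comp measurable_snd).add_const _)
  refine ⟨fun p => Complex.I * Z₀ p / (1 - Z₀ p),
    (hZm.const_mul _).div (hZm.const_sub _), ?_⟩
  have hfin : ∀ᵐ p ∂(KK d μ),
      liminf (fun k => ENNReal.ofReal (Real.sqrt ‖Fw w (e k) p‖)) atTop < ∞ := by
    refine ae_lt_top ?_ ?_
    · refine Measurable.liminf fun k => ?_
      exact (((measurable_Fw hw (he k).ne').norm).sqrt).ennreal_ofReal
    · refine ne_top_of_le_ne_top (b := ENNReal.ofReal (Real.sqrt 2 * Real.pi * C))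
        ENNReal.ofReal_ne_top ?_
      refine (lintegral_liminf_le fun k =>
        (((measurable_Fw hw (he k).ne').norm).sqrt).ennreal_ofReal).trans ?_
      refine liminf_le_of_frequently_le' (Frequently.of_forall fun k => ?_)
      exact lintegral_Fw_le hT hw hC (he k)
  filter_upwards [h, hfin] with p hp hfp
  have hF : ∀ k, 0 ≤ (Fw w (e k) p).im := fun k => Fw_im_nonneg w (he k) p
  set Z : ℕ → ℂ := fun k => Fw w (e k) p / (Fw w (e k) p + Complex.I) with hZ
  have hZlim : Tendsto Z atTop (𝓝 (Z₀ p)) := by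
    have h1 : Tendsto (fun k => gw w (e k) p * (zz (e k) p.2 + Complex.I)) atTop
        (𝓝 (g₀ p * ((p.2 : ℂ) + Complex.I))) :=
      hp.mul ((tendsto_zz he0 p.2).add_const _)
    refine h1.congr fun k => ?_
    have hz : zz (e k) p.2 + Complex.I ≠ 0 := add_I_ne (by rw [zz_im]; exact (he k).le)
    unfold gw
    rw [div_mul_cancel₀ _ hz]
  have hFZ : ∀ k, Fw w (e k) p = Complex.I * Z k / (1 - Z k) := by
    intro k
    have h1 := add_I_ne (hF k)
    have h2 : 1 - Z k = Complex.I / (Fw w (e k) p + Complex.I) := by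
      rw [hZ]; field_simp; ring
    rw [h2]
    simp only [hZ]
    field_simp
  have hne : Z₀ p ≠ 1 := by
    intro h1
    rw [h1] at hZlim
    have t1 : Tendsto (fun k => ‖Z k‖) atTop (𝓝 1) := by
      have := hZlim.norm; simpa using this
    have t2 : Tendsto (fun k => ‖1 - Z k‖) atTop (𝓝[>] 0) := by
      refine tendsto_nhdsWithin_iff.2 ⟨?_, ?_⟩
      · have := (hZlim.const_sub 1).norm; simpa using this
      · refine Eventually.of_forall fun k => ?_
        simp only [Set.mem_Ioi]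
        refine norm_pos_iff.2 ?_
        have h3 := add_I_ne (hF k)
        have h2 : 1 - Z k = Complex.I / (Fw w (e k) p + Complex.I) := by
          rw [hZ]; field_simp; ring
        rw [h2]
        exact div_ne_zero Complex.I_ne_zero h3
    have t3 : Tendsto (fun k => ‖Fw w (e k) p‖) atTop atTop := by
      have h4 : Tendsto (fun k => ‖Z k‖ * ‖1 - Z k‖⁻¹) atTop atTop :=
        Tendsto.pos_mul_atTop zero_lt_one t1 (tendsto_inv_nhdsGT_zero.comp t2)
      refine h4.congr fun k => ?_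
      have h6 := congrArg norm (hFZ k)
      rw [norm_div, norm_mul, Complex.norm_I, one_mul] at h6
      rw [h6, div_eq_mul_inv]
    have t4 : Tendsto (fun k => ENNReal.ofReal (Real.sqrt ‖Fw w (e k) p‖)) atTop (𝓝 ∞) :=
      ENNReal.tendsto_ofReal_nhds_top.2 (Real.tendsto_sqrt_atTop.comp t3)
    rw [t4.liminf_eq] at hfp
    exact lt_irrefl _ hfp
  have h5 : Tendsto (fun k => Complex.I * Z k / (1 - Z k)) atTop
      (𝓝 (Complex.I * Z₀ p / (1 - Z₀ p))) :=
    (hZlim.const_mul _).div (hZlim.const_sub 1) (sub_ne_zero.2 (Ne.symm hne))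
  refine h5.congr fun k => ?_
  rw [← hFZ k]

/-- polarisation -/
theorem polar (T : Op d) (u v : L2 d) :
    4 * ⟪u, T v⟫_ℂ = ⟪v + u, T (v + u)⟫_ℂ + Complex.I * ⟪v + Complex.I • u, T (v + Complex.I • u)⟫_ℂ
      - ⟪v - u, T (v - u)⟫_ℂ - Complex.I * ⟪v - Complex.I • u, T (v - Complex.I • u)⟫_ℂ := by
  simp only [map_add, map_sub, map_smul, inner_add_left, inner_add_right, inner_sub_left,
    inner_sub_right, inner_smul_left, inner_smul_right, Complex.conj_I]
  ring_nf
  simp only [Complex.I_sq]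
  ring

end Pool.Agent.QE
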