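import Pool.Agent.Helper54_QE.MainE2

/-!
# The absolutely continuous phase of the Anderson model has no conserved covariant observables
besides functions of the energy
-/

set_option autoImplicit false

open scoped InnerProductSpace ComplexConjugate
open MeasureTheory Pool.Agent.Anderson

noncomputable section

namespace Pool.Agent.QE.ConservedObservables

open Pool.Agent.QE

variable {d : ℕ}

/-- the law of the i.i.d. sequence `ξ(x)`, `x ∈ ℤ^d`, with single-site law `μ` -/
def iidLaw (d : ℕ) (μ : Measure ℝ) [IsProbabilityMeasure μ] : Measure (Site d → ℝ) :=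
  Measure.infinitePi fun _ : Site d => μ

/-- `u ∈ ℓ²(ℤ^d)` lies in the domain of `H = Δ + V` and `H u = f`. -/
def HasImage (V : Site d → ℝ) (u f : L2 d) : Prop :=
  ∀ x, lap u x + (V x : ℂ) * u x = f x

/-- the bounded operator `A` maps the domain of `H = Δ + V` to itself and commutes with `H` there -/
def Commutes (V : Site d → ℝ) (A : Op d) : Prop :=
  ∀ u f : L2 d, HasImage V u f → HasImage V (A u) (A f)

/-- bounded measurable translation covariant observables: a family `A_ξ` of operators on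
`ℓ²(ℤ^d)`, measurable in `ξ`, uniformly bounded and translation covariant for `P`-a.e. `ξ` -/
structure IsObservable (P : Measure (Site d → ℝ)) (A : (Site d → ℝ) → Op d) : Prop where
  meas : ∀ f : L2 d, StronglyMeasurable fun ξ => A ξ f
  bdd : ∃ C : ℝ, ∀ᵐ ξ ∂P, ‖A ξ‖ ≤ C
  cov : ∀ a : Site d, ∀ᵐ ξ ∂P, ∀ f : L2 d, A (tau a ξ) (shift a f) = shift a (A ξ f)

/-- Let `ξ(x)`, `x ∈ ℤ^d`, be i.i.d. with an atomless law `μ` (for instance standard Gaussian),
`σ ≠ 0` and `H_ξ = Δ + σ ξ`. Let `A_ξ` be a bounded measurable translation covariant family of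
operators which commutes with `H_ξ` almost surely. Then there is a non-random bounded Borel
function `c` such that, almost surely, `A_ξ ψ = c(H_ξ) ψ` for every `ψ` in the absolutely
continuous subspace of `H_ξ`. -/
theorem result (d : ℕ) (μ : Measure ℝ) [IsProbabilityMeasure μ] (hatom : ∀ a : ℝ, μ {a} = 0)
    (σ : ℝ) (hσ : σ ≠ 0) (A : (Site d → ℝ) → Op d) (hA : IsObservable (iidLaw d μ) A)
    (hcomm : ∀ᵐ ξ ∂(iidLaw d μ), Commutes (fun x => σ * ξ x) (A ξ)) :
    ∃ c : ℝ → ℂ, Measurable c ∧ (∃ C : ℝ, ∀ E, ‖c E‖ ≤ C) ∧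
      ∀ᵐ ξ ∂(iidLaw d μ), ∀ (ψ : L2 d) (ρ : ℝ → ℝ),
        IsACVector (fun x => σ * ξ x) ρ ψ →
          IsFunctionOfEnergy (fun x => σ * ξ x) ρ c ψ (A ξ ψ) :=
  main_E step μ hatom σ hσ A hA.meas hA.bdd hA.cov hcomm

end Pool.Agent.QE.ConservedObservables
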