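import Pool.Agent.Helper54_Ballistic.Ell

/-!
# Conserved covariant observables of the Anderson model: definitions and module statements
-/

set_option autoImplicit false
set_option linter.unusedSectionVars false

open scoped InnerProductSpace ComplexConjugate Topology ENNReal
open MeasureTheory Filter

noncomputable section

namespace Pool.Agent.QE

open Pool.Agent.Anderson Pool.Agent.Helper54.Bal

/-- configurations of the potential -/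
abbrev Cfg (d : ℕ) : Type := Site d → ℝ

/-- bounded operators on `ℓ²(ℤ^d)` -/
abbrev Op (d : ℕ) : Type := L2 d →L[ℂ] L2 d

variable {d : ℕ}

/-- translation of configurations -/
def tau (a : Site d) (V : Cfg d) : Cfg d := fun y => V (y + a)

/-- the law of an i.i.d. potential -/
abbrev PP (d : ℕ) (μ : Measure ℝ) [IsProbabilityMeasure μ] : Measure (Cfg d) :=
  Measure.infinitePi fun _ : Site d => μ

/-- the finite reference measure `dE / (1 + E²)` on energies -/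
def lam : Measure ℝ := (volume : Measure ℝ).withDensity fun E => ENNReal.ofReal (1 + E ^ 2)⁻¹

/-- `P ⊗ dE/(1+E²)` -/
abbrev KK (d : ℕ) (μ : Measure ℝ) [IsProbabilityMeasure μ] : Measure (Cfg d × ℝ) :=
  (PP d μ).prod lam

/-- replace the potential at `x₀` -/
def upd (x₀ : Site d) (ω : (Cfg d × ℝ) × ℝ) : Cfg d × ℝ :=
  (Function.update ω.1.1 x₀ ω.2, ω.1.2)

/-- bounded measurable covariant families of operators -/
structure Cov (A : Cfg d → Op d) : Prop where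
  meas : ∀ f : L2 d, StronglyMeasurable fun V => A V f
  cov : ∀ (a : Site d) (V : Cfg d) (f : L2 d), A (tau a V) (shift a f) = shift a (A V f)
  bdd : ∃ C : ℝ, ∀ V, ‖A V‖ ≤ C

/-- conserved covariant observables: bounded, measurable, covariant, symmetric, commuting with
the resolvent of `H = Δ + V` -/
structure Obs (A : Cfg d → Op d) : Prop extends Cov A where
  sa : ∀ (V : Cfg d) (f g : L2 d), ⟪A V f, g⟫_ℂ = ⟪f, A V g⟫_ℂ
  comm : ∀ (V : Cfg d) (z : ℂ), z.im ≠ 0 → ∀ f : L2 d, A V (G V z f) = G V z (A V f)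

/-- a family that depends on each potential value only through finitely many columns -/
def Loc (B : Cfg d → Op d) (CB : ℝ) (F : Finset (Site d)) : Prop :=
  0 ≤ CB ∧ ∀ (x₀ : Site d) (V : Cfg d) (v : ℝ) (u : L2 d),
    ‖B (Function.update V x₀ v) u - B V u‖ ≤ CB * ∑ y ∈ F, ‖u (x₀ + y)‖

/-- diagonal matrix elements of the resolvent -/
def Fw (w : Cfg d → L2 d) (ε : ℝ) (p : Cfg d × ℝ) : ℂ :=
  ⟪w p.1, G p.1 (zz ε p.2) (w p.1)⟫_ℂ

/-- the bounded transform of `Fw` -/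
def gw (w : Cfg d → L2 d) (ε : ℝ) (p : Cfg d × ℝ) : ℂ :=
  Fw w ε p / (Fw w ε p + Complex.I) / (zz ε p.2 + Complex.I)

/-- the effect of a change of the potential at `x₀` -/
def dq (A : Cfg d → Op d) (x₀ x : Site d) (ε : ℝ) (ω : (Cfg d × ℝ) × ℝ) : ℝ :=
  Real.sqrt |ε| * ‖A (Function.update ω.1.1 x₀ ω.2) (G ω.1.1 (zz ε ω.1.2) (del x)) -
    A ω.1.1 (G ω.1.1 (zz ε ω.1.2) (del x))‖

/-! ### module statements -/

/-- module CYL: approximation by cylinder functions -/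
def CylStatement : Prop := ∀ (d : ℕ) (μ : Measure ℝ) [IsProbabilityMeasure μ] (f : Cfg d → ℂ)
  (_ : Measurable f) (C : ℝ) (_ : ∀ V, ‖f V‖ ≤ C) (κ : ℝ) (_ : 0 < κ),
  ∃ (g : Cfg d → ℂ) (Λ : Finset (Site d)) (C' : ℝ), Measurable g ∧ (∀ V, ‖g V‖ ≤ C') ∧
    (∀ V W : Cfg d, (∀ x ∈ Λ, V x = W x) → g V = g W) ∧
    ∫⁻ V, ‖f V - g V‖ₑ ^ 2 ∂(PP d μ) ≤ ENNReal.ofReal κ

/-- module LOCAL: approximation of covariant families by local ones (uses CYL) -/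
def LocalStatement : Prop := ∀ (d : ℕ) (μ : Measure ℝ) [IsProbabilityMeasure μ]
  (A : Cfg d → Op d) (_ : Cov A) (κ : ℝ) (_ : 0 < κ),
  ∃ (B : Cfg d → Op d) (CB : ℝ) (F : Finset (Site d)), Cov B ∧ Loc B CB F ∧
    ∫⁻ V, ‖A V (del 0) - B V (del 0)‖ₑ ^ 2 ∂(PP d μ) ≤ ENNReal.ofReal κ

/-- module TRACE: the trace-Plancherel identity -/
def TraceStatement : Prop := ∀ (d : ℕ) (μ : Measure ℝ) [IsProbabilityMeasure μ]
  (D : Cfg d → Op d) (_ : Cov D) (x : Site d) (ε : ℝ) (_ : ε ≠ 0),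
  ∫⁻ V, (∫⁻ E : ℝ, ENNReal.ofReal |ε| * ‖D V (G V (zz ε E) (del x))‖ₑ ^ 2) ∂(PP d μ) =
    ENNReal.ofReal Real.pi * ∫⁻ V, ‖D V (del 0)‖ₑ ^ 2 ∂(PP d μ)

/-- module TIGHT: the Green functions are tight in energy, for every potential -/
def TightStatement : Prop := ∀ (d : ℕ) (V : Cfg d) (w : L2 d) (ε : ℝ) (_ : 0 < ε),
  ∫⁻ E, ENNReal.ofReal (Real.sqrt ‖⟪w, G V (zz ε E) w⟫_ℂ‖) ∂lam ≤
    ENNReal.ofReal (Real.sqrt 2 * Real.pi * ‖w‖)

/-- module CAUCHY: `L²` convergence of the bounded transforms as `ε → 0` -/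
def CauchyStatement : Prop := ∀ (d : ℕ) (μ : Measure ℝ) [IsProbabilityMeasure μ]
  (w : Cfg d → L2 d) (_ : StronglyMeasurable w) (C : ℝ) (_ : ∀ V, ‖w V‖ ≤ C),
  ∃ g₀ : Cfg d × ℝ → ℂ, Measurable g₀ ∧ ∀ δ : ℝ, 0 < δ →
    Tendsto (fun ε => (KK d μ) {p | δ ≤ ‖gw w ε p - g₀ p‖}) (𝓝[>] 0) (𝓝 0)

/-- module STEP: changing the potential at one site (uses LOCAL, TRACE, TIGHT) -/
def StepStatement : Prop := ∀ (d : ℕ) (μ : Measure ℝ) [IsProbabilityMeasure μ]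
  (A : Cfg d → Op d) (_ : Cov A) (x₀ x : Site d) (s : ℝ) (_ : s = 1 ∨ s = -1) (δ : ℝ)
  (_ : 0 < δ),
  Tendsto (fun ε => ((KK d μ).prod μ) {ω | δ ≤ dq A x₀ x (s * ε) ω}) (𝓝[>] 0) (𝓝 0)

/-- module SEQ: a common sequence -/
def SeqStatement : Prop := ∀ (α : Type) [MeasurableSpace α] (κ : Measure α) (ι : Type)
  [Countable ι] (q : ι → ℝ → α → ℝ)
  (_ : ∀ i δ, 0 < δ → Tendsto (fun ε => κ {ω | δ ≤ |q i ε ω|}) (𝓝[>] 0) (𝓝 0)),
  ∃ e : ℕ → ℝ, (∀ k, 0 < e k) ∧ Tendsto e atTop (𝓝 0) ∧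
    ∀ i, ∀ᵐ ω ∂κ, Tendsto (fun k => q i (e k) ω) atTop (𝓝 0)

/-- module MP: resampling at one site preserves the measure -/
def MPStatement : Prop := ∀ (d : ℕ) (μ : Measure ℝ) [IsProbabilityMeasure μ] (x₀ : Site d),
  MeasurePreserving (upd x₀) ((KK d μ).prod μ) (KK d μ)

/-- module NULL -/
def NullStatement : Prop := ∀ (d : ℕ) (μ : Measure ℝ) [IsProbabilityMeasure μ] (y : Site d)
  (S : Set (Cfg d × ℝ)) (_ : MeasurableSet S)
  (_ : ∀ᵐ ω ∂((KK d μ).prod μ), ω.1 ∈ S → upd y ω ∉ S), (KK d μ) S = 0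

/-- module ZERO: functions invariant under resampling are constant -/
def ZeroStatement : Prop := ∀ (d : ℕ) (μ : Measure ℝ) [IsProbabilityMeasure μ] (f : Cfg d → ℝ)
  (_ : Measurable f) (C : ℝ) (_ : ∀ V, |f V| ≤ C)
  (_ : ∀ y : Site d, ∀ᵐ p ∂((PP d μ).prod μ), f (Function.update p.1 y p.2) = f p.1),
  ∀ᵐ V ∂(PP d μ), f V = ∫ W, f W ∂(PP d μ)

/-- module GRAPH: connectivity of the Green function -/
def GraphStatement : Prop := ∀ (d : ℕ) (V : Cfg d) (E : ℝ) (g : Site d → Site d → ℂ)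
  (_ : ∀ x y, g x y = g y x)
  (_ : ∀ x y, lap (fun w => g w y) x + ((V x : ℂ) - E) * g x y = if x = y then 1 else 0)
  (B : Set (Site d)) (_ : B.Nonempty) (_ : ∀ y ∈ B, ∀ x ∉ B, g y x = 0), B = Set.univ

/-- `ψ ∈ ℓ²` has an absolutely continuous spectral measure for `H = Δ + V`, with density `ρ`:
`⟪ψ, (H - z)⁻¹ ψ⟫ = ∫ ρ(E) / (E - z) dE` for all non-real `z`. -/
def IsACVector (V : Cfg d) (ρ : ℝ → ℝ) (ψ : L2 d) : Prop :=
  Integrable ρ ∧ ∀ z : ℂ, z.im ≠ 0 → ∀ u : L2 d,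
    (∀ x, lap u x + ((V x : ℂ) - z) * u x = ψ x) →
      ⟪ψ, u⟫_ℂ = ∫ E : ℝ, (ρ E : ℂ) / ((E : ℂ) - z)

/-- `χ = c(H) ψ`, for `ψ` with spectral density `ρ` -/
def IsFunctionOfEnergy (V : Cfg d) (ρ : ℝ → ℝ) (c : ℝ → ℂ) (ψ χ : L2 d) : Prop :=
  (∀ z : ℂ, z.im ≠ 0 → ∀ u : L2 d, (∀ x, lap u x + ((V x : ℂ) - z) * u x = ψ x) →
    ⟪u, χ⟫_ℂ = ∫ E : ℝ, c E * (ρ E : ℂ) / ((E : ℂ) - conj z)) ∧
  ‖χ‖ ^ 2 = ∫ E : ℝ, ‖c E‖ ^ 2 * ρ E

/-- module AC: the conclusion for vectors with absolutely continuous spectral measure -/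
def ACStatement : Prop := ∀ (d : ℕ) (V : Cfg d) (A : Op d)
  (_ : ∀ z : ℂ, z.im ≠ 0 → ∀ f : L2 d, A (G V z f) = G V z (A f))
  (c : ℝ → ℂ) (_ : Measurable c) (C : ℝ) (_ : ∀ E, ‖c E‖ ≤ C)
  (e : ℕ → ℝ) (_ : ∀ k, 0 < e k) (_ : Tendsto e atTop (𝓝 0))
  (_ : ∀ x : Site d, ∀ᵐ E : ℝ, Tendsto (fun k => Real.sqrt (e k) *
    ‖A (G V (zz (e k) E) (del x)) - c E • G V (zz (e k) E) (del x)‖) atTop (𝓝 0))
  (ψ : L2 d) (ρ : ℝ → ℝ) (_ : IsACVector V ρ ψ), IsFunctionOfEnergy V ρ c ψ (A ψ)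

end Pool.Agent.QE
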