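import Pool.Agent.Helper54_QE.Defs

/-!
# Quantum ergodicity of eigenfunctions in boxes: definitions and module statements
-/

set_option autoImplicit false
set_option linter.unusedSectionVars false

open scoped InnerProductSpace ComplexConjugate Topology ENNReal
open MeasureTheory Filter

noncomputable section

namespace Pool.Agent.QE

open Pool.Agent.Anderson Pool.Agent.Helper54.Bal

variable {d : ℕ}

/-- the Cayley transform `U = (H - i)(H + i)⁻¹ = 1 - 2i (H + i)⁻¹`, a unitary operator -/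
def cay (V : Cfg d) : Op d := 1 - (2 * Complex.I) • G V (-Complex.I)

/-- its inverse `U* = 1 + 2i (H - i)⁻¹` -/
def cayS (V : Cfg d) : Op d := 1 + (2 * Complex.I) • G V Complex.I

/-- the time average `(N+1)⁻¹ ∑_{n ≤ N} U*ⁿ B Uⁿ` -/
def avg (V : Cfg d) (N : ℕ) (B : Op d) : Op d :=
  ((N : ℂ) + 1)⁻¹ • ∑ n ∈ Finset.range (N + 1), (cayS V) ^ n * B * (cay V) ^ n

/-- finite combinations of `1 / (E - w)` with non-real poles -/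
structure RF where
  n : ℕ
  a : Fin n → ℂ
  w : Fin n → ℂ
  hw : ∀ k, (w k).im ≠ 0

/-- the value at a real energy -/
def RF.ev (p : RF) (E : ℝ) : ℂ := ∑ k, p.a k / ((E : ℂ) - p.w k)

/-- the value at `H = Δ + V` -/
def RF.op (p : RF) (V : Cfg d) : Op d := ∑ k, p.a k • G V (p.w k)

/-- the box `[-L, L]^d` -/
def bx (d : ℕ) (L : ℕ) : Finset (Site d) :=
  Fintype.piFinset fun _ : Fin d => Finset.Icc (-(L : ℤ)) L

/-- the inner boundary of a finite set -/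
def bdry (Λ : Finset (Site d)) : Finset (Site d) :=
  open Classical in
  Λ.filter fun x => ∃ i : Fin d, x + Pi.single i 1 ∉ Λ ∨ x - Pi.single i 1 ∉ Λ

/-- `φ` vanishes outside the finite set `Λ` and `(Δ + V) φ = E φ` on `Λ`: an eigenvector of the
restriction of `Δ + V` to `Λ`, extended by zero -/
def IsBoxEigen (V : Cfg d) (Λ : Finset (Site d)) (E : ℝ) (φ : L2 d) : Prop :=
  (∀ x ∉ Λ, φ x = 0) ∧ ∀ x ∈ Λ, lap φ x + (V x : ℂ) * φ x = (E : ℂ) * φ x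

/-! ### module statements -/

/-- module ERG: the mean ergodic theorem for stationary sequences -/
def ErgStatement : Prop := ∀ (X : Type) [NormedAddCommGroup X] [InnerProductSpace ℂ X]
  (v : ℕ → X) (_ : ∀ (s : Finset ℕ) (l : ℕ → ℂ),
    ‖∑ n ∈ s, l n • v (n + 1)‖ = ‖∑ n ∈ s, l n • v n‖),
  CauchySeq fun N : ℕ => ((N : ℂ) + 1)⁻¹ • ∑ n ∈ Finset.range (N + 1), v n

/-- module ISO: the Heisenberg evolution is an isometry for the trace norm -/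
def IsoStatement : Prop := ∀ (d : ℕ) (μ : Measure ℝ) [IsProbabilityMeasure μ]
  (D : Cfg d → Op d) (_ : Cov D), Cov (fun V => cayS V * D V * cay V) ∧
    ∫⁻ V, ‖(cayS V * D V * cay V) (del 0)‖ₑ ^ 2 ∂(PP d μ) =
      ∫⁻ V, ‖D V (del 0)‖ₑ ^ 2 ∂(PP d μ)

/-- module RIGHT: right multiplication by a function of `H` is bounded for the trace norm -/
def RightStatement : Prop := ∀ (d : ℕ) (μ : Measure ℝ) [IsProbabilityMeasure μ] (p : RF),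
  ∃ K : ℝ, 0 ≤ K ∧ ∀ D : Cfg d → Op d, Cov D →
    ∫⁻ V, ‖D V (p.op V (del 0))‖ₑ ^ 2 ∂(PP d μ) ≤
      ENNReal.ofReal K * ∫⁻ V, ‖D V (del 0)‖ₑ ^ 2 ∂(PP d μ)

/-- module LIM: completeness for the trace norm -/
def LimStatement : Prop := ∀ (d : ℕ) (μ : Measure ℝ) [IsProbabilityMeasure μ]
  (D : ℕ → Cfg d → Op d) (_ : ∀ n, Cov (D n)) (C : ℝ) (_ : ∀ n V, ‖D n V‖ ≤ C)
  (_ : ∀ κ : ℝ, 0 < κ → ∃ N₀ : ℕ, ∀ n ≥ N₀, ∀ m ≥ N₀,
    ∫⁻ V, ‖D n V (del 0) - D m V (del 0)‖ₑ ^ 2 ∂(PP d μ) ≤ ENNReal.ofReal κ),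
  ∃ (A : Cfg d → Op d) (φ : ℕ → ℕ), StrictMono φ ∧ Cov A ∧ (∀ V, ‖A V‖ ≤ C) ∧
    (∀ V, A V = 0 ∨ ∀ f, Tendsto (fun k => D (φ k) V f) atTop (𝓝 (A V f))) ∧
    Tendsto (fun n => ∫⁻ V, ‖D n V (del 0) - A V (del 0)‖ₑ ^ 2 ∂(PP d μ)) atTop (𝓝 0)

/-- module CONS: the conserved part of a covariant observable (uses ERG, ISO, LIM) -/
def ConsStatement : Prop := ∀ (d : ℕ) (μ : Measure ℝ) [IsProbabilityMeasure μ]
  (B : Cfg d → Op d) (_ : Cov B) (C : ℝ) (_ : ∀ V, ‖B V‖ ≤ C),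
  ∃ A : Cfg d → Op d, Cov A ∧ (∀ V, ‖A V‖ ≤ C) ∧
    (∀ (V : Cfg d) (z : ℂ), z.im ≠ 0 → ∀ f : L2 d, A V (G V z f) = G V z (A V f)) ∧
    Tendsto (fun N => ∫⁻ V, ‖avg V N (B V) (del 0) - A V (del 0)‖ₑ ^ 2 ∂(PP d μ)) atTop (𝓝 0)

/-- module SW: density of rational functions -/
def SWStatement : Prop := ∀ (h : ℝ → ℂ) (_ : Continuous h) (_ : HasCompactSupport h) (δ : ℝ)
  (_ : 0 < δ), ∃ p : RF, ∀ E, ‖h E - p.ev E‖ ≤ δ

/-- module DENS: density of continuous functions -/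
def DensStatement : Prop := ∀ (ν : Measure ℝ) [IsFiniteMeasure ν] (c : ℝ → ℂ)
  (_ : Measurable c) (C : ℝ) (_ : 0 ≤ C) (_ : ∀ E, ‖c E‖ ≤ C) (δ : ℝ) (_ : 0 < δ),
  ∃ c' : ℝ → ℂ, Continuous c' ∧ HasCompactSupport c' ∧ (∀ E, ‖c' E‖ ≤ C) ∧
    ∫⁻ E, ‖c E - c' E‖ₑ ^ 2 ∂ν ≤ ENNReal.ofReal δ

/-- module BOX: the boundary of a box is small -/
def BoxStatement : Prop := ∀ d : ℕ,
  Tendsto (fun L : ℕ => ((bdry (bx d L)).card : ℝ) / ((bx d L).card : ℝ)) atTop (𝓝 0)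

/-- module FV: the finite volume inequality, for every potential -/
def FVStatement : Prop := ∀ (d : ℕ) (C : ℝ) (N : ℕ) (p q : RF) (θ : ℝ) (_ : 0 < θ),
  ∃ (η K : ℝ), 0 < η ∧ ∀ (V : Cfg d) (Λ : Finset (Site d)) (B : Op d) (_ : ‖B‖ ≤ C) (n : ℕ)
    (φ : Fin n → L2 d) (E : Fin n → ℝ) (_ : Orthonormal ℂ φ)
    (_ : ∀ j, IsBoxEigen V Λ (E j) (φ j)),
    ∑ j, ∑ k, (if |E j - E k| ≤ η then
      ‖p.ev (E j)‖ ^ 2 * ‖⟪φ k, B (φ j)⟫_ℂ - (if j = k then q.ev (E j) else 0)‖ ^ 2 else 0) ≤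
      (1 + θ) * ∑ x ∈ Λ, ‖(avg V N B - q.op V) (p.op V (del x))‖ ^ 2 +
        K * ((bdry Λ).card : ℝ)

/-- module AC2: the energy resolution of a conserved observable -/
def AC2Statement : Prop := ∀ (d : ℕ) (V : Cfg d) (A : Op d)
  (_ : ∀ z : ℂ, z.im ≠ 0 → ∀ f : L2 d, A (G V z f) = G V z (A f))
  (C : ℝ) (_ : ‖A‖ ≤ C) (c : ℝ → ℂ) (_ : Measurable c) (_ : ∀ E, ‖c E‖ ≤ C)
  (e : ℕ → ℝ) (_ : ∀ k, 0 < e k) (_ : Tendsto e atTop (𝓝 0))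
  (_ : ∀ᵐ E : ℝ, Tendsto (fun k => Real.sqrt (e k) *
    ‖A (G V (zz (e k) E) (del 0)) - c E • G V (zz (e k) E) (del 0)‖) atTop (𝓝 0))
  (g₀ : ℝ → ℝ) (_ : Measurable g₀)
  (_ : ∀ᵐ E : ℝ, Tendsto (fun k => (G V (zz (e k) E) (del 0) 0).im) atTop (𝓝 (g₀ E)))
  (m : Measure ℝ) (_ : IsFiniteMeasure m)
  (_ : ∀ z : ℂ, z.im ≠ 0 → G V z (del 0) 0 = ∫ E : ℝ, 1 / ((E : ℂ) - z) ∂m)
  (p q : RF) (Q : ℝ) (_ : ∀ E, ‖q.ev E‖ ≤ Q),
  ‖A (p.op V (del 0)) - q.op V (p.op V (del 0))‖ₑ ^ 2 ≤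
    (∫⁻ E : ℝ, ENNReal.ofReal (‖p.ev E‖ ^ 2 * ‖c E - q.ev E‖ ^ 2 * (g₀ E / Real.pi))) +
    ENNReal.ofReal ((C + Q) ^ 2) *
      ∫⁻ E, ENNReal.ofReal (‖p.ev E‖ ^ 2) ∂(m.singularPart volume)

/-- module SPEC: existence of the spectral measure of a delta function -/
def SpecStatement : Prop := ∀ (d : ℕ) (V : Cfg d) (x : Site d),
  ∃ m : Measure ℝ, IsFiniteMeasure m ∧
    ∀ z : ℂ, z.im ≠ 0 → G V z (del x) x = ∫ E : ℝ, 1 / ((E : ℂ) - z) ∂m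

end Pool.Agent.QE
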