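import Pool.Agent.Helper54_QE.Defs2

/-!
# Module ERG: the mean ergodic theorem for stationary sequences
-/

set_option autoImplicit false
set_option linter.unusedSectionVars false

open scoped InnerProductSpace ComplexConjugate Topology ENNReal
open MeasureTheory Filter

noncomputable section

namespace Pool.Agent.QE

namespace Erg

variable {E X : Type*} [AddCommGroup E] [Module ℂ E] [NormedAddCommGroup X]
  [InnerProductSpace ℂ X]

/-- averages -/
def Av (S : E →ₗ[ℂ] E) (N : ℕ) (l : E) : E :=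
  ((N : ℂ) + 1)⁻¹ • ∑ n ∈ Finset.range (N + 1), (S ^ n) l

theorem norm_cast_add (N : ℕ) : ‖((N : ℂ) + 1)⁻¹‖ = ((N : ℝ) + 1)⁻¹ := by
  have : ((N : ℂ) + 1) = (((N : ℝ) + 1 : ℝ) : ℂ) := by push_cast; ring
  rw [norm_inv, this, Complex.norm_real, Real.norm_of_nonneg (by positivity)]

theorem cast_ne (N : ℕ) : ((N : ℂ) + 1) ≠ 0 := by
  exact_mod_cast Nat.succ_ne_zero N

variable {T : E →ₗ[ℂ] X} {S : E →ₗ[ℂ] E} (h : ∀ l, ‖T (S l)‖ = ‖T l‖)

include h in
theorem norm_pow (n : ℕ) (l : E) : ‖T ((S ^ n) l)‖ = ‖T l‖ := by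
  induction n with
  | zero => simp
  | succ n ih =>
    rw [pow_succ', Module.End.mul_apply, h, ih]

include h in
theorem norm_Av_le (N : ℕ) (l : E) : ‖T (Av S N l)‖ ≤ ‖T l‖ := by
  unfold Av
  rw [map_smul, map_sum, norm_smul, norm_cast_add]
  have h1 : ‖∑ n ∈ Finset.range (N + 1), T ((S ^ n) l)‖ ≤
      ∑ n ∈ Finset.range (N + 1), ‖T l‖ :=
    norm_sum_le_of_le _ fun n _ => (norm_pow h n l).le
  rw [Finset.sum_const, Finset.card_range, nsmul_eq_mul, Nat.cast_add, Nat.cast_one] at h1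
  have h3 : (0:ℝ) < (N : ℝ) + 1 := by positivity
  rw [inv_mul_le_iff₀ h3]
  exact h1

theorem Av_add (N : ℕ) (l l' : E) : Av S N (l + l') = Av S N l + Av S N l' := by
  unfold Av
  rw [← smul_add, ← Finset.sum_add_distrib]
  simp only [map_add]

theorem Av_smul (N : ℕ) (c : ℂ) (l : E) : Av S N (c • l) = c • Av S N l := by
  unfold Av
  simp only [map_smul]
  rw [← Finset.smul_sum, smul_comm]

theorem Av_sum (N : ℕ) {ι : Type*} (s : Finset ι) (f : ι → E) :
    Av S N (∑ i ∈ s, f i) = ∑ i ∈ s, Av S N (f i) := by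
  classical
  induction s using Finset.induction_on with
  | empty => simp [Av]
  | insert a s ha ih => rw [Finset.sum_insert ha, Finset.sum_insert ha, Av_add, ih]

theorem Av_shift (N : ℕ) (l : E) :
    Av S N (S l) - Av S N l = ((N : ℂ) + 1)⁻¹ • ((S ^ (N + 1)) l - l) := by
  unfold Av
  rw [← smul_sub, ← Finset.sum_sub_distrib]
  congr 1
  have e : ∀ n, (S ^ n) (S l) - (S ^ n) l = (S ^ (n + 1)) l - (S ^ n) l := by
    intro n
    rw [pow_succ, Module.End.mul_apply]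
  simp only [e]
  rw [Finset.sum_range_sub (fun n => (S ^ n) l)]
  simp

/-- the set of vectors with the same asymptotic averages -/
def CC (T : E →ₗ[ℂ] X) (S : E →ₗ[ℂ] E) (l₀ : E) : Set E :=
  {l | Tendsto (fun N => T (Av S N l) - T (Av S N l₀)) atTop (𝓝 0)}

theorem mem_CC_self (l₀ : E) : l₀ ∈ CC T S l₀ := by
  unfold CC
  simp

include h in
theorem shift_mem {l₀ l : E} (hl : l ∈ CC T S l₀) : S l ∈ CC T S l₀ := by
  have h1 : Tendsto (fun N => T (Av S N (S l)) - T (Av S N l)) atTop (𝓝 0) := by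
    have h2 : Tendsto (fun N : ℕ => ((N : ℝ) + 1)⁻¹ * (2 * ‖T l‖)) atTop (𝓝 0) := by
      have h3 : Tendsto (fun N : ℕ => ((N : ℝ) + 1)⁻¹) atTop (𝓝 0) :=
        tendsto_inv_atTop_zero.comp (tendsto_atTop_add_const_right _ _ tendsto_natCast_atTop_atTop)
      have := h3.mul_const (2 * ‖T l‖)
      rwa [zero_mul] at this
    refine squeeze_zero_norm (fun N => ?_) h2
    rw [← map_sub, Av_shift, map_smul, map_sub, norm_smul, norm_cast_add]
    refine mul_le_mul_of_nonneg_left ?_ (by positivity)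
    refine (norm_sub_le _ _).trans ?_
    rw [norm_pow h]
    linarith
  have h2 := h1.add hl
  rw [add_zero] at h2
  refine h2.congr fun N => ?_
  abel

include h in
theorem pow_mem {l₀ l : E} (hl : l ∈ CC T S l₀) (n : ℕ) : (S ^ n) l ∈ CC T S l₀ := by
  induction n with
  | zero => simpa using hl
  | succ n ih =>
    rw [pow_succ', Module.End.mul_apply]
    exact shift_mem h ih

theorem avg_mem {l₀ : E} {M : ℕ} {f : ℕ → E} (hf : ∀ n, f n ∈ CC T S l₀) :
    ((M : ℂ) + 1)⁻¹ • ∑ n ∈ Finset.range (M + 1), f n ∈ CC T S l₀ := by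
  have h1 : Tendsto (fun N => ((M : ℂ) + 1)⁻¹ •
      ∑ n ∈ Finset.range (M + 1), (T (Av S N (f n)) - T (Av S N l₀))) atTop
      (𝓝 (((M : ℂ) + 1)⁻¹ • ∑ n ∈ Finset.range (M + 1), (0 : X))) :=
    (tendsto_finsetSum _ fun n _ => hf n).const_smul _
  rw [Finset.sum_const_zero, smul_zero] at h1
  refine h1.congr fun N => ?_
  rw [Finset.sum_sub_distrib, Finset.sum_const, Finset.card_range, Av_smul, Av_sum, map_smul,
    map_sum, smul_sub]
  congr 1
  rw [← Nat.cast_smul_eq_nsmul ℂ, smul_smul]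
  push_cast
  rw [inv_mul_cancel₀ (cast_ne M), one_smul]

theorem half_mem {l₀ l l' : E} (hl : l ∈ CC T S l₀) (hl' : l' ∈ CC T S l₀) :
    (1 / 2 : ℂ) • (l + l') ∈ CC T S l₀ := by
  have h1 : Tendsto (fun N => (1 / 2 : ℂ) • ((T (Av S N l) - T (Av S N l₀)) +
      (T (Av S N l') - T (Av S N l₀)))) atTop (𝓝 ((1 / 2 : ℂ) • ((0 : X) + 0))) :=
    (Tendsto.add hl hl').const_smul _
  rw [add_zero, smul_zero] at h1
  refine h1.congr fun N => ?_
  rw [Av_smul, Av_add, map_smul, map_add]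
  have e : T (Av S N l₀) = (1 / 2 : ℂ) • (T (Av S N l₀) + T (Av S N l₀)) := by
    rw [← two_smul ℂ, smul_smul]; norm_num
  conv_rhs => rw [e]
  rw [← smul_sub]
  congr 1
  abel

include h in
theorem abs_erg (l₀ : E) : CauchySeq fun N => T (Av S N l₀) := by
  set A : Set ℝ := (fun l => ‖T l‖) '' CC T S l₀ with hA
  have hne : A.Nonempty := ⟨_, ⟨l₀, mem_CC_self l₀, rfl⟩⟩
  have hbd : BddBelow A := ⟨0, by rintro _ ⟨l, -, rfl⟩; exact norm_nonneg _⟩
  set m : ℝ := sInf A with hm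
  have hm0 : 0 ≤ m := le_csInf hne (by rintro _ ⟨l, -, rfl⟩; exact norm_nonneg _)
  have hmle : ∀ l ∈ CC T S l₀, m ≤ ‖T l‖ := fun l hl => csInf_le hbd ⟨l, hl, rfl⟩
  rw [Metric.cauchySeq_iff']
  intro ε hε
  set δ : ℝ := (ε / 4) ^ 2 / 4 with hδ
  have hδ0 : 0 < δ := by positivity
  have hlt : m < Real.sqrt (m ^ 2 + δ) := by
    apply Real.lt_sqrt_of_sq_lt
    linarith
  obtain ⟨_, ⟨l, hl, rfl⟩, hl2⟩ := exists_lt_of_csInf_lt hne hlt
  have hl3 : ‖T l‖ ^ 2 ≤ m ^ 2 + δ := by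
    have := Real.lt_sqrt (norm_nonneg (T l)) |>.1 hl2
    exact this.le
  have hclose : ∀ N M, ‖T (Av S N l) - T (Av S M l)‖ ≤ ε / 4 := by
    intro N M
    have hN : Av S N l ∈ CC T S l₀ := avg_mem fun n => pow_mem h hl n
    have hM : Av S M l ∈ CC T S l₀ := avg_mem fun n => pow_mem h hl n
    have h1 := hmle _ (half_mem hN hM)
    rw [map_smul, map_add, norm_smul] at h1
    have e : ‖(1 / 2 : ℂ)‖ = 1 / 2 := by norm_num
    rw [e] at h1
    have h2 := norm_Av_le h N l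
    have h3 := norm_Av_le h M l
    have hp := parallelogram_law_with_norm ℂ (T (Av S N l)) (T (Av S M l))
    have h4 : 2 * m ≤ ‖T (Av S N l) + T (Av S M l)‖ := by linarith
    have h5 : ‖T (Av S N l)‖ * ‖T (Av S N l)‖ ≤ m ^ 2 + δ := by
      have := norm_nonneg (T (Av S N l))
      nlinarith
    have h6 : ‖T (Av S M l)‖ * ‖T (Av S M l)‖ ≤ m ^ 2 + δ := by
      have := norm_nonneg (T (Av S M l))
      nlinarith
    have h7 : ‖T (Av S N l) - T (Av S M l)‖ ^ 2 ≤ (ε / 4) ^ 2 := by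
      have h8 : (2 * m) * (2 * m) ≤ ‖T (Av S N l) + T (Av S M l)‖ *
          ‖T (Av S N l) + T (Av S M l)‖ := by
        apply mul_self_le_mul_self (by positivity) h4
      nlinarith
    exact (pow_le_pow_iff_left₀ (norm_nonneg _) (by positivity) two_ne_zero).1 h7
  have hl4 : Tendsto (fun N => T (Av S N l) - T (Av S N l₀)) atTop (𝓝 0) := hl
  rw [Metric.tendsto_atTop] at hl4
  obtain ⟨N₀, hN₀⟩ := hl4 (ε / 4) (by positivity)
  refine ⟨N₀, fun n hn => ?_⟩
  have h1 := hN₀ n hn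
  have h2 := hN₀ N₀ le_rfl
  have h3 := hclose n N₀
  rw [dist_zero_right] at h1 h2
  rw [dist_eq_norm]
  have e : T (Av S n l₀) - T (Av S N₀ l₀) = -(T (Av S n l) - T (Av S n l₀)) +
      (T (Av S n l) - T (Av S N₀ l)) + (T (Av S N₀ l) - T (Av S N₀ l₀)) := by abel
  rw [e]
  have h4 := norm_add_le (-(T (Av S n l) - T (Av S n l₀)) + (T (Av S n l) - T (Av S N₀ l)))
    (T (Av S N₀ l) - T (Av S N₀ l₀))
  have h5 := norm_add_le (-(T (Av S n l) - T (Av S n l₀))) (T (Av S n l) - T (Av S N₀ l))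
  rw [norm_neg] at h5
  linarith

end Erg

open Erg in
theorem erg : ErgStatement := by
  intro X _ _ v hv
  set T : (ℕ →₀ ℂ) →ₗ[ℂ] X := Finsupp.linearCombination ℂ v with hT
  set S : (ℕ →₀ ℂ) →ₗ[ℂ] (ℕ →₀ ℂ) := Finsupp.lmapDomain ℂ ℂ (fun n => n + 1) with hS
  have h : ∀ l, ‖T (S l)‖ = ‖T l‖ := by
    intro l
    have e1 : T (S l) = ∑ n ∈ l.support, l n • v (n + 1) := by
      rw [hT, hS, Finsupp.lmapDomain_apply, Finsupp.linearCombination_mapDomain,
        Finsupp.linearCombination_apply, Finsupp.sum]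
      rfl
    have e2 : T l = ∑ n ∈ l.support, l n • v n := by
      rw [hT, Finsupp.linearCombination_apply, Finsupp.sum]
    rw [e1, e2]
    exact hv _ _
  have hpow : ∀ n, (S ^ n) (Finsupp.single 0 1) = Finsupp.single n 1 := by
    intro n
    induction n with
    | zero => simp
    | succ n ih =>
      rw [pow_succ', Module.End.mul_apply, ih, hS, Finsupp.lmapDomain_apply,
        Finsupp.mapDomain_single]
  have h1 := abs_erg h (Finsupp.single 0 1)
  have e : (fun N => T (Av S N (Finsupp.single 0 1))) =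
      fun N : ℕ => ((N : ℂ) + 1)⁻¹ • ∑ n ∈ Finset.range (N + 1), v n := by
    funext N
    unfold Av
    rw [map_smul, map_sum]
    congr 1
    refine Finset.sum_congr rfl fun n _ => ?_
    rw [hpow, hT, Finsupp.linearCombination_single, one_smul]
  rw [e] at h1
  exact h1

end Pool.Agent.QE
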