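import Pool.Agent.Helper54_QE.Lims

/-!
# Conserved covariant observables are functions of the energy
-/

set_option autoImplicit false
set_option linter.unusedSectionVars false

open scoped InnerProductSpace ComplexConjugate Topology ENNReal
open MeasureTheory Filter

noncomputable section

namespace Pool.Agent.QE

open Pool.Agent.Anderson Pool.Agent.Helper54.Bal

variable {d : ℕ} {ι : Type}

/-- the value of the observable at the origin, cut off -/
def ff (C : ℝ) (gg : Site d → Site d → Cfg d × ℝ → ℂ) (hh : ι → Site d → Cfg d × ℝ → ℂ)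
    (i : ι) (p : Cfg d × ℝ) : ℝ :=
  if 0 < (gg 0 0 p).im then
    max (-C) (min C (av (fun x y => gg x y p) (fun x => hh i x p) 0)) else 0

theorem abs_ff_le {C : ℝ} (hC : 0 ≤ C) (gg : Site d → Site d → Cfg d × ℝ → ℂ)
    (hh : ι → Site d → Cfg d × ℝ → ℂ) (i : ι) (p : Cfg d × ℝ) : |ff C gg hh i p| ≤ C := by
  unfold ff
  split_ifs
  · rw [abs_le]
    exact ⟨le_max_left _ _, max_le (by linarith) (min_le_left _ _)⟩
  · rwa [abs_zero]

/-- reordering of the variables -/
theorem ae_reorder {μ : Measure ℝ} [IsProbabilityMeasure μ] {P : (Cfg d × ℝ) × ℝ → Prop}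
    (h : ∀ᵐ ω ∂((KK d μ).prod μ), P ω) :
    ∀ᵐ E ∂lam, ∀ᵐ q ∂((PP d μ).prod μ), P ((q.1, E), q.2) := by
  have hmp : MeasurePreserving (fun ω : ℝ × (Cfg d × ℝ) => (((ω.2.1, ω.1), ω.2.2) :
      (Cfg d × ℝ) × ℝ)) (lam.prod ((PP d μ).prod μ)) ((KK d μ).prod μ) := by
    have h1 : MeasurePreserving (MeasurableEquiv.prodAssoc.symm : ℝ × (Cfg d × ℝ) ≃ᵐ _)
        (lam.prod ((PP d μ).prod μ)) ((lam.prod (PP d μ)).prod μ) :=
      (measurePreserving_prodAssoc lam (PP d μ) μ).symm
    have h2 : MeasurePreserving (Prod.map Prod.swap id : (ℝ × Cfg d) × ℝ → _)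
        ((lam.prod (PP d μ)).prod μ) ((KK d μ).prod μ) :=
      (Measure.measurePreserving_swap).prod (MeasurePreserving.id μ)
    exact h2.comp h1
  exact Measure.ae_ae_of_ae_prod (hmp.quasiMeasurePreserving.ae h)

section dat

variable {A : ι → Cfg d → Op d} (hA : ∀ i, Obs (A i)) {μ : Measure ℝ} [IsProbabilityMeasure μ]
  {e : ℕ → ℝ} {gg : Site d → Site d → Cfg d × ℝ → ℂ} {hh : ι → Site d → Cfg d × ℝ → ℂ}
  (D : Dat A μ e gg hh)

include D in
theorem measurable_ff (C : ℝ) (i : ι) : Measurable (ff C gg hh i) := by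
  unfold ff
  refine Measurable.ite ?_ ?_ measurable_const
  · exact measurableSet_lt measurable_const (Complex.measurable_im.comp (D.mg 0 0))
  · unfold av
    exact measurable_const.max (measurable_const.min
      ((Complex.measurable_im.comp (D.mh i 0)).div (Complex.measurable_im.comp (D.mg 0 0))))

include hA D

/-- invariance of the value under resampling -/
theorem ff_upd [Countable ι] (hMP : MPStatement) (hNull : NullStatement)
    (hGraph : GraphStatement) (hna : ∀ a : ℝ, μ {a} = 0) (C : ℝ) :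
    ∀ᵐ ω ∂((KK d μ).prod μ), ∀ i y, ff C gg hh i (upd y ω) = ff C gg hh i ω.1 := by
  have hall := all_pos_ae hA D hMP hNull hGraph hna
  rw [ae_all_iff]; intro i
  rw [ae_all_iff]; intro y
  filter_upwards [ae_fst D.gl, ae_upd hMP y D.gl, ae_fst D.al, ae_upd hMP y D.al, D.dl,
    ae_fst hall, ae_upd hMP y hall] with ω h1 h2 h3 h4 h5 h6 h7
  have h2' := h2
  have h4' := h4 i
  have hV : (upd y ω).1 = Function.update ω.1.1 y ω.2 := rfl
  have hE : (upd y ω).2 = ω.1.2 := rfl
  rw [hV, hE] at h2' h4'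
  have hiff : 0 < (gg y y (upd y ω)).im ↔ 0 < (gg y y ω.1).im := im_pos_iff D.pos h1 h2'
  have hiff0 : 0 < (gg 0 0 (upd y ω)).im ↔ 0 < (gg 0 0 ω.1).im := by
    constructor
    · intro k
      exact (h6 y (hiff.1 (h7 0 k y).1) 0).1
    · intro k
      exact (h7 y (hiff.2 (h6 0 k y).1) 0).1
  unfold ff
  by_cases hp : 0 < (gg 0 0 ω.1).im
  · rw [if_pos hp, if_pos (hiff0.2 hp)]
    have hpy : 0 < (gg y y ω.1).im := (h6 0 hp y).1
    have e1 := (h6 y hpy 0).2 i
    have e2 := (h7 y (hiff.2 hpy) 0).2 i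
    have e3 := value_eq (A := A i ω.1.1) (A' := A i (Function.update ω.1.1 y ω.2)) D.pos h1 h2'
      ((hA i).sa _) ((hA i).comm _) ((hA i).sa _) ((hA i).comm _) (h3 i) h4' hpy
      ((h5 i y y).1.congr fun k => by unfold dq; rw [abs_of_pos (D.pos k)])
    rw [e1, e2, e3]
  · rw [if_neg hp, if_neg (fun h => hp (hiff0.1 h))]

/-- the local value of the observable is deterministic -/
theorem ff_const [Countable ι] (hMP : MPStatement) (hNull : NullStatement)
    (hGraph : GraphStatement) (hZero : ZeroStatement) (hna : ∀ a : ℝ, μ {a} = 0) {C : ℝ}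
    (hC : 0 ≤ C) :
    ∀ᵐ V ∂(PP d μ), ∀ᵐ E ∂lam, ∀ i,
      ff C gg hh i (V, E) = ∫ W, ff C gg hh i (W, E) ∂(PP d μ) := by
  have hcount : ∀ i, ∀ᵐ V ∂(PP d μ), ∀ᵐ E ∂lam,
      ff C gg hh i (V, E) = ∫ W, ff C gg hh i (W, E) ∂(PP d μ) := by
    intro i
    have hm := measurable_ff D C i
    have hmc : Measurable fun E : ℝ => ∫ W, ff C gg hh i (W, E) ∂(PP d μ) := by
      have h1 : StronglyMeasurable fun E : ℝ => ∫ W, ff C gg hh i (W, E) ∂(PP d μ) :=
        StronglyMeasurable.integral_prod_left' (f := ff C gg hh i) hm.stronglyMeasurable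
      exact h1.measurable
    have h1 := ae_reorder (ff_upd hA D hMP hNull hGraph hna C)
    have h2 : ∀ᵐ E ∂lam, ∀ᵐ V ∂(PP d μ),
        ff C gg hh i (V, E) = ∫ W, ff C gg hh i (W, E) ∂(PP d μ) := by
      filter_upwards [h1] with E hE
      refine hZero d μ (fun V => ff C gg hh i (V, E)) (hm.comp measurable_prodMk_right) C
        (fun V => abs_ff_le hC _ _ _ _) fun y => ?_
      filter_upwards [hE] with q hq
      exact hq i y
    refine (Measure.ae_ae_comm ?_).2 h2
    exact measurableSet_eq_fun hm (hmc.comp measurable_snd)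
  filter_upwards [ae_all_iff.2 hcount] with V hV
  exact ae_all_iff.2 hV

/-- the residuals at the deterministic value vanish asymptotically -/
theorem mc_ae [Countable ι] (hMP : MPStatement) (hNull : NullStatement)
    (hGraph : GraphStatement) (hna : ∀ a : ℝ, μ {a} = 0) {C : ℝ} (hC : ∀ i V, ‖A i V‖ ≤ C) :
    ∀ᵐ p ∂(KK d μ), ∀ i x, Tendsto (fun k => Real.sqrt (e k) *
      ‖A i p.1 (G p.1 (zz (e k) p.2) (del x)) -
        (ff C gg hh i p : ℂ) • G p.1 (zz (e k) p.2) (del x)‖) atTop (𝓝 0) := by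
  filter_upwards [D.gl, D.al, par_ae hA D hMP hna, all_pos_ae hA D hMP hNull hGraph hna]
    with p h1 h2 h3 h4
  intro i x
  have hn := GLim.norm D.pos h1 x
  rcases (GLim.im_nonneg D.pos h1 x).eq_or_lt with hx | hx
  · rw [← hx, Real.sqrt_zero] at hn
    have h5 : Tendsto (fun k => (‖A i p.1‖ + ‖(ff C gg hh i p : ℂ)‖) *
        (Real.sqrt (e k) * ‖G p.1 (zz (e k) p.2) (del x)‖)) atTop (𝓝 0) := by
      have := hn.const_mul (‖A i p.1‖ + ‖(ff C gg hh i p : ℂ)‖)
      rwa [mul_zero] at this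
    refine squeeze_zero (fun k => by positivity) (fun k => ?_) h5
    have h6 := norm_sub_le (A i p.1 (G p.1 (zz (e k) p.2) (del x)))
      ((ff C gg hh i p : ℂ) • G p.1 (zz (e k) p.2) (del x))
    rw [norm_smul] at h6
    have h7 := (A i p.1).le_opNorm (G p.1 (zz (e k) p.2) (del x))
    calc _ ≤ Real.sqrt (e k) * (‖A i p.1‖ * ‖G p.1 (zz (e k) p.2) (del x)‖ +
          ‖(ff C gg hh i p : ℂ)‖ * ‖G p.1 (zz (e k) p.2) (del x)‖) :=
          mul_le_mul_of_nonneg_left (by linarith) (Real.sqrt_nonneg _)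
      _ = _ := by ring
  · have h0 := (h4 x hx 0).1
    have ev := (h4 x hx 0).2 i
    have hval : ff C gg hh i p = av (fun x y => gg x y p) (fun x => hh i x p) x := by
      unfold ff
      rw [if_pos h0, ev]
      have hlim := tendsto_aa h1 (h2 i) hx
      have hb : |av (fun x y => gg x y p) (fun x => hh i x p) x| ≤ C := by
        refine le_of_tendsto hlim.abs (Eventually.of_forall fun k => ?_)
        exact (abs_aa_le ((hA i).sa _) ((hA i).comm _) (zk_im D.pos k).ne' x).trans (hC i p.1)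
      rw [abs_le] at hb
      rw [min_eq_right hb.2, max_eq_right hb.1]
    have hlim := tendsto_aa h1 (h2 i) hx
    have h5 : Tendsto (fun k => |aa (A i p.1) p.1 (zz (e k) p.2) x - ff C gg hh i p| *
        (Real.sqrt (e k) * ‖G p.1 (zz (e k) p.2) (del x)‖) +
        Real.sqrt (e k) * ‖rr (A i p.1) p.1 (zz (e k) p.2) x‖) atTop
        (𝓝 (|ff C gg hh i p - ff C gg hh i p| * Real.sqrt (gg x x p).im + 0)) := by
      refine (Tendsto.mul ?_ hn).add (h3 i x)
      refine Tendsto.abs (Tendsto.sub_const ?_ _)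
      rw [hval]; exact hlim
    rw [sub_self, abs_zero, zero_mul, add_zero] at h5
    refine squeeze_zero (fun k => by positivity) (fun k => ?_) h5
    have e1 : A i p.1 (G p.1 (zz (e k) p.2) (del x)) -
        (ff C gg hh i p : ℂ) • G p.1 (zz (e k) p.2) (del x) =
        ((aa (A i p.1) p.1 (zz (e k) p.2) x - ff C gg hh i p : ℝ) : ℂ) •
          G p.1 (zz (e k) p.2) (del x) + rr (A i p.1) p.1 (zz (e k) p.2) x := by
      rw [A_G_del, Complex.ofReal_sub, sub_smul]; abel
    rw [e1]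
    refine (mul_le_mul_of_nonneg_left (norm_add_le _ _) (Real.sqrt_nonneg _)).trans ?_
    rw [norm_smul, Complex.norm_real, Real.norm_eq_abs]
    exact le_of_eq (by ring)

end dat

/-- the main theorem for countable families of symmetric observables -/
theorem mc [Countable ι] {A : ι → Cfg d → Op d} (hA : ∀ i, Obs (A i))
    {μ : Measure ℝ} [IsProbabilityMeasure μ] (hna : ∀ a : ℝ, μ {a} = 0)
    {C : ℝ} (hC0 : 0 ≤ C) (hC : ∀ i V, ‖A i V‖ ≤ C)
    (hStep : StepStatement) (hCauchy : CauchyStatement) (hTight : TightStatement)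
    (hSeq : SeqStatement) (hMP : MPStatement) (hNull : NullStatement)
    (hGraph : GraphStatement) (hZero : ZeroStatement) :
    ∃ (e : ℕ → ℝ) (c : ι → ℝ → ℝ) (g₀ : Cfg d × ℝ → ℝ), (∀ k, 0 < e k) ∧
      Tendsto e atTop (𝓝 0) ∧ (∀ i, Measurable (c i)) ∧ (∀ i E, |c i E| ≤ C) ∧
      (Measurable g₀ ∧ ∀ᵐ p ∂(KK d μ), Tendsto (fun k => (G p.1 (zz (e k) p.2) (del 0) 0).im)
        atTop (𝓝 (g₀ p))) ∧
      ∀ᵐ V ∂(PP d μ), ∀ i x, ∀ᵐ E : ℝ, Tendsto (fun k => Real.sqrt (e k) *
        ‖A i V (G V (zz (e k) E) (del x)) - (c i E : ℂ) • G V (zz (e k) E) (del x)‖) atTop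
          (𝓝 0) := by
  obtain ⟨e, gg, hh, D⟩ := exists_dat hA hStep hCauchy hTight hSeq μ
  refine ⟨e, fun i E => ∫ W, ff C gg hh i (W, E) ∂(PP d μ), fun p => (gg 0 0 p).im, D.pos,
    D.zero, fun i => ?_, fun i E => ?_, ⟨Complex.measurable_im.comp (D.mg 0 0), ?_⟩, ?_⟩
  · have h1 : StronglyMeasurable fun E : ℝ => ∫ W, ff C gg hh i (W, E) ∂(PP d μ) :=
      StronglyMeasurable.integral_prod_left' (f := ff C gg hh i)
        (measurable_ff D C i).stronglyMeasurable
    exact h1.measurable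
  · have h1 := norm_integral_le_of_norm_le_const (μ := PP d μ) (C := C)
      (f := fun W => ff C gg hh i (W, E))
      (Eventually.of_forall fun W => abs_ff_le hC0 gg hh i (W, E))
    simpa using h1
  · filter_upwards [D.gl] with p hp
    exact (Complex.continuous_im.tendsto _).comp (hp 0 0)
  · have h1 := Measure.ae_ae_of_ae_prod (mc_ae hA D hMP hNull hGraph hna hC)
    filter_upwards [h1, ff_const hA D hMP hNull hGraph hZero hna hC0] with V h2 h3
    have h4 : ∀ᵐ E : ℝ, ∀ i x, Tendsto (fun k => Real.sqrt (e k) *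
        ‖A i V (G V (zz (e k) E) (del x)) - ((∫ W, ff C gg hh i (W, E) ∂(PP d μ) : ℝ) : ℂ) •
          G V (zz (e k) E) (del x)‖) atTop (𝓝 0) := by
      refine ac_lam.ae_le ?_
      filter_upwards [h2, h3] with E h5 h6
      intro i x
      have := h5 i x
      simp only [h6 i] at this
      exact this
    intro i x
    filter_upwards [h4] with E hE
    exact hE i x

end Pool.Agent.QE
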