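import Pool.Agent.Helper54_QE.Final
import Pool.Agent.Helper54_QE.Alg

/-!
# Conserved covariant observables without symmetry
-/

set_option autoImplicit false
set_option linter.unusedSectionVars false

open scoped InnerProductSpace ComplexConjugate Topology ENNReal
open MeasureTheory Filter

noncomputable section

namespace Pool.Agent.QE

open Pool.Agent.Anderson Pool.Agent.Helper54.Bal

variable {d : ℕ}

/-- the adjoint of an operator commuting with the resolvents commutes with the resolvents -/
theorem adj_comm {A : Op d} {V : Cfg d}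
    (hcm : ∀ z : ℂ, z.im ≠ 0 → ∀ f : L2 d, A (G V z f) = G V z (A f)) (z : ℂ) (hz : z.im ≠ 0)
    (f : L2 d) : ContinuousLinearMap.adjoint A (G V z f) =
      G V z (ContinuousLinearMap.adjoint A f) := by
  refine ext_inner_left ℂ fun v => ?_
  have hz' := conj_im_ne hz
  have e : ∀ g : L2 d, ⟪v, G V z g⟫_ℂ = ⟪G V (conj z) v, g⟫_ℂ := by
    intro g
    rw [(isRes_G V).adj _ hz', Complex.conj_conj]
  rw [ContinuousLinearMap.adjoint_inner_right, e, ContinuousLinearMap.adjoint_inner_right,
    hcm _ hz', (isRes_G V).adj _ hz', Complex.conj_conj]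

/-- real part (`true`) and imaginary part (`false`) of an observable -/
def part (A : Cfg d → Op d) (b : Bool) (V : Cfg d) : Op d :=
  if b then (1 / 2 : ℂ) • (A V + ContinuousLinearMap.adjoint (A V))
  else (-Complex.I / 2) • (A V - ContinuousLinearMap.adjoint (A V))

theorem part_true_add (A : Cfg d → Op d) (V : Cfg d) :
    A V = part A true V + Complex.I • part A false V := by
  unfold part
  simp only [if_true, Bool.false_eq_true, if_false, smul_smul, smul_add, smul_sub]
  have e : Complex.I * (-Complex.I / 2) = 1 / 2 := by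
    rw [mul_div_assoc', mul_neg, Complex.I_mul_I, neg_neg]
  rw [e]
  have e2 : ∀ a b : Op d, (1 / 2 : ℂ) • a + (1 / 2 : ℂ) • b + ((1 / 2 : ℂ) • a - (1 / 2 : ℂ) • b)
      = a := by
    intro a b
    have : (1 / 2 : ℂ) • a + (1 / 2 : ℂ) • b + ((1 / 2 : ℂ) • a - (1 / 2 : ℂ) • b) =
        ((1 / 2 : ℂ) + (1 / 2 : ℂ)) • a := by rw [add_smul]; abel
    rw [this]; norm_num
  exact (e2 _ _).symm

theorem obs_part {A : Cfg d → Op d} (hA : Cov A)
    (hcm : ∀ (V : Cfg d) (z : ℂ), z.im ≠ 0 → ∀ f : L2 d, A V (G V z f) = G V z (A V f))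
    (b : Bool) : Obs (part A b) := by
  have hadj := hA.adj
  have key : ∀ (s : ℂ) (t : ℂ) (V : Cfg d) (z : ℂ), z.im ≠ 0 → ∀ f : L2 d,
      (s • (A V + t • ContinuousLinearMap.adjoint (A V))) (G V z f) =
        G V z ((s • (A V + t • ContinuousLinearMap.adjoint (A V))) f) := by
    intro s t V z hz f
    simp only [_root_.smul_apply, _root_.add_apply]
    rw [hcm V z hz, adj_comm (hcm V) z hz, map_smul, map_add, map_smul]
  cases b with
  | true =>
    refine ⟨?_, fun V f g => ?_, fun V z hz f => ?_⟩
    · exact (hA.add hadj).smul _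
    · simp only [part, if_true, _root_.smul_apply, _root_.add_apply, inner_smul_left,
        inner_smul_right, inner_add_left, inner_add_right]
      rw [ContinuousLinearMap.adjoint_inner_left, ContinuousLinearMap.adjoint_inner_right]
      have e : (starRingEnd ℂ) (1 / 2 : ℂ) = 1 / 2 := by
        rw [map_div₀, map_one, map_ofNat]
      rw [e]
      ring
    · have := key (1 / 2) 1 V z hz f
      simpa [part] using this
  | false =>
    refine ⟨?_, fun V f g => ?_, fun V z hz f => ?_⟩
    · exact (hA.sub hadj).smul _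
    · simp only [part, Bool.false_eq_true, if_false, _root_.smul_apply, _root_.sub_apply,
        inner_smul_left, inner_smul_right, inner_sub_left, inner_sub_right]
      rw [ContinuousLinearMap.adjoint_inner_left, ContinuousLinearMap.adjoint_inner_right]
      have e : (starRingEnd ℂ) (-Complex.I / 2) = Complex.I / 2 := by
        rw [map_div₀, map_neg, Complex.conj_I, neg_neg, map_ofNat]
      rw [e]
      ring
    · have := key (-Complex.I / 2) (-1) V z hz f
      simpa [part, sub_eq_add_neg] using this

theorem norm_part_le {A : Cfg d → Op d} {C : ℝ} (hC : ∀ V, ‖A V‖ ≤ C) (b : Bool) (V : Cfg d) :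
    ‖part A b V‖ ≤ C := by
  have h1 : ‖ContinuousLinearMap.adjoint (A V)‖ ≤ C := by
    rw [ContinuousLinearMap.adjoint.norm_map]; exact hC V
  cases b with
  | true =>
    simp only [part, if_true]
    rw [norm_smul]
    have h2 := norm_add_le (A V) (ContinuousLinearMap.adjoint (A V))
    have e : ‖(1 / 2 : ℂ)‖ = 1 / 2 := by norm_num
    rw [e]
    linarith [hC V]
  | false =>
    simp only [part, Bool.false_eq_true, if_false]
    rw [norm_smul]
    have h2 := norm_sub_le (A V) (ContinuousLinearMap.adjoint (A V))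
    have e : ‖(-Complex.I / 2 : ℂ)‖ = 1 / 2 := by
      rw [norm_div, norm_neg, Complex.norm_I]; norm_num
    rw [e]
    linarith [hC V]

/-- the main theorem for a single conserved observable, not necessarily symmetric -/
theorem mc_gen {A : Cfg d → Op d} (hA : Cov A)
    (hcm : ∀ (V : Cfg d) (z : ℂ), z.im ≠ 0 → ∀ f : L2 d, A V (G V z f) = G V z (A V f))
    {μ : Measure ℝ} [IsProbabilityMeasure μ] (hna : ∀ a : ℝ, μ {a} = 0)
    {C : ℝ} (hC : ∀ V, ‖A V‖ ≤ C)
    (hStep : StepStatement) (hCauchy : CauchyStatement) (hTight : TightStatement)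
    (hSeq : SeqStatement) (hMP : MPStatement) (hNull : NullStatement)
    (hGraph : GraphStatement) (hZero : ZeroStatement) :
    ∃ (e : ℕ → ℝ) (c : ℝ → ℂ) (g₀ : Cfg d × ℝ → ℝ), (∀ k, 0 < e k) ∧
      Tendsto e atTop (𝓝 0) ∧ Measurable c ∧ (∀ E, ‖c E‖ ≤ C) ∧
      (Measurable g₀ ∧ ∀ᵐ p ∂(KK d μ), Tendsto (fun k => (G p.1 (zz (e k) p.2) (del 0) 0).im)
        atTop (𝓝 (g₀ p))) ∧
      ∀ᵐ V ∂(PP d μ), ∀ x, ∀ᵐ E : ℝ, Tendsto (fun k => Real.sqrt (e k) *
        ‖A V (G V (zz (e k) E) (del x)) - c E • G V (zz (e k) E) (del x)‖) atTop (𝓝 0) := by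
  have hC0 : 0 ≤ C := (norm_nonneg _).trans (hC 0)
  obtain ⟨e, c, g₀, he, he0, hcm', hcC, hg₀, hmc⟩ := mc (fun b => obs_part hA hcm b) hna hC0
    (fun b V => norm_part_le hC b V) hStep hCauchy hTight hSeq hMP hNull hGraph hZero
  set c₁ : ℝ → ℂ := fun E => (c true E : ℂ) + Complex.I * (c false E : ℂ) with hc₁
  have hc₁m : Measurable c₁ :=
    (Complex.measurable_ofReal.comp (hcm' true)).add
      ((Complex.measurable_ofReal.comp (hcm' false)).const_mul _)
  refine ⟨e, fun E => if ‖c₁ E‖ ≤ C then c₁ E else 0, g₀, he, he0, ?_, ?_, hg₀, ?_⟩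
  · exact Measurable.ite (measurableSet_le hc₁m.norm measurable_const) hc₁m measurable_const
  · intro E
    by_cases h : ‖c₁ E‖ ≤ C
    · simp only [if_pos h]; exact h
    · simp only [if_neg h, norm_zero]; exact hC0
  · filter_upwards [hmc] with V hV
    intro x
    filter_upwards [hV true x, hV false x] with E h1 h2
    have h3 : Tendsto (fun k => Real.sqrt (e k) *
        ‖A V (G V (zz (e k) E) (del x)) - c₁ E • G V (zz (e k) E) (del x)‖) atTop (𝓝 0) := by
      have h4 := h1.add h2
      rw [add_zero] at h4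
      refine squeeze_zero (fun k => by positivity) (fun k => ?_) h4
      rw [← mul_add]
      refine mul_le_mul_of_nonneg_left ?_ (Real.sqrt_nonneg _)
      have e1 : A V (G V (zz (e k) E) (del x)) - c₁ E • G V (zz (e k) E) (del x) =
          (part A true V (G V (zz (e k) E) (del x)) -
            (c true E : ℂ) • G V (zz (e k) E) (del x)) +
          Complex.I • (part A false V (G V (zz (e k) E) (del x)) -
            (c false E : ℂ) • G V (zz (e k) E) (del x)) := by
        conv_lhs => rw [part_true_add A V]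
        simp only [_root_.add_apply, _root_.smul_apply, hc₁, add_smul, smul_sub, smul_smul]
        abel
      rw [e1]
      refine (norm_add_le _ _).trans ?_
      rw [norm_smul, Complex.norm_I, one_mul]
    by_cases h : ‖c₁ E‖ ≤ C
    · simp only [if_pos h]; exact h3
    · simp only [if_neg h, zero_smul, sub_zero]
      rw [not_le] at h
      have h5 : Tendsto (fun k => Real.sqrt (e k) * ‖G V (zz (e k) E) (del x)‖) atTop (𝓝 0) := by
        have h6 := h3.const_mul (‖c₁ E‖ - C)⁻¹
        rw [mul_zero] at h6
        refine squeeze_zero (fun k => by positivity) (fun k => ?_) h6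
        have h7 : 0 < ‖c₁ E‖ - C := by linarith
        rw [← mul_assoc, mul_comm (‖c₁ E‖ - C)⁻¹, mul_assoc]
        refine mul_le_mul_of_nonneg_left ?_ (Real.sqrt_nonneg _)
        rw [le_inv_mul_iff₀ h7]
        have h8 := norm_sub_norm_le (c₁ E • G V (zz (e k) E) (del x))
          (A V (G V (zz (e k) E) (del x)))
        rw [norm_smul, norm_sub_rev] at h8
        have h9 := (A V).le_opNorm (G V (zz (e k) E) (del x))
        have h10 := mul_le_mul_of_nonneg_right (hC V) (norm_nonneg (G V (zz (e k) E) (del x)))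
        rw [sub_mul]
        linarith
      have h6 := h5.const_mul C
      rw [mul_zero] at h6
      refine squeeze_zero (fun k => by positivity) (fun k => ?_) h6
      have h9 := (A V).le_opNorm (G V (zz (e k) E) (del x))
      have h10 := mul_le_mul_of_nonneg_right (hC V) (norm_nonneg (G V (zz (e k) E) (del x)))
      calc Real.sqrt (e k) * ‖A V (G V (zz (e k) E) (del x))‖ ≤
          Real.sqrt (e k) * (C * ‖G V (zz (e k) E) (del x)‖) :=
            mul_le_mul_of_nonneg_left (h9.trans h10) (Real.sqrt_nonneg _)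
        _ = _ := by ring

end Pool.Agent.QE
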