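import Pool.Agent.Helper54_QE.MainH

/-!
# Quantum ergodicity for the Anderson model: all eigenfunctions of large boxes are equidistributed,
up to the fraction given by the singular spectrum
-/

set_option autoImplicit false

open scoped InnerProductSpace ComplexConjugate ENNReal
open MeasureTheory Filter Pool.Agent.Anderson

noncomputable section

namespace Pool.Agent.Results.MP_1906c1_mp.QuantumErgodicity

open Pool.Agent.QE

/-- the law of the i.i.d. sequence `ξ(x)`, `x ∈ ℤ^d`, with single-site law `μ` -/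
def iidLaw (d : ℕ) (μ : Measure ℝ) [IsProbabilityMeasure μ] : Measure (Site d → ℝ) :=
  Measure.infinitePi fun _ : Site d => μ

/-- bounded measurable translation covariant observables: a family `B_ξ` of operators on
`ℓ²(ℤ^d)`, measurable in `ξ`, with norms at most `K`, translation covariant, for `P`-a.e. `ξ` -/
structure IsObservable {d : ℕ} (P : Measure (Site d → ℝ)) (B : (Site d → ℝ) → Op d) (K : ℝ) :
    Prop where
  meas : ∀ f : L2 d, StronglyMeasurable fun ξ => B ξ f
  bdd : ∀ᵐ ξ ∂P, ‖B ξ‖ ≤ K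
  cov : ∀ a : Site d, ∀ᵐ ξ ∂P, ∀ f : L2 d, B (tau a ξ) (shift a f) = shift a (B ξ f)

/-- `m` is the spectral measure of `H = Δ + V` at `δ₀`:
`⟪δ₀, (H - z)⁻¹ δ₀⟫ = ∫ dm(E) / (E - z)` for all non-real `z`. -/
def IsSpectralMeasure {d : ℕ} (V : Site d → ℝ) (m : Measure ℝ) : Prop :=
  IsFiniteMeasure m ∧ ∀ z : ℂ, z.im ≠ 0 → ∀ u : L2 d,
    (∀ x, lap u x + ((V x : ℂ) - z) * u x = if x = 0 then 1 else 0) →
      u 0 = ∫ E : ℝ, 1 / ((E : ℂ) - z) ∂m

theorem exists_spectralMeasure {d : ℕ} (V : Site d → ℝ) : ∃ m, IsSpectralMeasure V m := by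
  obtain ⟨m, hfin, hm⟩ := spec d V 0
  refine ⟨m, hfin, fun z hz u hu => ?_⟩
  rw [← hm z hz]
  have : u = Helper54.Bal.G V z (del 0) := by
    apply Helper54.Bal.G_unique hz
    intro x
    rw [hu x, del_apply]
  rw [this]

/-- the spectral measure of `H = Δ + V` at `δ₀` -/
def spectralMeasure {d : ℕ} (V : Site d → ℝ) : Measure ℝ := (exists_spectralMeasure V).choose

/-- the mean density of states of the singular spectrum in `I`: the expectation of the mass which
the singular part of the spectral measure of `H = Δ + σ ξ` at `δ₀` gives to `I` -/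
def singularDOS (d : ℕ) (μ : Measure ℝ) [IsProbabilityMeasure μ] (σ : ℝ) (I : Set ℝ) : ℝ≥0∞ :=
  ∫⁻ ξ, ((spectralMeasure fun x => σ * ξ x).singularPart volume) I ∂(iidLaw d μ)

/-- the orthonormal family `φ_j`, `j < n`, consists of eigenvectors of the restriction of
`H = Δ + V` to the box `[-L, L]^d` (extended by zero), with eigenvalues `E_j` -/
def IsEigenfamily {d : ℕ} (V : Site d → ℝ) (L : ℕ) {n : ℕ} (φ : Fin n → L2 d) (E : Fin n → ℝ) :
    Prop :=
  Orthonormal ℂ φ ∧ ∀ j, IsBoxEigen V (bx d L) (E j) (φ j)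

/-- **Quantum ergodicity.** Let `ξ(x)`, `x ∈ ℤ^d`, be i.i.d. with an atomless law (for instance
standard Gaussian), `σ ≠ 0`, `H = Δ + σ ξ`, and let `B_ξ` be a bounded measurable translation
covariant family of operators, `‖B_ξ‖ ≤ K`. Let `J ⊆ I` be a compact and an open set of energies
and let `δ > 0`. There are a non-random continuous function `c` and `η > 0` such that for all
large `L` and every orthonormal basis (or family) `φ_j` of eigenvectors of `H` restricted to
`Λ = [-L, L]^d`, with eigenvalues `E_j`, the quantum variance (with off-diagonal terms)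

`|Λ|⁻¹ ∑ { |⟪φ_k, B_ξ φ_j⟫ - c(E_j) δ_{jk}|² : E_j ∈ J, |E_j - E_k| ≤ η }`

is at most a random variable `Y_L` with `E Y_L ≤ 4 K² n_s(I) + δ`, where `n_s(I)` is the mean
density of states of the singular spectrum in `I`. -/
theorem result (d : ℕ) (μ : Measure ℝ) [IsProbabilityMeasure μ] (hatom : ∀ a : ℝ, μ {a} = 0)
    (σ : ℝ) (hσ : σ ≠ 0) (B : (Site d → ℝ) → Op d) (K : ℝ) (hB : IsObservable (iidLaw d μ) B K)
    (I J : Set ℝ) (hI : IsOpen I) (hJ : IsCompact J) (hJI : J ⊆ I) (δ : ℝ) (hδ : 0 < δ) :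
    ∃ (c : ℝ → ℂ) (η : ℝ) (Y : ℕ → (Site d → ℝ) → ℝ≥0∞),
      Continuous c ∧ (∀ E, ‖c E‖ ≤ K) ∧ 0 < η ∧ (∀ L, Measurable (Y L)) ∧
      (∀ᵐ ξ ∂(iidLaw d μ), ∀ (L n : ℕ) (φ : Fin n → L2 d) (E : Fin n → ℝ),
        IsEigenfamily (fun x => σ * ξ x) L φ E →
          ENNReal.ofReal (quantumVariance (bx d L) (B ξ) J η c φ E) ≤ Y L ξ) ∧
      ∀ᶠ L in atTop, ∫⁻ ξ, Y L ξ ∂(iidLaw d μ) ≤
        ENNReal.ofReal (4 * K ^ 2) * singularDOS d μ σ I + ENNReal.ofReal δ := by
  obtain ⟨c, η, Y, hc, hcK, hη, hYm, hY, hlim⟩ := main_QE μ hatom σ hσ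
    (fun V => spectralMeasure V) (fun V => (exists_spectralMeasure V).choose_spec) B hB.meas K
    hB.bdd hB.cov hI hJ hJI hδ
  refine ⟨c, η, Y, hc, hcK, hη, hYm, ?_, hlim⟩
  filter_upwards [hY] with ξ hξ
  intro L n φ E h
  exact hξ L n φ E h.1 h.2

end Pool.Agent.Results.MP_1906c1_mp.QuantumErgodicity
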