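import Pool.Agent.Helper54_QE.Seqs

/-!
# The almost everywhere limits and the vanishing of the residuals
-/

set_option autoImplicit false
set_option linter.unusedSectionVars false

open scoped InnerProductSpace ComplexConjugate Topology ENNReal
open MeasureTheory Filter

noncomputable section

namespace Pool.Agent.QE

open Pool.Agent.Anderson Pool.Agent.Helper54.Bal

variable {d : ℕ} {ι : Type}

/-- a common sequence together with the limits -/
structure Dat (A : ι → Cfg d → Op d) (μ : Measure ℝ) [IsProbabilityMeasure μ] (e : ℕ → ℝ)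
    (gg : Site d → Site d → Cfg d × ℝ → ℂ) (hh : ι → Site d → Cfg d × ℝ → ℂ) : Prop where
  pos : ∀ k, 0 < e k
  zero : Tendsto e atTop (𝓝 0)
  mg : ∀ x y, Measurable (gg x y)
  mh : ∀ i x, Measurable (hh i x)
  gl : ∀ᵐ p ∂(KK d μ), GLim p.1 p.2 e (fun x y => gg x y p)
  al : ∀ᵐ p ∂(KK d μ), ∀ i, ALim (A i p.1) p.1 p.2 e (fun x => hh i x p)
  dl : ∀ᵐ ω ∂((KK d μ).prod μ), ∀ i x₀ x,
    Tendsto (fun k => dq (A i) x₀ x (e k) ω) atTop (𝓝 0) ∧
    Tendsto (fun k => dq (A i) x₀ x (-e k) ω) atTop (𝓝 0)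

theorem exists_dat [Countable ι] {A : ι → Cfg d → Op d} (hA : ∀ i, Obs (A i))
    (hStep : StepStatement) (hCauchy : CauchyStatement) (hTight : TightStatement)
    (hSeq : SeqStatement) (μ : Measure ℝ) [IsProbabilityMeasure μ] :
    ∃ e gg hh, Dat A μ e gg hh := by
  obtain ⟨e, he, he0, hF, hD⟩ := exists_seq hA hStep hCauchy hTight hSeq μ
  choose F₀ hF₀m hF₀ using hF
  refine ⟨e, fun x y p => (1 / 4) * ∑ k : Fin 4, cc k * F₀ (Sum.inl (x, y, k)) p,
    fun i x p => (1 / 4) * ∑ k : Fin 4, cc k * F₀ (Sum.inr (i, x, k)) p, ?_⟩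
  have hall := ae_all_iff.2 hF₀
  refine ⟨he, he0, fun x y => ?_, fun i x => ?_, ?_, ?_, ?_⟩
  · exact (Finset.measurable_sum _ fun k _ => (hF₀m _).const_mul _).const_mul _
  · exact (Finset.measurable_sum _ fun k _ => (hF₀m _).const_mul _).const_mul _
  · filter_upwards [hall] with p hp
    intro x y
    have h1 : Tendsto (fun n => (1 / 4 : ℂ) * ∑ k : Fin 4,
        cc k * Fw (wfam A (Sum.inl (x, y, k))) (e n) p) atTop
        (𝓝 ((1 / 4) * ∑ k : Fin 4, cc k * F₀ (Sum.inl (x, y, k)) p)) :=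
      (tendsto_finsetSum _ fun k _ => (hp (Sum.inl (x, y, k))).const_mul _).const_mul _
    refine h1.congr fun n => ?_
    have h2 := polar' (G p.1 (zz (e n) p.2)) (del x) (del y)
    rw [inner_del_left] at h2
    rw [h2]
    rfl
  · filter_upwards [hall] with p hp
    intro i x
    have h1 : Tendsto (fun n => (1 / 4 : ℂ) * ∑ k : Fin 4,
        cc k * Fw (wfam A (Sum.inr (i, x, k))) (e n) p) atTop
        (𝓝 ((1 / 4) * ∑ k : Fin 4, cc k * F₀ (Sum.inr (i, x, k)) p)) :=
      (tendsto_finsetSum _ fun k _ => (hp (Sum.inr (i, x, k))).const_mul _).const_mul _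
    refine h1.congr fun n => ?_
    have h2 := polar' (G p.1 (zz (e n) p.2)) (del x) (A i p.1 (del x))
    rw [inner_del_left] at h2
    rw [h2]
    rfl
  · rw [ae_all_iff]; intro i
    rw [ae_all_iff]; intro x₀
    rw [ae_all_iff]; intro x
    exact hD i x₀ x

section dat

variable {A : ι → Cfg d → Op d} (hA : ∀ i, Obs (A i)) {μ : Measure ℝ} [IsProbabilityMeasure μ]
  {e : ℕ → ℝ} {gg : Site d → Site d → Cfg d × ℝ → ℂ} {hh : ι → Site d → Cfg d × ℝ → ℂ}
  (D : Dat A μ e gg hh)

include hA D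

theorem par_ae [Countable ι] (hMP : MPStatement) (hna : ∀ a : ℝ, μ {a} = 0) :
    ∀ᵐ p ∂(KK d μ), ∀ i x, Par (A i p.1) p.1 p.2 e x := by
  rw [ae_all_iff]; intro i
  rw [ae_all_iff]; intro x₀
  refine ae_upd' hMP x₀ ?_ ?_
  · unfold Par
    refine measurableSet_tendsto (𝓝 0) fun k => ?_
    exact (measurable_rr (hA i).toCov x₀ (D.pos k).ne').const_mul _
  · filter_upwards [ae_fst D.gl, ae_upd hMP x₀ D.gl, D.dl, ae_ne hna] with ω h1 h2 h3 h4
    obtain ⟨h5, h6⟩ := h3 i x₀ x₀
    have hV : (upd x₀ ω).1 = Function.update ω.1.1 x₀ ω.2 := rfl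
    have hE : (upd x₀ ω).2 = ω.1.2 := rfl
    rw [hV, hE] at h2 ⊢
    refine par_of_step D.pos (h4 x₀) h1 h2 ((hA i).comm ω.1.1) ((hA i).sa _) ((hA i).comm _)
      ?_ ?_
    · refine h5.congr fun k => ?_
      unfold dq
      rw [abs_of_pos (D.pos k)]
    · refine h6.congr fun k => ?_
      unfold dq
      rw [abs_neg, abs_of_pos (D.pos k)]

/-- a site of zero density is not connected to a site of positive density -/
theorem zero_pos_ae (hMP : MPStatement) (hNull : NullStatement) (hna : ∀ a : ℝ, μ {a} = 0) :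
    ∀ᵐ p ∂(KK d μ), ∀ x y, (gg x x p).im = 0 → 0 < (gg y y p).im → gg y x p = 0 := by
  rw [ae_all_iff]; intro x
  rw [ae_all_iff]; intro y
  have hm1 : MeasurableSet {p : Cfg d × ℝ | (gg x x p).im = 0} :=
    measurableSet_eq_fun (Complex.measurable_im.comp (D.mg x x)) measurable_const
  have hm2 : MeasurableSet {p : Cfg d × ℝ | 0 < (gg y y p).im} :=
    measurableSet_lt measurable_const (Complex.measurable_im.comp (D.mg y y))
  have hm3 : MeasurableSet {p : Cfg d × ℝ | gg y x p ≠ 0} :=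
    (measurableSet_eq_fun (D.mg y x) measurable_const).compl
  set S : Set (Cfg d × ℝ) := {p | (gg x x p).im = 0} ∩ {p | 0 < (gg y y p).im} ∩
    {p | gg y x p ≠ 0} with hS
  have hSm : MeasurableSet S := (hm1.inter hm2).inter hm3
  have h0 : (KK d μ) S = 0 := by
    refine hNull d μ y S hSm ?_
    filter_upwards [ae_fst D.gl, ae_upd hMP y D.gl, ae_ne hna] with ω h1 h2 h4
    rintro ⟨⟨k1, k2⟩, k3⟩ ⟨⟨k4, -⟩, -⟩
    have hV : (upd y ω).1 = Function.update ω.1.1 y ω.2 := rfl
    have hE : (upd y ω).2 = ω.1.2 := rfl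
    rw [hV, hE] at h2
    have := im_pos_of_resample D.pos (h4 y) h1 h2 k1 k2 k3
    exact this.ne' k4
  have h1 : ∀ᵐ p ∂(KK d μ), p ∉ S := measure_eq_zero_iff_ae_notMem.1 h0
  filter_upwards [h1] with p hp k1 k2
  by_contra k3
  exact hp ⟨⟨k1, k2⟩, k3⟩

/-- sites with different values are not connected -/
theorem green_zero_ae [Countable ι] (hMP : MPStatement) (hna : ∀ a : ℝ, μ {a} = 0) :
    ∀ᵐ p ∂(KK d μ), ∀ i x y, 0 < (gg x x p).im → 0 < (gg y y p).im →
      av (fun x y => gg x y p) (fun x => hh i x p) x ≠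
        av (fun x y => gg x y p) (fun x => hh i x p) y → gg y x p = 0 := by
  have hpar := par_ae hA D hMP hna
  refine ae_fst' (μ := μ) ?_
  rw [ae_all_iff]; intro i
  rw [ae_all_iff]; intro x
  rw [ae_all_iff]; intro y
  filter_upwards [ae_fst D.gl, ae_upd hMP y D.gl, ae_fst D.al, ae_upd hMP y D.al, D.dl, ae_ne hna,
    ae_fst hpar, ae_upd hMP y hpar] with ω h1 h2 h3 h4 h5 h6 h7 h8
  intro k1 k2 k3
  have hV : (upd y ω).1 = Function.update ω.1.1 y ω.2 := rfl
  have hE : (upd y ω).2 = ω.1.2 := rfl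
  have h4' := h4 i
  have h8y := h8 i y
  have h8x := h8 i x
  rw [hV, hE] at h2 h4' h8y h8x
  refine green_zero (A := A i ω.1.1) (A' := A i (Function.update ω.1.1 y ω.2)) D.pos (h6 y)
    h1 h2 ((hA i).sa _) ((hA i).comm _) ((hA i).sa _) ((hA i).comm _) (h3 i) h4' k2 k1 k3 ?_ ?_
    (h7 i y) (h7 i x) h8y h8x
  · refine (h5 i y y).1.congr fun k => ?_
    unfold dq
    rw [abs_of_pos (D.pos k)]
  · refine (h5 i y x).1.congr fun k => ?_
    unfold dq
    rw [abs_of_pos (D.pos k)]

/-- positivity at one site forces positivity and equality of the values everywhere -/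
theorem all_pos_ae [Countable ι] (hMP : MPStatement) (hNull : NullStatement)
    (hGraph : GraphStatement) (hna : ∀ a : ℝ, μ {a} = 0) :
    ∀ᵐ p ∂(KK d μ), ∀ z, 0 < (gg z z p).im → ∀ x, 0 < (gg x x p).im ∧
      ∀ i, av (fun x y => gg x y p) (fun x => hh i x p) x =
        av (fun x y => gg x y p) (fun x => hh i x p) z := by
  filter_upwards [D.gl, zero_pos_ae hA D hMP hNull hna, green_zero_ae hA D hMP hna]
    with p h1 h2 h3
  intro z hz
  have hsym : ∀ x y, gg x y p = gg y x p := fun x y => GLim.symm D.pos h1 x y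
  have heqn := fun x y => GLim.eqn D.pos h1 D.zero x y
  have hnn := fun x => GLim.im_nonneg D.pos h1 x
  have hpos : ∀ x, 0 < (gg x x p).im := by
    have hB := hGraph d p.1 p.2 (fun x y => gg x y p) hsym heqn {x | 0 < (gg x x p).im}
      ⟨z, hz⟩ (fun y hy x hx => by
        refine h2 x y ?_ hy
        rcases (hnn x).eq_or_lt with h | h
        · exact h.symm
        · exact absurd h hx)
    intro x
    have : x ∈ {x | 0 < (gg x x p).im} := by rw [hB]; trivial
    exact this
  refine fun x => ⟨hpos x, fun i => ?_⟩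
  have hB := hGraph d p.1 p.2 (fun x y => gg x y p) hsym heqn
    {x | av (fun x y => gg x y p) (fun x => hh i x p) x =
      av (fun x y => gg x y p) (fun x => hh i x p) z} ⟨z, rfl⟩ (fun y hy x hx => by
        refine h3 i x y (hpos x) (hpos y) ?_
        intro h
        exact hx (h.trans hy))
  have : x ∈ {x | av (fun x y => gg x y p) (fun x => hh i x p) x =
      av (fun x y => gg x y p) (fun x => hh i x p) z} := by rw [hB]; trivial
  exact this

end dat

end Pool.Agent.QE
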