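import Pool.Agent.Helper54_QE.Reg
import Pool.Agent.Helper35_QE.AC
import Pool.Agent.Helper36_QE.Tight
import Pool.Agent.Helper36_QE.Trace
import Pool.Agent.Helper68_QE.Resample
import Pool.Agent.Helper68_QE.Seq
import Pool.Agent.Helper94_QE.Cauchy
import Pool.Agent.Helper94_QE.Cyl
import Pool.Agent.Helper94_QE.Graph

/-!
# Conserved covariant observables of the Anderson model are functions of the energy
-/

set_option autoImplicit false
set_option linter.unusedSectionVars false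

open scoped InnerProductSpace ComplexConjugate Topology ENNReal
open MeasureTheory Filter

noncomputable section

namespace Pool.Agent.QE

open Pool.Agent.Anderson Pool.Agent.Helper54.Bal

variable {d : ℕ}

theorem main_E (hStep : StepStatement) (μ : Measure ℝ) [IsProbabilityMeasure μ]
    (hna : ∀ a : ℝ, μ {a} = 0) (σ : ℝ) (hσ : σ ≠ 0) (A : Cfg d → Op d)
    (hm : ∀ f, StronglyMeasurable fun ξ => A ξ f)
    (hb : ∃ C : ℝ, ∀ᵐ ξ ∂(PP d μ), ‖A ξ‖ ≤ C)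
    (hcov : ∀ a : Site d, ∀ᵐ ξ ∂(PP d μ), ∀ f, A (tau a ξ) (shift a f) = shift a (A ξ f))
    (hcomm : ∀ᵐ ξ ∂(PP d μ), ∀ u f : L2 d,
      (∀ x, lap u x + ((σ * ξ x : ℝ) : ℂ) * u x = f x) →
        ∀ x, lap (A ξ u) x + ((σ * ξ x : ℝ) : ℂ) * A ξ u x = A ξ f x) :
    ∃ c : ℝ → ℂ, Measurable c ∧ (∃ C : ℝ, ∀ E, ‖c E‖ ≤ C) ∧ ∀ᵐ ξ ∂(PP d μ),
      ∀ (ψ : L2 d) (ρ : ℝ → ℝ), IsACVector (fun x => σ * ξ x) ρ ψ →
        IsFunctionOfEnergy (fun x => σ * ξ x) ρ c ψ (A ξ ψ) := by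
  obtain ⟨C₀, hC₀⟩ := hb
  set C : ℝ := max C₀ 0 with hC
  have hC0 : 0 ≤ C := le_max_right _ _
  set ν : Measure ℝ := μ.map fun r => σ * r with hν
  set A₁ : Cfg d → Op d := fun V => A (sc σ⁻¹ V) with hA₁
  have hqi := (mp_sc_inv (d := d) μ hσ).quasiMeasurePreserving
  have hss : ∀ V : Cfg d, sc σ (sc σ⁻¹ V) = V := by
    intro V
    funext x
    simp only [sc]
    rw [← mul_assoc, mul_inv_cancel₀ hσ, one_mul]
  have h1 : ∀ f, StronglyMeasurable fun V => A₁ V f := fun f =>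
    (hm f).comp_measurable (mp_sc_inv (d := d) μ hσ).measurable
  have h2 : ∀ᵐ V ∂(PP d ν), ‖A₁ V‖ ≤ C := by
    filter_upwards [hqi.ae hC₀] with V hV
    exact hV.trans (le_max_left _ _)
  have h3 : ∀ a : Site d, ∀ᵐ V ∂(PP d ν), ∀ f, A₁ (tau a V) (shift a f) = shift a (A₁ V f) := by
    intro a
    filter_upwards [hqi.ae (hcov a)] with V hV
    exact hV
  have h4 : ∀ᵐ V ∂(PP d ν), ∀ z : ℂ, z.im ≠ 0 → ∀ f : L2 d,
      A₁ V (G V z f) = G V z (A₁ V f) := by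
    filter_upwards [hqi.ae hcomm] with V hV
    refine comm_G_of_comm fun u f huf => ?_
    have e : ∀ x, (σ * sc σ⁻¹ V x : ℝ) = V x := fun x => congrFun (hss V) x
    have h5 := hV u f
    simp only [e] at h5
    exact h5 huf
  obtain ⟨A₂, hcov2, hb2, hae2, hor2⟩ := exists_reg h1 hC0 h2 h3 h4
  have hcm2 : ∀ (V : Cfg d) (z : ℂ), z.im ≠ 0 → ∀ f : L2 d, A₂ V (G V z f) = G V z (A₂ V f) := by
    intro V z hz f
    rcases hor2 V with h | h
    · rw [h.1]; exact h.2 z hz f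
    · rw [h]; simp
  obtain ⟨e, c, g₀, he, he0, hcm, hcC, -, hmc⟩ := mc_gen hcov2 hcm2 (atomless_mul hna hσ) hb2
    hStep cauchy tight seq mp null graph zero
  refine ⟨c, hcm, ⟨C, hcC⟩, ?_⟩
  have h5 : ∀ᵐ V ∂(PP d ν), ∀ (ψ : L2 d) (ρ : ℝ → ℝ), IsACVector V ρ ψ →
      IsFunctionOfEnergy V ρ c ψ (A₁ V ψ) := by
    filter_upwards [hmc, hae2] with V hV1 hV2
    intro ψ ρ hψ
    rw [← hV2]
    exact Helper35.AC.ac d V (A₂ V) (hcm2 V) c hcm C hcC e he he0 hV1 ψ ρ hψ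
  filter_upwards [(mp_sc (d := d) μ σ).quasiMeasurePreserving.ae h5] with ξ hξ
  intro ψ ρ hψ
  have := hξ ψ ρ hψ
  simp only [hA₁, sc_sc hσ] at this
  exact this

end Pool.Agent.QE
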