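import Pool.Agent.Helper54_QE.Aux2

/-!
# Quantum ergodicity of eigenfunctions in boxes: assembly
-/

set_option autoImplicit false
set_option linter.unusedSectionVars false

open scoped InnerProductSpace ComplexConjugate Topology ENNReal
open MeasureTheory Filter

noncomputable section

namespace Pool.Agent.QE

open Pool.Agent.Anderson Pool.Agent.Helper54.Bal

variable {d : ℕ}

/-! ### the averaged density -/

/-- the averaged density of states measure of the absolutely continuous part -/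
def nu0 (ν : Measure ℝ) [IsProbabilityMeasure ν] (g₀ : Cfg d × ℝ → ℝ) : Measure ℝ :=
  (volume : Measure ℝ).withDensity fun E =>
    ∫⁻ V, ENNReal.ofReal (g₀ (V, E) / Real.pi) ∂(PP d ν)

theorem nu0_lintegral (ν : Measure ℝ) [IsProbabilityMeasure ν] {g₀ : Cfg d × ℝ → ℝ}
    (hg : Measurable g₀) {f : ℝ → ℝ≥0∞} (hf : Measurable f) :
    ∫⁻ E, f E ∂(nu0 ν g₀) =
      ∫⁻ V, (∫⁻ E : ℝ, f E * ENNReal.ofReal (g₀ (V, E) / Real.pi)) ∂(PP d ν) := by
  have hm : Measurable fun p : Cfg d × ℝ => ENNReal.ofReal (g₀ p / Real.pi) :=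
    (hg.div_const _).ennreal_ofReal
  have hm1 : Measurable fun E : ℝ => ∫⁻ V, ENNReal.ofReal (g₀ (V, E) / Real.pi) ∂(PP d ν) :=
    hm.lintegral_prod_left'
  unfold nu0
  rw [lintegral_withDensity_eq_lintegral_mul _ hm1 hf, lintegral_lintegral_swap]
  · refine lintegral_congr fun E => ?_
    have hm2 : Measurable fun V : Cfg d => ENNReal.ofReal (g₀ (V, E) / Real.pi) :=
      hm.comp measurable_prodMk_right
    rw [Pi.mul_apply, mul_comm, lintegral_const_mul _ hm2]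
  · exact ((hf.comp measurable_snd).mul hm).aemeasurable

theorem nu0_univ (ν : Measure ℝ) [IsProbabilityMeasure ν] {g₀ : Cfg d × ℝ → ℝ}
    (hg : Measurable g₀)
    (hb : ∀ᵐ V ∂(PP d ν), ∫⁻ E, ENNReal.ofReal (g₀ (V, E)) ≤ ENNReal.ofReal Real.pi) :
    (nu0 ν g₀) Set.univ ≤ 1 := by
  have h1 := nu0_lintegral (d := d) ν hg (f := fun _ => 1) measurable_const
  rw [lintegral_one] at h1
  rw [h1]
  calc _ ≤ ∫⁻ _ : Cfg d, (1 : ℝ≥0∞) ∂(PP d ν) := by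
        refine lintegral_mono_ae ?_
        filter_upwards [hb] with V hV
        have e : ∀ E, (1 : ℝ≥0∞) * ENNReal.ofReal (g₀ (V, E) / Real.pi) =
            ENNReal.ofReal Real.pi⁻¹ * ENNReal.ofReal (g₀ (V, E)) := by
          intro E
          rw [one_mul, ← ENNReal.ofReal_mul (by positivity)]
          congr 1; ring
        simp only [e]
        rw [lintegral_const_mul' _ _ ENNReal.ofReal_ne_top]
        calc _ ≤ ENNReal.ofReal Real.pi⁻¹ * ENNReal.ofReal Real.pi := by gcongr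
          _ = 1 := by
            rw [← ENNReal.ofReal_mul (by positivity), inv_mul_cancel₀ Real.pi_ne_zero,
              ENNReal.ofReal_one]
    _ = 1 := by simp

/-! ### the choice of the small parameter -/

theorem exists_theta (K : ℝ) {δ : ℝ} (hδ : 0 < δ) : ∃ θ : ℝ, 0 < θ ∧ θ < 1 / 2 ∧
    (1 + θ) ^ 3 * ((1 - θ ^ 2) ^ 2)⁻¹ * ((2 * K + θ ^ 2) ^ 2 * (1 + θ ^ 2) ^ 2) ≤
      4 * K ^ 2 + δ / 4 ∧
    (1 + θ) ^ 3 * ((1 - θ ^ 2) ^ 2)⁻¹ * ((1 + θ ^ 2) ^ 2 * (2 * θ + 2 * θ ^ 4) +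
      (2 * K + θ ^ 2) ^ 2 * θ ^ 4) + (θ ^ 4 + θ ^ 3) ≤ δ / 4 := by
  have hinv : ContinuousAt (fun θ : ℝ => ((1 - θ ^ 2) ^ 2)⁻¹) 0 := by
    refine ContinuousAt.inv₀ (by fun_prop) (by norm_num)
  have h1 : ContinuousAt (fun θ : ℝ => (1 + θ) ^ 3 * ((1 - θ ^ 2) ^ 2)⁻¹ *
      ((2 * K + θ ^ 2) ^ 2 * (1 + θ ^ 2) ^ 2)) 0 :=
    (ContinuousAt.mul (by fun_prop) hinv).mul (by fun_prop)
  have h2 : ContinuousAt (fun θ : ℝ => (1 + θ) ^ 3 * ((1 - θ ^ 2) ^ 2)⁻¹ *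
      ((1 + θ ^ 2) ^ 2 * (2 * θ + 2 * θ ^ 4) + (2 * K + θ ^ 2) ^ 2 * θ ^ 4) +
      (θ ^ 4 + θ ^ 3)) 0 :=
    ((ContinuousAt.mul (by fun_prop) hinv).mul (by fun_prop)).add (by fun_prop)
  have e1 : ∀ᶠ θ in 𝓝[>] (0:ℝ), (1 + θ) ^ 3 * ((1 - θ ^ 2) ^ 2)⁻¹ *
      ((2 * K + θ ^ 2) ^ 2 * (1 + θ ^ 2) ^ 2) < 4 * K ^ 2 + δ / 4 := by
    refine (h1.tendsto.mono_left nhdsWithin_le_nhds).eventually (Iio_mem_nhds ?_)
    norm_num
    nlinarith
  have e2 : ∀ᶠ θ in 𝓝[>] (0:ℝ), (1 + θ) ^ 3 * ((1 - θ ^ 2) ^ 2)⁻¹ *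
      ((1 + θ ^ 2) ^ 2 * (2 * θ + 2 * θ ^ 4) + (2 * K + θ ^ 2) ^ 2 * θ ^ 4) +
      (θ ^ 4 + θ ^ 3) < δ / 4 := by
    refine (h2.tendsto.mono_left nhdsWithin_le_nhds).eventually (Iio_mem_nhds ?_)
    norm_num
    exact hδ
  have e3 : ∀ᶠ θ in 𝓝[>] (0:ℝ), θ < 1 / 2 :=
    (tendsto_id.mono_left nhdsWithin_le_nhds).eventually (Iio_mem_nhds (by norm_num))
  have e4 : ∀ᶠ θ in 𝓝[>] (0:ℝ), 0 < θ := self_mem_nhdsWithin
  obtain ⟨θ, h1, h2, h3, h4⟩ := (e1.and (e2.and (e3.and e4))).exists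
  exact ⟨θ, h4, h3, h1.le, h2.le⟩

/-! ### the infinite volume estimate -/

/-- the integrated form of module AC2 -/
theorem inf_vol {ν : Measure ℝ} [IsProbabilityMeasure ν] {X : Cfg d → ℝ≥0∞}
    {c c' : ℝ → ℂ} (hc : Measurable c) (hc' : Continuous c') {g₀ : Cfg d × ℝ → ℝ}
    (hg : Measurable g₀) {p q : RF} {K θ : ℝ} (hK0 : 0 ≤ K) (hθ : 0 < θ)
    {m : Cfg d → Measure ℝ} {I : Set ℝ} (hI : MeasurableSet I)
    (hX : ∀ᵐ V ∂(PP d ν), X V ≤
      (∫⁻ E : ℝ, ENNReal.ofReal (‖p.ev E‖ ^ 2 * ‖c E - q.ev E‖ ^ 2 * (g₀ (V, E) / Real.pi))) +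
      ENNReal.ofReal ((K + (K + θ ^ 2)) ^ 2) *
        ∫⁻ E, ENNReal.ofReal (‖p.ev E‖ ^ 2) ∂((m V).singularPart volume))
    (hp1 : ∀ E, ‖p.ev E‖ ≤ 1 + θ ^ 2) (hp2 : ∀ E ∉ I, ‖p.ev E‖ ≤ θ ^ 2)
    (hq : ∀ E, ‖c' E - q.ev E‖ ≤ θ ^ 2)
    (hν0 : (nu0 ν g₀) Set.univ ≤ 1)
    (hcc : ∫⁻ E, ‖c E - c' E‖ₑ ^ 2 ∂(nu0 ν g₀) ≤ ENNReal.ofReal θ)
    (hm1 : ∀ᵐ V ∂(PP d ν), (m V) Set.univ ≤ 1) :
    ∫⁻ V, X V ∂(PP d ν) ≤
      ENNReal.ofReal ((1 + θ ^ 2) ^ 2 * (2 * θ + 2 * θ ^ 4) + (2 * K + θ ^ 2) ^ 2 * θ ^ 4) +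
      ENNReal.ofReal ((2 * K + θ ^ 2) ^ 2 * (1 + θ ^ 2) ^ 2) *
        ∫⁻ V, ((m V).singularPart volume) I ∂(PP d ν) := by
  -- first part
  have hb1 : ∫⁻ V, (∫⁻ E : ℝ, ENNReal.ofReal
      (‖p.ev E‖ ^ 2 * ‖c E - q.ev E‖ ^ 2 * (g₀ (V, E) / Real.pi))) ∂(PP d ν) ≤
      ENNReal.ofReal ((1 + θ ^ 2) ^ 2 * (2 * θ + 2 * θ ^ 4)) := by
    have hcm2 : Measurable fun E : ℝ => ‖c E - c' E‖ₑ ^ 2 :=
      (hc.sub hc'.measurable).enorm.pow_const 2
    have hfm : Measurable fun E : ℝ => 2 * ‖c E - c' E‖ₑ ^ 2 + ENNReal.ofReal (2 * θ ^ 4) :=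
      (hcm2.const_mul _).add_const _
    have hpt : ∀ V E, ENNReal.ofReal
        (‖p.ev E‖ ^ 2 * ‖c E - q.ev E‖ ^ 2 * (g₀ (V, E) / Real.pi)) ≤
        ENNReal.ofReal ((1 + θ ^ 2) ^ 2) * ((2 * ‖c E - c' E‖ₑ ^ 2 +
          ENNReal.ofReal (2 * θ ^ 4)) * ENNReal.ofReal (g₀ (V, E) / Real.pi)) := by
      intro V E
      have e1 : 2 * ‖c E - c' E‖ₑ ^ 2 + ENNReal.ofReal (2 * θ ^ 4) =
          ENNReal.ofReal (2 * ‖c E - c' E‖ ^ 2 + 2 * θ ^ 4) := by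
        rw [enorm_sq_eq, ENNReal.ofReal_add (by positivity) (by positivity),
          ENNReal.ofReal_mul (by norm_num)]
        norm_num
      rw [e1, ← ENNReal.ofReal_mul (by positivity), ← ENNReal.ofReal_mul (by positivity)]
      rcases le_or_gt 0 (g₀ (V, E) / Real.pi) with h | h
      · refine ENNReal.ofReal_le_ofReal ?_
        have h1 : ‖p.ev E‖ ^ 2 ≤ (1 + θ ^ 2) ^ 2 := by
          have := hp1 E
          gcongr
        have h2 : ‖c E - q.ev E‖ ^ 2 ≤ 2 * ‖c E - c' E‖ ^ 2 + 2 * θ ^ 4 := by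
          have h3 := norm_add_le (c E - c' E) (c' E - q.ev E)
          rw [sub_add_sub_cancel] at h3
          have h4 := hq E
          have h5 : ‖c E - q.ev E‖ ≤ ‖c E - c' E‖ + θ ^ 2 := h3.trans (by linarith)
          have h6 : ‖c E - q.ev E‖ ^ 2 ≤ (‖c E - c' E‖ + θ ^ 2) ^ 2 := by gcongr
          nlinarith [sq_nonneg (‖c E - c' E‖ - θ ^ 2)]
        calc ‖p.ev E‖ ^ 2 * ‖c E - q.ev E‖ ^ 2 * (g₀ (V, E) / Real.pi) ≤
            (1 + θ ^ 2) ^ 2 * (2 * ‖c E - c' E‖ ^ 2 + 2 * θ ^ 4) * (g₀ (V, E) / Real.pi) := by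
              gcongr
          _ = _ := by ring
      · rw [ENNReal.ofReal_of_nonpos]
        · exact zero_le
        · exact mul_nonpos_of_nonneg_of_nonpos (by positivity) h.le
    calc _ ≤ ∫⁻ V, (∫⁻ E : ℝ, ENNReal.ofReal ((1 + θ ^ 2) ^ 2) * ((2 * ‖c E - c' E‖ₑ ^ 2 +
          ENNReal.ofReal (2 * θ ^ 4)) * ENNReal.ofReal (g₀ (V, E) / Real.pi))) ∂(PP d ν) :=
          lintegral_mono fun V => lintegral_mono fun E => hpt V E
      _ = ENNReal.ofReal ((1 + θ ^ 2) ^ 2) * ∫⁻ E, (2 * ‖c E - c' E‖ₑ ^ 2 +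
          ENNReal.ofReal (2 * θ ^ 4)) ∂(nu0 ν g₀) := by
          rw [nu0_lintegral ν hg hfm, ← lintegral_const_mul' _ _ ENNReal.ofReal_ne_top]
          refine lintegral_congr fun V => ?_
          rw [lintegral_const_mul' _ _ ENNReal.ofReal_ne_top]
      _ ≤ ENNReal.ofReal ((1 + θ ^ 2) ^ 2) * (ENNReal.ofReal (2 * θ) +
          ENNReal.ofReal (2 * θ ^ 4)) := by
          gcongr
          rw [lintegral_add_right _ measurable_const, lintegral_const, lintegral_const_mul _ hcm2]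
          refine add_le_add ?_ ?_
          · rw [ENNReal.ofReal_mul (by norm_num)]
            norm_num
            gcongr
          · calc _ ≤ ENNReal.ofReal (2 * θ ^ 4) * 1 := by gcongr
              _ = _ := mul_one _
      _ = _ := by
          rw [← ENNReal.ofReal_add (by positivity) (by positivity),
            ← ENNReal.ofReal_mul (by positivity)]
  -- second part
  have hb2 : ∀ V, (m V) Set.univ ≤ 1 →
      ∫⁻ E, ENNReal.ofReal (‖p.ev E‖ ^ 2) ∂((m V).singularPart volume) ≤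
        ENNReal.ofReal ((1 + θ ^ 2) ^ 2) * ((m V).singularPart volume) I +
          ENNReal.ofReal (θ ^ 4) := by
    intro V hV
    have hs : ((m V).singularPart volume) Iᶜ ≤ 1 :=
      (measure_mono (Set.subset_univ _)).trans
        ((Measure.singularPart_le (m V) volume Set.univ).trans hV)
    rw [← lintegral_add_compl _ hI]
    refine add_le_add ?_ ?_
    · calc ∫⁻ E in I, ENNReal.ofReal (‖p.ev E‖ ^ 2) ∂((m V).singularPart volume) ≤
          ∫⁻ _ in I, ENNReal.ofReal ((1 + θ ^ 2) ^ 2) ∂((m V).singularPart volume) := by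
            refine lintegral_mono fun E => ENNReal.ofReal_le_ofReal ?_
            have := hp1 E
            gcongr
        _ = _ := by rw [setLIntegral_const]
    · calc ∫⁻ E in Iᶜ, ENNReal.ofReal (‖p.ev E‖ ^ 2) ∂((m V).singularPart volume) ≤
          ∫⁻ _ in Iᶜ, ENNReal.ofReal (θ ^ 4) ∂((m V).singularPart volume) := by
            refine setLIntegral_mono measurable_const fun E hE => ENNReal.ofReal_le_ofReal ?_
            have h1 := hp2 E hE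
            calc ‖p.ev E‖ ^ 2 ≤ (θ ^ 2) ^ 2 := by gcongr
              _ = _ := by ring
        _ = ENNReal.ofReal (θ ^ 4) * ((m V).singularPart volume) Iᶜ := by
            rw [setLIntegral_const]
        _ ≤ ENNReal.ofReal (θ ^ 4) * 1 := by gcongr
        _ = _ := mul_one _
  have e2K : (K + (K + θ ^ 2)) ^ 2 = (2 * K + θ ^ 2) ^ 2 := by ring
  have hfirst : Measurable fun V : Cfg d => ∫⁻ E : ℝ, ENNReal.ofReal
      (‖p.ev E‖ ^ 2 * ‖c E - q.ev E‖ ^ 2 * (g₀ (V, E) / Real.pi)) := by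
    have hev : ∀ r : RF, Measurable r.ev := by
      intro r
      unfold RF.ev
      refine Finset.measurable_sum _ fun k _ => ?_
      exact measurable_const.div (Complex.measurable_ofReal.sub_const _)
    have h1 : Measurable fun z : Cfg d × ℝ => ENNReal.ofReal
        (‖p.ev z.2‖ ^ 2 * ‖c z.2 - q.ev z.2‖ ^ 2 * (g₀ z / Real.pi)) := by
      refine Measurable.ennreal_ofReal ?_
      refine Measurable.mul (Measurable.mul ?_ ?_) (hg.div_const _)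
      · exact (((hev p).comp measurable_snd).norm).pow_const 2
      · exact ((((hc.comp measurable_snd).sub ((hev q).comp measurable_snd))).norm).pow_const 2
    exact h1.lintegral_prod_right'
  calc ∫⁻ V, X V ∂(PP d ν) ≤ ∫⁻ V, ((∫⁻ E : ℝ, ENNReal.ofReal
        (‖p.ev E‖ ^ 2 * ‖c E - q.ev E‖ ^ 2 * (g₀ (V, E) / Real.pi))) +
        ENNReal.ofReal ((2 * K + θ ^ 2) ^ 2) * (ENNReal.ofReal ((1 + θ ^ 2) ^ 2) *
          ((m V).singularPart volume) I + ENNReal.ofReal (θ ^ 4))) ∂(PP d ν) := by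
        refine lintegral_mono_ae ?_
        filter_upwards [hX, hm1] with V h1 h2
        rw [e2K] at h1
        refine h1.trans ?_
        gcongr
        exact hb2 V h2
    _ = (∫⁻ V, (∫⁻ E : ℝ, ENNReal.ofReal
        (‖p.ev E‖ ^ 2 * ‖c E - q.ev E‖ ^ 2 * (g₀ (V, E) / Real.pi))) ∂(PP d ν)) +
        ENNReal.ofReal ((2 * K + θ ^ 2) ^ 2) * (ENNReal.ofReal ((1 + θ ^ 2) ^ 2) *
          (∫⁻ V, ((m V).singularPart volume) I ∂(PP d ν)) + ENNReal.ofReal (θ ^ 4)) := by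
        rw [lintegral_add_left hfirst, lintegral_const_mul' _ _ ENNReal.ofReal_ne_top,
          lintegral_add_right _ measurable_const, lintegral_const_mul' _ _ ENNReal.ofReal_ne_top,
          lintegral_const, measure_univ, mul_one]
    _ ≤ ENNReal.ofReal ((1 + θ ^ 2) ^ 2 * (2 * θ + 2 * θ ^ 4)) +
        ENNReal.ofReal ((2 * K + θ ^ 2) ^ 2) * (ENNReal.ofReal ((1 + θ ^ 2) ^ 2) *
          (∫⁻ V, ((m V).singularPart volume) I ∂(PP d ν)) + ENNReal.ofReal (θ ^ 4)) := by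
        gcongr
    _ = _ := by
        rw [ENNReal.ofReal_add (by positivity) (by positivity),
          ENNReal.ofReal_mul (p := (2 * K + θ ^ 2) ^ 2) (q := (1 + θ ^ 2) ^ 2) (by positivity),
          ENNReal.ofReal_mul (p := (2 * K + θ ^ 2) ^ 2) (q := θ ^ 4) (by positivity)]
        ring

end Pool.Agent.QE
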