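import Pool.Agent.Helper54_QE.MainF
import Pool.Agent.Helper54_QE.MainE2

/-!
# Quantum ergodicity of eigenfunctions in boxes: the main theorem
-/

set_option autoImplicit false
set_option linter.unusedSectionVars false

open scoped InnerProductSpace ComplexConjugate Topology ENNReal
open MeasureTheory Filter

noncomputable section

namespace Pool.Agent.QE

open Pool.Agent.Anderson Pool.Agent.Helper54.Bal

variable {d : ℕ}

open Classical in
/-- `|Λ|⁻¹ ∑ |⟪φ_k, B φ_j⟫ - c(E_j) δ_{jk}|²`, the sum over the pairs `(j, k)` with `E_j ∈ J` and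
`|E_j - E_k| ≤ η` -/
def quantumVariance (Λ : Finset (Site d)) (B : Op d) (J : Set ℝ) (η : ℝ) (c : ℝ → ℂ) {n : ℕ}
    (φ : Fin n → L2 d) (E : Fin n → ℝ) : ℝ :=
  (Λ.card : ℝ)⁻¹ * ∑ j, ∑ k, if E j ∈ J ∧ |E j - E k| ≤ η then
    ‖⟪φ k, B (φ j)⟫_ℂ - (if j = k then c (E j) else 0)‖ ^ 2 else 0

open Classical in
theorem fv_compare {n : ℕ} {φ : Fin n → L2 d} {E : Fin n → ℝ} {B : Op d} {p q : RF}
    {c' : ℝ → ℂ} {J : Set ℝ} {θ η : ℝ} (hθ : 0 < θ) (hθ2 : θ < 1 / 2)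
    (hp : ∀ E ∈ J, 1 - θ ^ 2 ≤ ‖p.ev E‖) (hq : ∀ E, ‖c' E - q.ev E‖ ≤ θ ^ 2) :
    (∑ j, ∑ k, if E j ∈ J ∧ |E j - E k| ≤ η then
      ‖⟪φ k, B (φ j)⟫_ℂ - (if j = k then c' (E j) else 0)‖ ^ 2 else 0) ≤
    (1 + θ) * ((1 - θ ^ 2) ^ 2)⁻¹ * (∑ j, ∑ k, (if |E j - E k| ≤ η then
      ‖p.ev (E j)‖ ^ 2 * ‖⟪φ k, B (φ j)⟫_ℂ - (if j = k then q.ev (E j) else 0)‖ ^ 2 else 0)) +
      (1 + θ⁻¹) * θ ^ 4 * n := by
  have h1 : 0 < 1 - θ ^ 2 := by nlinarith
  have hα : 0 ≤ (1 + θ) * ((1 - θ ^ 2) ^ 2)⁻¹ := by positivity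
  have hterm : ∀ j k, (if E j ∈ J ∧ |E j - E k| ≤ η then
      ‖⟪φ k, B (φ j)⟫_ℂ - (if j = k then c' (E j) else 0)‖ ^ 2 else 0) ≤
      (1 + θ) * ((1 - θ ^ 2) ^ 2)⁻¹ * (if |E j - E k| ≤ η then
      ‖p.ev (E j)‖ ^ 2 * ‖⟪φ k, B (φ j)⟫_ℂ - (if j = k then q.ev (E j) else 0)‖ ^ 2 else 0) +
      (if j = k then (1 + θ⁻¹) * θ ^ 4 else 0) := by
    intro j k
    have h0 : 0 ≤ (if j = k then (1 + θ⁻¹) * θ ^ 4 else 0) := by
      split_ifs
      · positivity
      · exact le_rfl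
    by_cases hc : E j ∈ J ∧ |E j - E k| ≤ η
    · rw [if_pos hc, if_pos hc.2]
      have e1 : ⟪φ k, B (φ j)⟫_ℂ - (if j = k then c' (E j) else 0) =
          (⟪φ k, B (φ j)⟫_ℂ - (if j = k then q.ev (E j) else 0)) +
          (if j = k then q.ev (E j) - c' (E j) else 0) := by
        split_ifs <;> ring
      rw [e1]
      refine (norm_sq_add_le hθ _ _).trans ?_
      refine add_le_add ?_ ?_
      · have h2 := hp _ hc.1
        have h3 : (1 - θ ^ 2) ^ 2 ≤ ‖p.ev (E j)‖ ^ 2 := by gcongr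
        have h4 : 1 ≤ ((1 - θ ^ 2) ^ 2)⁻¹ * ‖p.ev (E j)‖ ^ 2 := by
          rw [le_inv_mul_iff₀ (by positivity), mul_one]
          exact h3
        set t := ‖⟪φ k, B (φ j)⟫_ℂ - (if j = k then q.ev (E j) else 0)‖ ^ 2 with ht
        have ht0 : 0 ≤ t := by positivity
        calc (1 + θ) * t = (1 + θ) * (1 * t) := by ring
          _ ≤ (1 + θ) * ((((1 - θ ^ 2) ^ 2)⁻¹ * ‖p.ev (E j)‖ ^ 2) * t) := by gcongr
          _ = _ := by ring
      · split_ifs
        · have h5 := hq (E j)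
          rw [norm_sub_rev] at h5
          have h6 : ‖q.ev (E j) - c' (E j)‖ ^ 2 ≤ θ ^ 4 := by
            calc _ ≤ (θ ^ 2) ^ 2 := by gcongr
              _ = _ := by ring
          gcongr
        · simp
    · rw [if_neg hc]
      have h2 : 0 ≤ (if |E j - E k| ≤ η then
          ‖p.ev (E j)‖ ^ 2 * ‖⟪φ k, B (φ j)⟫_ℂ - (if j = k then q.ev (E j) else 0)‖ ^ 2
          else 0) := by
        split_ifs <;> positivity
      positivity
  calc _ ≤ ∑ j, ∑ k, ((1 + θ) * ((1 - θ ^ 2) ^ 2)⁻¹ * (if |E j - E k| ≤ η then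
      ‖p.ev (E j)‖ ^ 2 * ‖⟪φ k, B (φ j)⟫_ℂ - (if j = k then q.ev (E j) else 0)‖ ^ 2 else 0) +
      (if j = k then (1 + θ⁻¹) * θ ^ 4 else 0)) :=
        Finset.sum_le_sum fun j _ => Finset.sum_le_sum fun k _ => hterm j k
    _ = _ := by
      simp only [Finset.sum_add_distrib, Finset.sum_ite_eq, Finset.mem_univ, if_true,
        Finset.sum_const, Finset.card_univ, Fintype.card_fin, nsmul_eq_mul]
      rw [Finset.mul_sum]
      congr 1
      · refine Finset.sum_congr rfl fun j _ => ?_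
        rw [Finset.mul_sum]
      · ring

/-- the main theorem, for the law of the potential -/
theorem core (hCons : ConsStatement) (hSW : SWStatement) (hDens : DensStatement)
    (hBox : BoxStatement) (hFV : FVStatement) (hAC2 : AC2Statement)
    {ν : Measure ℝ} [IsProbabilityMeasure ν] (hna : ∀ a : ℝ, ν {a} = 0)
    {m : Cfg d → Measure ℝ}
    (hm : ∀ᵐ V ∂(PP d ν), IsFiniteMeasure (m V) ∧
      ∀ z : ℂ, z.im ≠ 0 → G V z (del 0) 0 = ∫ E : ℝ, 1 / ((E : ℂ) - z) ∂(m V))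
    {B : Cfg d → Op d} (hB : Cov B) {K : ℝ} (hK : ∀ V, ‖B V‖ ≤ K)
    {I J : Set ℝ} (hI : IsOpen I) (hJ : IsCompact J) (hJI : J ⊆ I) {δ : ℝ} (hδ : 0 < δ) :
    ∃ (c : ℝ → ℂ) (η : ℝ) (Y : ℕ → Cfg d → ℝ≥0∞), Continuous c ∧ (∀ E, ‖c E‖ ≤ K) ∧ 0 < η ∧
      (∀ L, Measurable (Y L)) ∧
      (∀ (L : ℕ) (V : Cfg d) (n : ℕ) (φ : Fin n → L2 d) (E : Fin n → ℝ), Orthonormal ℂ φ →
        (∀ j, IsBoxEigen V (bx d L) (E j) (φ j)) →
        ENNReal.ofReal (quantumVariance (bx d L) (B V) J η c φ E) ≤ Y L V) ∧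
      ∀ᶠ L in atTop, ∫⁻ V, Y L V ∂(PP d ν) ≤ ENNReal.ofReal (4 * K ^ 2) *
        ∫⁻ V, ((m V).singularPart volume) I ∂(PP d ν) + ENNReal.ofReal δ := by
  have hK0 : 0 ≤ K := (norm_nonneg _).trans (hK 0)
  obtain ⟨θ, hθ, hθ2, ha, hb⟩ := exists_theta K hδ
  have h1θ : 0 < 1 - θ ^ 2 := by nlinarith
  -- the conserved part
  obtain ⟨A, hAcov, hAK, hAcm, hAlim⟩ := hCons d ν B hB K hK
  obtain ⟨e, c₀, g₀, he, he0, hc₀m, hc₀K, ⟨hg₀m, hg₀⟩, hmc⟩ := mc_gen hAcov hAcm hna hAK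
    step cauchy tight seq mp null graph zero
  have hg₀' : ∀ᵐ V ∂(PP d ν), ∀ᵐ E : ℝ, Tendsto (fun k => (G V (zz (e k) E) (del 0) 0).im)
      atTop (𝓝 (g₀ (V, E))) := by
    filter_upwards [Measure.ae_ae_of_ae_prod hg₀] with V hV
    exact ac_lam.ae_le hV
  have hν0 : (nu0 ν g₀) Set.univ ≤ 1 := by
    refine nu0_univ ν hg₀m ?_
    filter_upwards [hg₀'] with V hV
    exact g0_bound he hV
  have hfin0 : IsFiniteMeasure (nu0 ν g₀) := ⟨hν0.trans_lt ENNReal.one_lt_top⟩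
  -- approximation of the symbol
  obtain ⟨c', hc'c, hc's, hc'K, hcc⟩ := hDens (nu0 ν g₀) c₀ hc₀m K hK0 hc₀K θ hθ
  obtain ⟨q, hq⟩ := hSW c' hc'c hc's (θ ^ 2) (by positivity)
  -- the cut-off function
  obtain ⟨h, hh1, hh0, hhs, hh01⟩ := exists_continuous_one_zero_of_isCompact hJ
    hI.isClosed_compl (Set.disjoint_compl_right_iff_subset.2 hJI)
  obtain ⟨p, hp⟩ := hSW (fun E => ((h E : ℝ) : ℂ)) (Complex.continuous_ofReal.comp h.continuous)
    (hhs.comp_left Complex.ofReal_zero) (θ ^ 2) (by positivity)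
  have hp1 : ∀ E, ‖p.ev E‖ ≤ 1 + θ ^ 2 := by
    intro E
    have h1 := norm_sub_norm_le (p.ev E) ((h E : ℝ) : ℂ)
    rw [norm_sub_rev] at h1
    have h2 : ‖((h E : ℝ) : ℂ)‖ ≤ 1 := by
      rw [Complex.norm_real, Real.norm_of_nonneg (hh01 E).1]; exact (hh01 E).2
    linarith [hp E]
  have hp2 : ∀ E ∉ I, ‖p.ev E‖ ≤ θ ^ 2 := by
    intro E hE
    have h1 := hp E
    have h2 : h E = 0 := hh0 hE
    rw [h2, Complex.ofReal_zero, zero_sub, norm_neg] at h1
    exact h1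
  have hpJ : ∀ E ∈ J, 1 - θ ^ 2 ≤ ‖p.ev E‖ := by
    intro E hE
    have h1 := norm_sub_norm_le ((h E : ℝ) : ℂ) (p.ev E)
    have h2 : h E = 1 := hh1 hE
    have h3 := hp E
    rw [h2, Complex.ofReal_one] at h1 h3
    rw [norm_one] at h1
    linarith
  have hqQ : ∀ E, ‖q.ev E‖ ≤ K + θ ^ 2 := by
    intro E
    have h1 := norm_sub_norm_le (q.ev E) (c' E)
    rw [norm_sub_rev] at h1
    linarith [hq E, hc'K E]
  -- infinite volume
  set X : Cfg d → ℝ≥0∞ := fun V => ‖A V (p.op V (del 0)) - q.op V (p.op V (del 0))‖ₑ ^ 2 with hX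
  set ns : ℝ≥0∞ := ∫⁻ V, ((m V).singularPart volume) I ∂(PP d ν) with hns
  have hXle : ∫⁻ V, X V ∂(PP d ν) ≤
      ENNReal.ofReal ((1 + θ ^ 2) ^ 2 * (2 * θ + 2 * θ ^ 4) + (2 * K + θ ^ 2) ^ 2 * θ ^ 4) +
      ENNReal.ofReal ((2 * K + θ ^ 2) ^ 2 * (1 + θ ^ 2) ^ 2) * ns := by
    refine inf_vol hc₀m hc'c hg₀m hK0 hθ hI.measurableSet ?_ hp1 hp2 hq hν0 hcc ?_
    · filter_upwards [hmc, hg₀', hm] with V h1 h2 h3
      exact hAC2 d V (A V) (hAcm V) K (hAK V) c₀ hc₀m hc₀K e he he0 (h1 0)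
        (fun E => g₀ (V, E)) (hg₀m.comp measurable_prodMk_left) h2 (m V) h3.1 h3.2 p q
        (K + θ ^ 2) hqQ
    · filter_upwards [hm] with V h3
      exact mass_le_one h3.1 h3.2
  have hns1 : ns ≤ 1 := by
    calc ns ≤ ∫⁻ _ : Cfg d, (1 : ℝ≥0∞) ∂(PP d ν) := by
          refine lintegral_mono_ae ?_
          filter_upwards [hm] with V h3
          exact (Measure.singularPart_le (m V) volume I).trans
            ((measure_mono (Set.subset_univ _)).trans (mass_le_one h3.1 h3.2))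
      _ = 1 := by simp
  -- the choice of the number of steps
  obtain ⟨Kp, hKp0, hKp⟩ := right d ν p
  have hlimN : Tendsto (fun N => ENNReal.ofReal ((1 + θ) ^ 2 * ((1 - θ ^ 2) ^ 2)⁻¹ * (1 + θ⁻¹) *
      Kp) * ∫⁻ V, ‖avg V N (B V) (del 0) - A V (del 0)‖ₑ ^ 2 ∂(PP d ν)) atTop (𝓝 0) := by
    have := ENNReal.Tendsto.const_mul (a := ENNReal.ofReal ((1 + θ) ^ 2 *
      ((1 - θ ^ 2) ^ 2)⁻¹ * (1 + θ⁻¹) * Kp)) hAlim (Or.inr ENNReal.ofReal_ne_top)
    rwa [mul_zero] at this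
  obtain ⟨N, hN⟩ := (hlimN.eventually (Iio_mem_nhds
    (show (0:ℝ≥0∞) < ENNReal.ofReal (δ / 4) by
      rw [ENNReal.ofReal_pos]; positivity))).exists
  have hN2 : ENNReal.ofReal ((1 + θ) ^ 2 * ((1 - θ ^ 2) ^ 2)⁻¹ * (1 + θ⁻¹) * Kp) *
      ∫⁻ V, ‖avg V N (B V) (del 0) - A V (del 0)‖ₑ ^ 2 ∂(PP d ν) ≤ ENNReal.ofReal (δ / 4) :=
    le_of_lt hN
  obtain ⟨η, K', hη, hfv⟩ := hFV d K N p q θ hθ
  -- the dominating sequence
  set W : Cfg d → Op d := fun V => (avg V N (B V) - q.op V) * p.op V with hW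
  have hWcov : Cov W := ((cov_avg hB N).sub (cov_rf q)).mul (cov_rf p)
  set α : ℝ := (1 + θ) ^ 2 * ((1 - θ ^ 2) ^ 2)⁻¹ with hα
  have hα0 : 0 ≤ α := by positivity
  set β : ℕ → ℝ := fun L => (1 + θ) * ((1 - θ ^ 2) ^ 2)⁻¹ * |K'| *
    (((bdry (bx d L)).card : ℝ) / ((bx d L).card : ℝ)) + (1 + θ⁻¹) * θ ^ 4 with hβ
  have hbx : ∀ L, 0 < ((bx d L).card : ℝ) := by
    intro L
    have : (bx d L).Nonempty := ⟨0, by
      unfold bx
      rw [Fintype.mem_piFinset]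
      intro i
      simp⟩
    exact_mod_cast this.card_pos
  have hβ0 : ∀ L, 0 ≤ β L := by
    intro L
    have := (hbx L).le
    simp only [hβ]
    positivity
  refine ⟨c', η, fun L V => ENNReal.ofReal (α * ((bx d L).card : ℝ)⁻¹) *
    (∑ x ∈ bx d L, ‖W V (del x)‖ₑ ^ 2) + ENNReal.ofReal (β L), hc'c, hc'K, hη, ?_, ?_, ?_⟩
  · intro L
    refine (Measurable.const_mul ?_ _).add_const _
    exact Finset.measurable_sum _ fun x _ => (hWcov.meas (del x)).enorm.pow_const 2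
  · intro L V n φ E hφ hbox
    have h1 := hfv V (bx d L) (B V) (hK V) n φ E hφ hbox
    have h2 := fv_compare (φ := φ) (E := E) (B := B V) (η := η) hθ hθ2 hpJ hq
    have h3 : (n : ℝ) ≤ ((bx d L).card : ℝ) := by
      exact_mod_cast card_le hφ fun j x hx => (hbox j).1 x hx
    have hc := hbx L
    have h4 : quantumVariance (bx d L) (B V) J η c' φ E ≤
        α * ((bx d L).card : ℝ)⁻¹ * (∑ x ∈ bx d L, ‖W V (del x)‖ ^ 2) + β L := by
      unfold quantumVariance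
      have h5 : (1 + θ) * ((1 - θ ^ 2) ^ 2)⁻¹ * (∑ j, ∑ k, (if |E j - E k| ≤ η then
          ‖p.ev (E j)‖ ^ 2 * ‖⟪φ k, B V (φ j)⟫_ℂ - (if j = k then q.ev (E j) else 0)‖ ^ 2
          else 0)) ≤ (1 + θ) * ((1 - θ ^ 2) ^ 2)⁻¹ *
          ((1 + θ) * (∑ x ∈ bx d L, ‖W V (del x)‖ ^ 2) + |K'| * ((bdry (bx d L)).card : ℝ)) := by
        refine mul_le_mul_of_nonneg_left (h1.trans ?_) (by positivity)
        have h6 : K' * ((bdry (bx d L)).card : ℝ) ≤ |K'| * ((bdry (bx d L)).card : ℝ) :=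
          mul_le_mul_of_nonneg_right (le_abs_self _) (by positivity)
        have h7 : ∀ x, ‖(avg V N (B V) - q.op V) (p.op V (del x))‖ = ‖W V (del x)‖ := fun x => rfl
        simp only [h7]
        linarith
      have h8 : (1 + θ⁻¹) * θ ^ 4 * n ≤ (1 + θ⁻¹) * θ ^ 4 * ((bx d L).card : ℝ) :=
        mul_le_mul_of_nonneg_left h3 (by positivity)
      refine (mul_le_mul_of_nonneg_left (h2.trans (add_le_add h5 h8))
        (inv_nonneg.2 hc.le)).trans (le_of_eq ?_)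
      simp only [hα, hβ]
      field_simp
      ring
    refine (ENNReal.ofReal_le_ofReal h4).trans ?_
    rw [ENNReal.ofReal_add (by positivity) (hβ0 L), ENNReal.ofReal_mul (by positivity),
      ENNReal.ofReal_sum_of_nonneg fun x _ => by positivity]
    simp only [← enorm_sq_eq]
    exact le_rfl
  · -- the expectation
    have hWint : ∫⁻ V, ‖W V (del 0)‖ₑ ^ 2 ∂(PP d ν) ≤
        ENNReal.ofReal (1 + θ) * (∫⁻ V, X V ∂(PP d ν)) + ENNReal.ofReal (1 + θ⁻¹) *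
          (ENNReal.ofReal Kp *
            ∫⁻ V, ‖avg V N (B V) (del 0) - A V (del 0)‖ₑ ^ 2 ∂(PP d ν)) := by
      have hD := (cov_avg hB N).sub hAcov
      have hXm : Measurable X := by
        have h1 : StronglyMeasurable fun V => (A V * p.op V) (del 0) :=
          (hAcov.mul (cov_rf p)).meas _
        have h2 : StronglyMeasurable fun V : Cfg d => (q.op V * p.op V) (del 0) :=
          ((cov_rf q).mul (cov_rf p)).meas _
        exact (h1.sub h2).enorm.pow_const 2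
      calc _ ≤ ∫⁻ V, (ENNReal.ofReal (1 + θ) * X V + ENNReal.ofReal (1 + θ⁻¹) *
            ‖(avg V N (B V) - A V) (p.op V (del 0))‖ₑ ^ 2) ∂(PP d ν) := by
            refine lintegral_mono fun V => ?_
            have e1 : W V (del 0) = (A V (p.op V (del 0)) - q.op V (p.op V (del 0))) +
                (avg V N (B V) - A V) (p.op V (del 0)) := by
              have : W V (del 0) = avg V N (B V) (p.op V (del 0)) - q.op V (p.op V (del 0)) := rfl
              rw [this, _root_.sub_apply]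
              abel
            rw [e1]
            exact enorm_sq_add_le hθ _ _
        _ = ENNReal.ofReal (1 + θ) * (∫⁻ V, X V ∂(PP d ν)) + ENNReal.ofReal (1 + θ⁻¹) *
            ∫⁻ V, ‖(avg V N (B V) - A V) (p.op V (del 0))‖ₑ ^ 2 ∂(PP d ν) := by
            rw [lintegral_add_left (hXm.const_mul _), lintegral_const_mul' _ _
              ENNReal.ofReal_ne_top, lintegral_const_mul' _ _ ENNReal.ofReal_ne_top]
        _ ≤ _ := by
            gcongr
            exact hKp _ hD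
    have hYint : ∀ L, ∫⁻ V, (ENNReal.ofReal (α * ((bx d L).card : ℝ)⁻¹) *
        (∑ x ∈ bx d L, ‖W V (del x)‖ₑ ^ 2) + ENNReal.ofReal (β L)) ∂(PP d ν) =
        ENNReal.ofReal α * (∫⁻ V, ‖W V (del 0)‖ₑ ^ 2 ∂(PP d ν)) + ENNReal.ofReal (β L) := by
      intro L
      rw [lintegral_add_right _ measurable_const, lintegral_const, measure_univ, mul_one,
        lintegral_const_mul' _ _ ENNReal.ofReal_ne_top,
        lintegral_finsetSum _ fun x _ => (hWcov.meas (del x)).enorm.pow_const 2]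
      simp only [trace_site ν hWcov]
      rw [Finset.sum_const, nsmul_eq_mul, ← mul_assoc]
      congr 2
      rw [← ENNReal.ofReal_natCast, ← ENNReal.ofReal_mul (by positivity), mul_assoc,
        inv_mul_cancel₀ (hbx L).ne', mul_one]
    have hβlim : Tendsto β atTop (𝓝 ((1 + θ) * ((1 - θ ^ 2) ^ 2)⁻¹ * |K'| * 0 +
        (1 + θ⁻¹) * θ ^ 4)) := ((hBox d).const_mul _).add_const _
    rw [mul_zero, zero_add] at hβlim
    have e34 : (1 + θ⁻¹) * θ ^ 4 = θ ^ 4 + θ ^ 3 := by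
      have := hθ.ne'
      field_simp
    have hβev : ∀ᶠ L in atTop, β L < θ ^ 4 + θ ^ 3 + δ / 4 := by
      refine hβlim.eventually (Iio_mem_nhds ?_)
      rw [e34]; linarith
    filter_upwards [hβev] with L hL
    rw [hYint L]
    -- combine
    set a : ℝ := (2 * K + θ ^ 2) ^ 2 * (1 + θ ^ 2) ^ 2 with ha'
    set b : ℝ := (1 + θ ^ 2) ^ 2 * (2 * θ + 2 * θ ^ 4) + (2 * K + θ ^ 2) ^ 2 * θ ^ 4 with hb'
    have ha0 : 0 ≤ a := by positivity
    have hb0 : 0 ≤ b := by positivity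
    calc _ ≤ ENNReal.ofReal α * (ENNReal.ofReal (1 + θ) * (ENNReal.ofReal b +
          ENNReal.ofReal a * ns) + ENNReal.ofReal (1 + θ⁻¹) * (ENNReal.ofReal Kp *
            ∫⁻ V, ‖avg V N (B V) (del 0) - A V (del 0)‖ₑ ^ 2 ∂(PP d ν))) +
          ENNReal.ofReal (θ ^ 4 + θ ^ 3 + δ / 4) := by
          gcongr
          refine hWint.trans ?_
          gcongr
      _ = ENNReal.ofReal (α * (1 + θ) * b) + ENNReal.ofReal (α * (1 + θ) * a) * ns +
          ENNReal.ofReal ((1 + θ) ^ 2 * ((1 - θ ^ 2) ^ 2)⁻¹ * (1 + θ⁻¹) * Kp) *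
            ∫⁻ V, ‖avg V N (B V) (del 0) - A V (del 0)‖ₑ ^ 2 ∂(PP d ν) +
          ENNReal.ofReal (θ ^ 4 + θ ^ 3 + δ / 4) := by
          rw [ENNReal.ofReal_mul (p := α * (1 + θ)) (by positivity),
            ENNReal.ofReal_mul (p := α * (1 + θ)) (q := a) (by positivity),
            ENNReal.ofReal_mul (p := α) (q := 1 + θ) (by positivity),
            ← hα, ENNReal.ofReal_mul (p := α * (1 + θ⁻¹)) (q := Kp) (by positivity),
            ENNReal.ofReal_mul (p := α) (q := 1 + θ⁻¹) (by positivity)]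
          ring
      _ ≤ ENNReal.ofReal (α * (1 + θ) * b) + (ENNReal.ofReal (4 * K ^ 2) * ns +
          ENNReal.ofReal (δ / 4)) + ENNReal.ofReal (δ / 4) +
          ENNReal.ofReal (θ ^ 4 + θ ^ 3 + δ / 4) := by
          have h1 : α * (1 + θ) * a ≤ 4 * K ^ 2 + δ / 4 := by
            refine le_trans (le_of_eq ?_) ha
            rw [hα, ha']; ring
          have h2 : ENNReal.ofReal (α * (1 + θ) * a) * ns ≤
              ENNReal.ofReal (4 * K ^ 2) * ns + ENNReal.ofReal (δ / 4) := by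
            calc _ ≤ ENNReal.ofReal (4 * K ^ 2 + δ / 4) * ns := by gcongr
              _ = ENNReal.ofReal (4 * K ^ 2) * ns + ENNReal.ofReal (δ / 4) * ns := by
                rw [ENNReal.ofReal_add (by positivity) (by positivity), add_mul]
              _ ≤ ENNReal.ofReal (4 * K ^ 2) * ns + ENNReal.ofReal (δ / 4) * 1 := by gcongr
              _ = _ := by rw [mul_one]
          gcongr
      _ = ENNReal.ofReal (4 * K ^ 2) * ns + (ENNReal.ofReal (α * (1 + θ) * b) +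
          ENNReal.ofReal (θ ^ 4 + θ ^ 3 + δ / 4) + ENNReal.ofReal (δ / 4) +
          ENNReal.ofReal (δ / 4)) := by ring
      _ ≤ ENNReal.ofReal (4 * K ^ 2) * ns + ENNReal.ofReal δ := by
          gcongr
          rw [← ENNReal.ofReal_add (by positivity) (by positivity),
            ← ENNReal.ofReal_add (by positivity) (by positivity),
            ← ENNReal.ofReal_add (by positivity) (by positivity)]
          refine ENNReal.ofReal_le_ofReal ?_
          have h3 : α * (1 + θ) * b + (θ ^ 4 + θ ^ 3) ≤ δ / 4 := by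
            refine le_trans (le_of_eq ?_) hb
            rw [hα, hb']; ring
          linarith

end Pool.Agent.QE
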