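import Pool.Agent.Helper54_QE.MainG
import Pool.Agent.Helper14_QE.SW
import Pool.Agent.Helper14_QE.Dens
import Pool.Agent.Helper14_QE.AC2Main
import Pool.Agent.Helper51_QE.Cons
import Pool.Agent.Helper55_QE.FV
import Pool.Agent.Helper55_QE.Box
import Pool.Agent.Helper83_QE.Spec

/-!
# Quantum ergodicity of eigenfunctions in boxes: the statement for an i.i.d. sequence
-/

set_option autoImplicit false
set_option linter.unusedSectionVars false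

open scoped InnerProductSpace ComplexConjugate Topology ENNReal
open MeasureTheory Filter

noncomputable section

namespace Pool.Agent.QE

open Pool.Agent.Anderson Pool.Agent.Helper54.Bal

variable {d : ℕ}

theorem main_QE (μ : Measure ℝ) [IsProbabilityMeasure μ]
    (hna : ∀ a : ℝ, μ {a} = 0) (σ : ℝ) (hσ : σ ≠ 0) (m : Cfg d → Measure ℝ)
    (hm : ∀ V : Cfg d, IsFiniteMeasure (m V) ∧ ∀ z : ℂ, z.im ≠ 0 → ∀ u : L2 d,
      (∀ x, lap u x + ((V x : ℂ) - z) * u x = if x = 0 then 1 else 0) →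
        u 0 = ∫ E : ℝ, 1 / ((E : ℂ) - z) ∂(m V))
    (B : Cfg d → Op d) (hBm : ∀ f, StronglyMeasurable fun ξ => B ξ f) (K : ℝ)
    (hK : ∀ᵐ ξ ∂(PP d μ), ‖B ξ‖ ≤ K)
    (hcov : ∀ a : Site d, ∀ᵐ ξ ∂(PP d μ), ∀ f, B (tau a ξ) (shift a f) = shift a (B ξ f))
    {I J : Set ℝ} (hI : IsOpen I) (hJ : IsCompact J) (hJI : J ⊆ I) {δ : ℝ} (hδ : 0 < δ) :
    ∃ (c : ℝ → ℂ) (η : ℝ) (Y : ℕ → Cfg d → ℝ≥0∞), Continuous c ∧ (∀ E, ‖c E‖ ≤ K) ∧ 0 < η ∧
      (∀ L, Measurable (Y L)) ∧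
      (∀ᵐ ξ ∂(PP d μ), ∀ (L : ℕ) (n : ℕ) (φ : Fin n → L2 d) (E : Fin n → ℝ),
        Orthonormal ℂ φ → (∀ j, IsBoxEigen (fun x => σ * ξ x) (bx d L) (E j) (φ j)) →
        ENNReal.ofReal (quantumVariance (bx d L) (B ξ) J η c φ E) ≤ Y L ξ) ∧
      ∀ᶠ L in atTop, ∫⁻ ξ, Y L ξ ∂(PP d μ) ≤ ENNReal.ofReal (4 * K ^ 2) *
        ∫⁻ ξ, ((m fun x => σ * ξ x).singularPart volume) I ∂(PP d μ) + ENNReal.ofReal δ := by
  have hK0 : 0 ≤ K := by
    obtain ⟨ξ, hξ⟩ := hK.exists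
    exact (norm_nonneg _).trans hξ
  set ν : Measure ℝ := μ.map fun r => σ * r with hν
  set B₁ : Cfg d → Op d := fun V => B (sc σ⁻¹ V) with hB₁
  have hqi := (mp_sc_inv (d := d) μ hσ).quasiMeasurePreserving
  have h1 : ∀ f, StronglyMeasurable fun V => B₁ V f := fun f =>
    (hBm f).comp_measurable (mp_sc_inv (d := d) μ hσ).measurable
  have h2 : ∀ᵐ V ∂(PP d ν), ‖B₁ V‖ ≤ K := hqi.ae hK
  have h3 : ∀ a : Site d, ∀ᵐ V ∂(PP d ν), ∀ f, B₁ (tau a V) (shift a f) = shift a (B₁ V f) :=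
    fun a => hqi.ae (hcov a)
  obtain ⟨B₂, hcov2, hb2, hae2, -⟩ := exists_reg h1 hK0 h2 h3 (Q := fun _ => True)
    (Eventually.of_forall fun _ => trivial)
  have hm' : ∀ᵐ V ∂(PP d ν), IsFiniteMeasure (m V) ∧
      ∀ z : ℂ, z.im ≠ 0 → G V z (del 0) 0 = ∫ E : ℝ, 1 / ((E : ℂ) - z) ∂(m V) := by
    refine Eventually.of_forall fun V => ⟨(hm V).1, fun z hz => ?_⟩
    refine (hm V).2 z hz _ fun x => ?_
    rw [G_eq hz, del_apply]
  obtain ⟨c, η, Y, hc, hcK, hη, hYm, hY, hlim⟩ := core Helper51.cons Helper14.QE.sw Helper14.QE.dens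
    Helper55_QE.box Helper55_QE.fv Helper14.QE.ac2 (atomless_mul hna hσ) hm' hcov2 hb2 hI hJ hJI hδ
  have hmp := mp_sc (d := d) μ σ
  refine ⟨c, η, fun L ξ => Y L (sc σ ξ), hc, hcK, hη, fun L => (hYm L).comp hmp.measurable,
    ?_, ?_⟩
  · filter_upwards [hmp.quasiMeasurePreserving.ae hae2] with ξ hξ
    intro L n φ E hφ hbox
    have h4 := hY L (sc σ ξ) n φ E hφ hbox
    rw [hξ] at h4
    simp only [hB₁, sc_sc hσ] at h4
    exact h4
  · filter_upwards [hlim] with L hL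
    rw [← hmp.lintegral_comp (hYm L)] at hL
    have hns : ∫⁻ V, ((m V).singularPart volume) I ∂(PP d ν) ≤
        ∫⁻ ξ, ((m fun x => σ * ξ x).singularPart volume) I ∂(PP d μ) := by
      rw [← hmp.map_eq]
      exact lintegral_map_le _ _
    refine hL.trans ?_
    gcongr

end Pool.Agent.QE
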