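import Pool.Agent.Helper54_QE.Rank

/-!
# Limits along a sequence of energies approaching the real axis
-/

set_option autoImplicit false
set_option linter.unusedSectionVars false

open scoped InnerProductSpace ComplexConjugate Topology ENNReal
open MeasureTheory Filter

noncomputable section

namespace Pool.Agent.QE

open Pool.Agent.Anderson Pool.Agent.Helper54.Bal

variable {d : ℕ}

/-- boundary values of the Green function along a sequence -/
def GLim (V : Cfg d) (E : ℝ) (e : ℕ → ℝ) (g : Site d → Site d → ℂ) : Prop :=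
  ∀ x y, Tendsto (fun k => G V (zz (e k) E) (del y) x) atTop (𝓝 (g x y))

/-- boundary values of `⟪δ_x, G A δ_x⟫` along a sequence -/
def ALim (A : Op d) (V : Cfg d) (E : ℝ) (e : ℕ → ℝ) (h : Site d → ℂ) : Prop :=
  ∀ x, Tendsto (fun k => G V (zz (e k) E) (A (del x)) x) atTop (𝓝 (h x))

/-- the residual at `x` vanishes asymptotically -/
def Par (A : Op d) (V : Cfg d) (E : ℝ) (e : ℕ → ℝ) (x : Site d) : Prop :=
  Tendsto (fun k => Real.sqrt (e k) * ‖rr A V (zz (e k) E) x‖) atTop (𝓝 0)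

/-- the boundary value of the local value of the observable -/
def av (g : Site d → Site d → ℂ) (h : Site d → ℂ) (x : Site d) : ℝ := (h x).im / (g x x).im

section basic

variable {V : Cfg d} {E : ℝ} {e : ℕ → ℝ} (he : ∀ k, 0 < e k)

include he in
theorem zk_im (k : ℕ) : 0 < (zz (e k) E).im := by rw [zz_im]; exact he k

variable {g : Site d → Site d → ℂ} (hg : GLim V E e g)

include he hg

theorem GLim.symm (x y : Site d) : g x y = g y x := by
  refine tendsto_nhds_unique (hg x y) ?_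
  refine (hg y x).congr fun k => ?_
  exact G_symm (zk_im he k).ne' y x

theorem GLim.im_nonneg (x : Site d) : 0 ≤ (g x x).im := by
  refine ge_of_tendsto' ((Complex.continuous_im.tendsto _).comp (hg x x)) fun k => ?_
  exact (im_G_del_pos (zk_im he k) x).le

theorem GLim.norm_sq (x : Site d) :
    Tendsto (fun k => e k * ‖G V (zz (e k) E) (del x)‖ ^ 2) atTop (𝓝 (g x x).im) := by
  refine ((Complex.continuous_im.tendsto _).comp (hg x x)).congr fun k => ?_
  simp only [Function.comp_apply]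
  rw [im_G_del' (zk_im he k).ne', zz_im]

theorem GLim.norm (x : Site d) :
    Tendsto (fun k => Real.sqrt (e k) * ‖G V (zz (e k) E) (del x)‖) atTop
      (𝓝 (Real.sqrt (g x x).im)) := by
  refine ((GLim.norm_sq he hg x).sqrt).congr fun k => ?_
  rw [Real.sqrt_mul (he k).le, Real.sqrt_sq (norm_nonneg _)]

theorem GLim.gram (x y : Site d) :
    Tendsto (fun k => (e k : ℂ) * ⟪G V (zz (e k) E) (del y), G V (zz (e k) E) (del x)⟫_ℂ) atTop
      (𝓝 ((g y x).im : ℂ)) := by
  have h1 : Tendsto (fun k => ((G V (zz (e k) E) (del x) y).im : ℂ)) atTop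
      (𝓝 ((g y x).im : ℂ)) :=
    (Complex.continuous_ofReal.tendsto _).comp ((Complex.continuous_im.tendsto _).comp (hg y x))
  refine h1.congr fun k => ?_
  have := gram_del (V := V) (zk_im he k (E := E)).ne' x y
  rw [zz_im] at this
  exact this.symm

theorem GLim.eqn (he0 : Tendsto e atTop (𝓝 0)) (x y : Site d) :
    lap (fun w => g w y) x + ((V x : ℂ) - E) * g x y = if x = y then 1 else 0 := by
  have h1 : Tendsto (fun k => lap (G V (zz (e k) E) (del y)) x +
      ((V x : ℂ) - zz (e k) E) * G V (zz (e k) E) (del y) x) atTop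
      (𝓝 (lap (fun w => g w y) x + ((V x : ℂ) - E) * g x y)) := by
    refine Tendsto.add ?_ (Tendsto.mul ?_ (hg x y))
    · unfold lap
      exact tendsto_finsetSum _ fun i _ => (hg _ y).add (hg _ y)
    · refine Tendsto.const_sub _ ?_
      unfold zz
      have h2 : Tendsto (fun k => (e k : ℂ) * Complex.I) atTop (𝓝 ((0 : ℝ) * Complex.I)) :=
        ((Complex.continuous_ofReal.tendsto 0).comp he0).mul_const _
      have h3 := h2.const_add (E : ℂ)
      simpa using h3
  refine tendsto_nhds_unique h1 ?_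
  refine tendsto_const_nhds.congr fun k => ?_
  rw [G_eq (zk_im he k).ne', del_apply]

end basic

section obs

variable {V : Cfg d} {E : ℝ} {e : ℕ → ℝ} (he : ∀ k, 0 < e k)
  {A : Op d} (hsa : ∀ f g : L2 d, ⟪A f, g⟫_ℂ = ⟪f, A g⟫_ℂ)
  (hcm : ∀ z : ℂ, z.im ≠ 0 → ∀ f : L2 d, A (G V z f) = G V z (A f))
  {g : Site d → Site d → ℂ} (hg : GLim V E e g) {h : Site d → ℂ} (hh : ALim A V E e h)

include hg hh in
theorem tendsto_aa {x : Site d} (hx : 0 < (g x x).im) :
    Tendsto (fun k => aa A V (zz (e k) E) x) atTop (𝓝 (av g h x)) := by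
  unfold aa av
  exact ((Complex.continuous_im.tendsto _).comp (hh x)).div
    ((Complex.continuous_im.tendsto _).comp (hg x x)) hx.ne'

include he hsa hcm hg hh

/-- two sites with correlated Green function carry the same value -/
theorem cross {x y : Site d} (px : Par A V E e x) (py : Par A V E e y)
    (hx : 0 < (g x x).im) (hy : 0 < (g y y).im) :
    (av g h x - av g h y) * (g y x).im = 0 := by
  have t1 : Tendsto (fun k => ((aa A V (zz (e k) E) x : ℝ) : ℂ) *
      ((e k : ℂ) * ⟪G V (zz (e k) E) (del y), G V (zz (e k) E) (del x)⟫_ℂ)) atTop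
      (𝓝 ((av g h x : ℂ) * ((g y x).im : ℂ))) :=
    ((Complex.continuous_ofReal.tendsto _).comp (tendsto_aa hg hh hx)).mul (GLim.gram he hg x y)
  have t2 : Tendsto (fun k => ((aa A V (zz (e k) E) y : ℝ) : ℂ) *
      ((e k : ℂ) * ⟪G V (zz (e k) E) (del y), G V (zz (e k) E) (del x)⟫_ℂ)) atTop
      (𝓝 ((av g h y : ℂ) * ((g y x).im : ℂ))) :=
    ((Complex.continuous_ofReal.tendsto _).comp (tendsto_aa hg hh hy)).mul (GLim.gram he hg x y)
  -- the difference tends to zero
  have t3 : Tendsto (fun k => (e k : ℂ) * ⟪rr A V (zz (e k) E) y, G V (zz (e k) E) (del x)⟫_ℂ -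
      (e k : ℂ) * ⟪G V (zz (e k) E) (del y), rr A V (zz (e k) E) x⟫_ℂ) atTop (𝓝 0) := by
    have b1 : Tendsto (fun k => (Real.sqrt (e k) * ‖rr A V (zz (e k) E) y‖) *
        (Real.sqrt (e k) * ‖G V (zz (e k) E) (del x)‖) +
        (Real.sqrt (e k) * ‖G V (zz (e k) E) (del y)‖) *
        (Real.sqrt (e k) * ‖rr A V (zz (e k) E) x‖)) atTop
        (𝓝 (0 * Real.sqrt (g x x).im + Real.sqrt (g y y).im * 0)) :=
      (py.mul (GLim.norm he hg x)).add ((GLim.norm he hg y).mul px)
    rw [zero_mul, mul_zero, add_zero] at b1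
    refine squeeze_zero_norm (fun k => ?_) b1
    have hs : e k = Real.sqrt (e k) * Real.sqrt (e k) := (Real.mul_self_sqrt (he k).le).symm
    refine (norm_sub_le _ _).trans (add_le_add ?_ ?_)
    · rw [norm_mul, Complex.norm_real, Real.norm_of_nonneg (he k).le]
      have := norm_inner_le_norm (𝕜 := ℂ) (rr A V (zz (e k) E) y) (G V (zz (e k) E) (del x))
      calc e k * ‖⟪rr A V (zz (e k) E) y, G V (zz (e k) E) (del x)⟫_ℂ‖ ≤
          e k * (‖rr A V (zz (e k) E) y‖ * ‖G V (zz (e k) E) (del x)‖) :=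
            mul_le_mul_of_nonneg_left this (he k).le
        _ = (Real.sqrt (e k) * Real.sqrt (e k)) *
            (‖rr A V (zz (e k) E) y‖ * ‖G V (zz (e k) E) (del x)‖) := by rw [← hs]
        _ = _ := by ring
    · rw [norm_mul, Complex.norm_real, Real.norm_of_nonneg (he k).le]
      have := norm_inner_le_norm (𝕜 := ℂ) (G V (zz (e k) E) (del y)) (rr A V (zz (e k) E) x)
      calc e k * ‖⟪G V (zz (e k) E) (del y), rr A V (zz (e k) E) x⟫_ℂ‖ ≤
          e k * (‖G V (zz (e k) E) (del y)‖ * ‖rr A V (zz (e k) E) x‖) :=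
            mul_le_mul_of_nonneg_left this (he k).le
        _ = (Real.sqrt (e k) * Real.sqrt (e k)) *
            (‖G V (zz (e k) E) (del y)‖ * ‖rr A V (zz (e k) E) x‖) := by rw [← hs]
        _ = _ := by ring
  have t4 : Tendsto (fun k => (e k : ℂ) * ⟪rr A V (zz (e k) E) y, G V (zz (e k) E) (del x)⟫_ℂ -
      (e k : ℂ) * ⟪G V (zz (e k) E) (del y), rr A V (zz (e k) E) x⟫_ℂ) atTop
      (𝓝 ((av g h x : ℂ) * ((g y x).im : ℂ) - (av g h y : ℂ) * ((g y x).im : ℂ))) := by
    refine (t1.sub t2).congr fun k => ?_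
    have e1 : ⟪A (G V (zz (e k) E) (del y)), G V (zz (e k) E) (del x)⟫_ℂ =
        ⟪G V (zz (e k) E) (del y), A (G V (zz (e k) E) (del x))⟫_ℂ := hsa _ _
    rw [A_G_del A V _ y, A_G_del A V _ x, inner_add_left, inner_add_right, inner_smul_left,
      inner_smul_right, Complex.conj_ofReal] at e1
    linear_combination (-(e k : ℂ)) * e1
  have t5 := tendsto_nhds_unique t4 t3
  rw [← sub_mul] at t5
  have t6 : (((av g h x - av g h y) * (g y x).im : ℝ) : ℂ) = 0 := by
    push_cast; exact t5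
  exact_mod_cast t6

end obs

section pair

variable {V : Cfg d} {x₀ : Site d} {s : ℝ} {E : ℝ} {e : ℕ → ℝ} (he : ∀ k, 0 < e k)
  (hs : s ≠ V x₀)
  {g g' : Site d → Site d → ℂ} (hg : GLim V E e g)
  (hg' : GLim (Function.update V x₀ s) E e g')

include he hg hg'

theorem factor_lim : (1 + ((s : ℂ) - V x₀) * g x₀ x₀) * (1 - ((s : ℂ) - V x₀) * g' x₀ x₀) = 1 := by
  have h1 : Tendsto (fun k => (1 + ((s : ℂ) - V x₀) * G V (zz (e k) E) (del x₀) x₀) *
      (1 - ((s : ℂ) - V x₀) * G (Function.update V x₀ s) (zz (e k) E) (del x₀) x₀)) atTop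
      (𝓝 ((1 + ((s : ℂ) - V x₀) * g x₀ x₀) * (1 - ((s : ℂ) - V x₀) * g' x₀ x₀))) :=
    (((hg x₀ x₀).const_mul _).const_add _).mul (((hg' x₀ x₀).const_mul _).const_sub _)
  refine tendsto_nhds_unique h1 ?_
  refine tendsto_const_nhds.congr fun k => ?_
  exact (factor_mul (zk_im he k).ne').symm

theorem factor_ne : (1 - ((s : ℂ) - V x₀) * g' x₀ x₀) ≠ 0 := by
  intro h
  have := factor_lim he hg hg'
  rw [h, mul_zero] at this
  exact zero_ne_one this

theorem im_upd : (g' x₀ x₀).im = ‖1 - ((s : ℂ) - V x₀) * g' x₀ x₀‖ ^ 2 * (g x₀ x₀).im := by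
  have h1 : Tendsto (fun k => ‖1 - ((s : ℂ) - V x₀) *
      G (Function.update V x₀ s) (zz (e k) E) (del x₀) x₀‖ ^ 2 *
      (e k * ‖G V (zz (e k) E) (del x₀)‖ ^ 2)) atTop
      (𝓝 (‖1 - ((s : ℂ) - V x₀) * g' x₀ x₀‖ ^ 2 * (g x₀ x₀).im)) :=
    ((((hg' x₀ x₀).const_mul _).const_sub _).norm.pow 2).mul (GLim.norm_sq he hg x₀)
  refine tendsto_nhds_unique (GLim.norm_sq he hg' x₀) ?_
  refine h1.congr fun k => ?_
  conv_rhs => rw [G_upd_del' (V := V) (s := s) (zk_im he k).ne', norm_smul, mul_pow]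
  ring

/-- positivity of the local density of states is not affected by the potential at the site -/
theorem im_pos_iff : 0 < (g' x₀ x₀).im ↔ 0 < (g x₀ x₀).im := by
  rw [im_upd he hg hg']
  have h := norm_pos_iff.2 (factor_ne he hg hg')
  constructor
  · intro h1
    exact (pos_iff_pos_of_mul_pos h1).1 (by positivity)
  · intro h1
    positivity

variable {A A' : Op d}
  (hsa : ∀ f g : L2 d, ⟪A f, g⟫_ℂ = ⟪f, A g⟫_ℂ)
  (hcm : ∀ z : ℂ, z.im ≠ 0 → ∀ f : L2 d, A (G V z f) = G V z (A f))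
  (hsa' : ∀ f g : L2 d, ⟪A' f, g⟫_ℂ = ⟪f, A' g⟫_ℂ)
  (hcm' : ∀ z : ℂ, z.im ≠ 0 → ∀ f : L2 d,
    A' (G (Function.update V x₀ s) z f) = G (Function.update V x₀ s) z (A' f))
  (hD : Tendsto (fun k => Real.sqrt (e k) * ‖A' (G V (zz (e k) E) (del x₀)) -
    A (G V (zz (e k) E) (del x₀))‖) atTop (𝓝 0))

include hs hcm hsa' hcm' hD in
/-- asymptotic vanishing of the residual at the resampled site -/
theorem par_of_step
    (hD' : Tendsto (fun k => Real.sqrt (e k) * ‖A' (G V (zz (-e k) E) (del x₀)) -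
      A (G V (zz (-e k) E) (del x₀))‖) atTop (𝓝 0)) :
    Par A' (Function.update V x₀ s) E e x₀ := by
  unfold Par
  have ht : 0 < |s - V x₀| := abs_pos.2 (sub_ne_zero.2 hs)
  rcases (GLim.im_nonneg he hg x₀).eq_or_lt with hm | hm
  · -- vanishing density
    have h1 : Tendsto (fun k => ‖A'‖ * (Real.sqrt (e k) *
        ‖G (Function.update V x₀ s) (zz (e k) E) (del x₀)‖)) atTop
        (𝓝 (‖A'‖ * Real.sqrt (g' x₀ x₀).im)) := (GLim.norm he hg' x₀).const_mul _
    rw [im_upd he hg hg', ← hm, mul_zero, Real.sqrt_zero, mul_zero] at h1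
    refine squeeze_zero (fun k => by positivity) (fun k => ?_) h1
    have h2 := norm_rr_le' hsa' hcm' (zk_im he k (E := E)).ne' x₀
    calc Real.sqrt (e k) * ‖rr A' (Function.update V x₀ s) (zz (e k) E) x₀‖
        ≤ Real.sqrt (e k) * (‖A'‖ * ‖G (Function.update V x₀ s) (zz (e k) E) (del x₀)‖) :=
          mul_le_mul_of_nonneg_left h2 (Real.sqrt_nonneg _)
      _ = _ := by ring
  · have h1 : Tendsto (fun k => (Real.sqrt (e k) * ‖A' (G V (zz (e k) E) (del x₀)) -
        A (G V (zz (e k) E) (del x₀))‖ + Real.sqrt (e k) * ‖A' (G V (zz (-e k) E) (del x₀)) -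
        A (G V (zz (-e k) E) (del x₀))‖) /
        (2 * |s - V x₀| * (G V (zz (e k) E) (del x₀) x₀).im)) atTop
        (𝓝 ((0 + 0) / (2 * |s - V x₀| * (g x₀ x₀).im))) := by
      refine (hD.add hD').div ?_ (by positivity)
      exact ((Complex.continuous_im.tendsto _).comp (hg x₀ x₀)).const_mul _
    rw [add_zero, zero_div] at h1
    refine squeeze_zero (fun k => by positivity) (fun k => ?_) h1
    have hz := zk_im he k (E := E)
    have hp := im_G_del_pos (V := V) hz x₀
    have h2 := key (s := s) hcm hsa' hcm' hz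
    rw [conj_zz'] at h2
    rw [le_div_iff₀ (by positivity), ← mul_add]
    calc Real.sqrt (e k) * ‖rr A' (Function.update V x₀ s) (zz (e k) E) x₀‖ *
        (2 * |s - V x₀| * (G V (zz (e k) E) (del x₀) x₀).im) =
        Real.sqrt (e k) * (2 * |s - V x₀| * (G V (zz (e k) E) (del x₀) x₀).im *
          ‖rr A' (Function.update V x₀ s) (zz (e k) E) x₀‖) := by ring
      _ ≤ _ := mul_le_mul_of_nonneg_left h2 (Real.sqrt_nonneg _)

end pair

end Pool.Agent.QE
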