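import Pool.Agent.Helper54_QE.Pair

/-!
# Consequences of resampling the potential at one site
-/

set_option autoImplicit false
set_option linter.unusedSectionVars false

open scoped InnerProductSpace ComplexConjugate Topology ENNReal
open MeasureTheory Filter

noncomputable section

namespace Pool.Agent.QE

open Pool.Agent.Anderson Pool.Agent.Helper54.Bal

variable {d : ℕ}

/-- expansion of the squared norm of a combination of two vectors -/
theorem norm_comb_sq (a b : ℂ) (u v : L2 d) :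
    ‖a • u + b • v‖ ^ 2 = ‖a‖ ^ 2 * ‖u‖ ^ 2 + ‖b‖ ^ 2 * ‖v‖ ^ 2 +
      2 * (conj a * b * ⟪u, v⟫_ℂ).re := by
  have h := norm_add_sq (𝕜 := ℂ) (a • u) (b • v)
  rw [norm_smul, norm_smul, mul_pow, mul_pow, inner_smul_left, inner_smul_right,
    RCLike.re_eq_complex_re] at h
  rw [h]
  have e : conj a * b * ⟪u, v⟫_ℂ = conj a * (b * ⟪u, v⟫_ℂ) := by ring
  rw [e]
  ring

variable {V : Cfg d} {x₀ : Site d} {s : ℝ} {E : ℝ} {e : ℕ → ℝ} (he : ∀ k, 0 < e k)
  (hs : s ≠ V x₀)
  {g g' : Site d → Site d → ℂ} (hg : GLim V E e g)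
  (hg' : GLim (Function.update V x₀ s) E e g')

section density

include he hs hg hg'

/-- if the density of states vanishes at `x`, it does not vanish after resampling at a site `x₀`
of positive density connected to `x` by the Green function -/
theorem im_pos_of_resample {x : Site d} (hx : (g x x).im = 0) (h0 : 0 < (g x₀ x₀).im)
    (hne : g x₀ x ≠ 0) : 0 < (g' x x).im := by
  set t : ℂ := (s : ℂ) - V x₀ with ht
  have ht0 : t ≠ 0 := by
    rw [ht, sub_ne_zero]; exact_mod_cast hs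
  have hb := factor_ne he hg hg'
  rw [← ht] at hb
  -- the vector identity
  have hid : ∀ k, G (Function.update V x₀ s) (zz (e k) E) (del x) = G V (zz (e k) E) (del x) -
      (t * G V (zz (e k) E) (del x) x₀ * (1 - t * G (Function.update V x₀ s) (zz (e k) E)
        (del x₀) x₀)) • G V (zz (e k) E) (del x₀) := by
    intro k
    have h1 := G_upd' (V := V) (zk_im he k (E := E)).ne' x₀ s (del x)
    have h2 := G_upd_del' (V := V) (x₀ := x₀) (s := s) (zk_im he k (E := E)).ne'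
    rw [← ht] at h1 h2
    have h3 : (t * G V (zz (e k) E) (del x) x₀) •
        G (Function.update V x₀ s) (zz (e k) E) (del x₀) =
        (t * G V (zz (e k) E) (del x) x₀ * (1 - t * G (Function.update V x₀ s) (zz (e k) E)
        (del x₀) x₀)) • G V (zz (e k) E) (del x₀) := by
      conv_lhs => rw [h2]
      rw [smul_smul]
    rw [eq_sub_iff_add_eq, ← h3]
    exact h1.symm
  have l1 : Tendsto (fun k => ‖t * G V (zz (e k) E) (del x) x₀ *
      (1 - t * G (Function.update V x₀ s) (zz (e k) E) (del x₀) x₀)‖ *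
      (Real.sqrt (e k) * ‖G V (zz (e k) E) (del x₀)‖) -
      Real.sqrt (e k) * ‖G V (zz (e k) E) (del x)‖) atTop
      (𝓝 (‖t * g x₀ x * (1 - t * g' x₀ x₀)‖ * Real.sqrt (g x₀ x₀).im - 0)) := by
    refine Tendsto.sub (Tendsto.mul ?_ (GLim.norm he hg x₀)) ?_
    · exact ((((hg x₀ x).const_mul t).mul (((hg' x₀ x₀).const_mul t).const_sub 1))).norm
    · have := GLim.norm he hg x
      rwa [hx, Real.sqrt_zero] at this
  have l2 := GLim.norm he hg' x
  have l3 : ‖t * g x₀ x * (1 - t * g' x₀ x₀)‖ * Real.sqrt (g x₀ x₀).im - 0 ≤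
      Real.sqrt (g' x x).im := by
    refine le_of_tendsto_of_tendsto' l1 l2 fun k => ?_
    rw [hid k]
    set c : ℂ := t * G V (zz (e k) E) (del x) x₀ * (1 - t * G (Function.update V x₀ s)
      (zz (e k) E) (del x₀) x₀) with hc
    have h3 : ‖c • G V (zz (e k) E) (del x₀)‖ - ‖G V (zz (e k) E) (del x)‖ ≤
        ‖G V (zz (e k) E) (del x) - c • G V (zz (e k) E) (del x₀)‖ := by
      rw [norm_sub_rev]
      exact norm_sub_norm_le _ _
    rw [norm_smul] at h3
    have := mul_le_mul_of_nonneg_left h3 (Real.sqrt_nonneg (e k))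
    calc _ = Real.sqrt (e k) * (‖c‖ * ‖G V (zz (e k) E) (del x₀)‖ -
        ‖G V (zz (e k) E) (del x)‖) := by ring
      _ ≤ _ := this
  rw [sub_zero] at l3
  have h4 : 0 < ‖t * g x₀ x * (1 - t * g' x₀ x₀)‖ * Real.sqrt (g x₀ x₀).im := by
    have h5 : 0 < ‖t * g x₀ x * (1 - t * g' x₀ x₀)‖ :=
      norm_pos_iff.2 (mul_ne_zero (mul_ne_zero ht0 hne) hb)
    have h6 := Real.sqrt_pos.2 h0
    positivity
  exact Real.sqrt_pos.1 (h4.trans_le l3)

end density

section values

variable {A A' : Op d}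
  (hsa : ∀ f g : L2 d, ⟪A f, g⟫_ℂ = ⟪f, A g⟫_ℂ)
  (hcm : ∀ z : ℂ, z.im ≠ 0 → ∀ f : L2 d, A (G V z f) = G V z (A f))
  (hsa' : ∀ f g : L2 d, ⟪A' f, g⟫_ℂ = ⟪f, A' g⟫_ℂ)
  (hcm' : ∀ z : ℂ, z.im ≠ 0 → ∀ f : L2 d,
    A' (G (Function.update V x₀ s) z f) = G (Function.update V x₀ s) z (A' f))
  {h h' : Site d → ℂ} (hh : ALim A V E e h)
  (hh' : ALim A' (Function.update V x₀ s) E e h')

include he hg hg' hsa hcm hsa' hcm' hh hh' in
/-- the value at the resampled site does not change -/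
theorem value_eq (h0 : 0 < (g x₀ x₀).im)
    (hD : Tendsto (fun k => Real.sqrt (e k) * ‖A' (G V (zz (e k) E) (del x₀)) -
      A (G V (zz (e k) E) (del x₀))‖) atTop (𝓝 0)) : av g' h' x₀ = av g h x₀ := by
  have h0' : 0 < (g' x₀ x₀).im := (im_pos_iff he hg hg').2 h0
  have t1 := tendsto_aa hg hh h0
  have t2 := tendsto_aa hg' hh' h0'
  have t3 : Tendsto (fun k => |aa A' (Function.update V x₀ s) (zz (e k) E) x₀ -
      aa A V (zz (e k) E) x₀| * (Real.sqrt (e k) * ‖G V (zz (e k) E) (del x₀)‖)) atTop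
      (𝓝 (|av g' h' x₀ - av g h x₀| * Real.sqrt (g x₀ x₀).im)) :=
    (t2.sub t1).abs.mul (GLim.norm he hg x₀)
  have t4 : Tendsto (fun k => |aa A' (Function.update V x₀ s) (zz (e k) E) x₀ -
      aa A V (zz (e k) E) x₀| * (Real.sqrt (e k) * ‖G V (zz (e k) E) (del x₀)‖)) atTop
      (𝓝 0) := by
    refine squeeze_zero (fun k => by positivity) (fun k => ?_) hD
    have hz := (zk_im he k (E := E)).ne'
    set z := zz (e k) E
    set u := G V z (del x₀) with hu
    set b : ℂ := 1 - ((s : ℂ) - V x₀) * G (Function.update V x₀ s) z (del x₀) x₀ with hb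
    have e1 : G (Function.update V x₀ s) z (del x₀) = b • u := G_upd_del' hz
    have hb0 : b ≠ 0 := by
      intro hb0
      have h2 := factor_mul (V := V) (x₀ := x₀) (s := s) hz
      rw [← hb, hb0, mul_zero] at h2
      exact zero_ne_one h2
    have e2 := aa_eq hsa' hcm' hz x₀
    rw [e1, map_smul, inner_smul_left, inner_smul_right, norm_smul, mul_pow] at e2
    have e3 : ⟪u, A' u⟫_ℂ =
        (aa A' (Function.update V x₀ s) z x₀ : ℂ) * ((‖u‖ ^ 2 : ℝ) : ℂ) := by
      have hb1 : conj b * b = ((‖b‖ ^ 2 : ℝ) : ℂ) := by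
        rw [← Complex.normSq_eq_conj_mul_self, Complex.normSq_eq_norm_sq]
      have hb2 : ((‖b‖ ^ 2 : ℝ) : ℂ) ≠ 0 := by
        rw [← hb1]; exact mul_ne_zero ((map_ne_zero _).2 hb0) hb0
      apply mul_left_cancel₀ hb2
      rw [← hb1]
      rw [mul_assoc, e2, hb1]
      push_cast
      ring
    have e4 := aa_eq hsa hcm hz x₀
    rw [← hu] at e4
    have e5 : ⟪u, A' u - A u⟫_ℂ = ((aa A' (Function.update V x₀ s) z x₀ - aa A V z x₀ : ℝ) : ℂ) *
        ((‖u‖ ^ 2 : ℝ) : ℂ) := by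
      rw [inner_sub_right, e3, e4]; push_cast; ring
    have e6 : |aa A' (Function.update V x₀ s) z x₀ - aa A V z x₀| * ‖u‖ ^ 2 ≤
        ‖u‖ * ‖A' u - A u‖ := by
      have h3 := norm_inner_le_norm (𝕜 := ℂ) u (A' u - A u)
      rw [e5, norm_mul, Complex.norm_real, Complex.norm_real, Real.norm_eq_abs,
        Real.norm_of_nonneg (by positivity)] at h3
      exact h3
    have hup : 0 < ‖u‖ := norm_G_del_pos hz x₀
    have e7 : |aa A' (Function.update V x₀ s) z x₀ - aa A V z x₀| * ‖u‖ ≤ ‖A' u - A u‖ := by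
      have : ‖u‖ * (|aa A' (Function.update V x₀ s) z x₀ - aa A V z x₀| * ‖u‖) ≤
          ‖u‖ * ‖A' u - A u‖ := by
        calc _ = |aa A' (Function.update V x₀ s) z x₀ - aa A V z x₀| * ‖u‖ ^ 2 := by ring
          _ ≤ _ := e6
      exact le_of_mul_le_mul_left this hup
    calc _ = Real.sqrt (e k) *
        (|aa A' (Function.update V x₀ s) z x₀ - aa A V z x₀| * ‖u‖) := by ring
      _ ≤ _ := mul_le_mul_of_nonneg_left e7 (Real.sqrt_nonneg _)
  have t5 := tendsto_nhds_unique t3 t4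
  rcases mul_eq_zero.1 t5 with h1 | h1
  · exact sub_eq_zero.1 (abs_eq_zero.1 h1)
  · exact absurd h1 (Real.sqrt_pos.2 h0).ne'

include he hs hg hg' hsa hcm hsa' hcm' hh hh'

/-- sites with different values are not connected by the Green function -/
theorem green_zero {x : Site d} (h0 : 0 < (g x₀ x₀).im) (hx : 0 < (g x x).im)
    (hv : av g h x ≠ av g h x₀)
    (hD : Tendsto (fun k => Real.sqrt (e k) * ‖A' (G V (zz (e k) E) (del x₀)) -
      A (G V (zz (e k) E) (del x₀))‖) atTop (𝓝 0))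
    (hDx : Tendsto (fun k => Real.sqrt (e k) * ‖A' (G V (zz (e k) E) (del x)) -
      A (G V (zz (e k) E) (del x))‖) atTop (𝓝 0))
    (p0 : Par A V E e x₀) (px : Par A V E e x)
    (p0' : Par A' (Function.update V x₀ s) E e x₀) (px' : Par A' (Function.update V x₀ s) E e x) :
    g x₀ x = 0 := by
  set V' := Function.update V x₀ s with hV'
  set t : ℂ := (s : ℂ) - V x₀ with ht
  have ht0 : t ≠ 0 := by
    rw [ht, sub_ne_zero]; exact_mod_cast hs
  have hb := factor_ne he hg hg'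
  rw [← ht] at hb
  have h0' : 0 < (g' x₀ x₀).im := (im_pos_iff he hg hg').2 h0
  -- the off-diagonal Gram element vanishes
  have hcr : (g x₀ x).im = 0 := by
    have := cross he hsa hcm hg hh px p0 hx h0
    rcases mul_eq_zero.1 this with h1 | h1
    · exact absurd (sub_eq_zero.1 h1) hv
    · exact h1
  have hval := value_eq he hg hg' hsa hcm hsa' hcm' hh hh' h0 hD
  -- sequences
  set z : ℕ → ℂ := fun k => zz (e k) E with hzdef
  have hz : ∀ k, (z k).im ≠ 0 := fun k => (zk_im he k (E := E)).ne'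
  set u : ℕ → L2 d := fun k => G V (z k) (del x) with hu
  set u₀ : ℕ → L2 d := fun k => G V (z k) (del x₀) with hu₀
  set b : ℕ → ℂ := fun k => 1 - t * G V' (z k) (del x₀) x₀ with hbk
  set γ : ℕ → ℂ := fun k => G V (z k) (del x) x₀ with hγ
  set α : ℕ → ℂ := fun k => ((aa A' V' (z k) x - aa A V (z k) x : ℝ) : ℂ) with hα
  set β : ℕ → ℂ := fun k => t * γ k * b k *
    ((aa A' V' (z k) x₀ - aa A' V' (z k) x : ℝ) : ℂ) with hβ
  have hid0 : ∀ k, G V' (z k) (del x₀) = b k • u₀ k := fun k => G_upd_del' (hz k)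
  have hid : ∀ k, G V' (z k) (del x) = u k - (t * γ k * b k) • u₀ k := by
    intro k
    have h1 := G_upd' (V := V) (hz k) x₀ s (del x)
    rw [← ht, ← hV'] at h1
    have h2 : u k = G V' (z k) (del x) + (t * γ k) • G V' (z k) (del x₀) := h1
    rw [h2, hid0, smul_smul]
    abel
  -- the key vector identity
  have hvec : ∀ k, α k • u k + β k • u₀ k = (A' (u k) - A (u k)) - rr A' V' (z k) x -
      (t * γ k) • rr A' V' (z k) x₀ + rr A V (z k) x := by
    intro k
    have e1 : A' (u k) = A' (G V' (z k) (del x)) + (t * γ k) • A' (G V' (z k) (del x₀)) := by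
      rw [← map_smul, ← map_add]
      congr 1
      have h1 := G_upd' (V := V) (hz k) x₀ s (del x)
      rw [← ht, ← hV'] at h1
      exact h1
    have e2 : A (u k) = (aa A V (z k) x : ℂ) • u k + rr A V (z k) x := A_G_del A V (z k) x
    rw [e1, e2, A_G_del A' V' (z k) x, A_G_del A' V' (z k) x₀, hid0, hid]
    simp only [hα, hβ, smul_add, smul_sub, smul_smul, Complex.ofReal_sub, sub_smul, mul_sub]
    have c1 : t * γ k * ((aa A' V' (z k) x₀ : ℂ) * b k) =
        t * γ k * b k * (aa A' V' (z k) x₀ : ℂ) := by ring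
    have c2 : (aa A' V' (z k) x : ℂ) * (t * γ k * b k) =
        t * γ k * b k * (aa A' V' (z k) x : ℂ) := by ring
    rw [c1, c2]
    abel
  -- limits
  have lγ : Tendsto γ atTop (𝓝 (g x₀ x)) := hg x₀ x
  have lb : Tendsto b atTop (𝓝 (1 - t * g' x₀ x₀)) := ((hg' x₀ x₀).const_mul t).const_sub 1
  have lvec : Tendsto (fun k => Real.sqrt (e k) * ‖α k • u k + β k • u₀ k‖) atTop (𝓝 0) := by
    have b1 : Tendsto (fun k => Real.sqrt (e k) * ‖A' (u k) - A (u k)‖ +
        Real.sqrt (e k) * ‖rr A' V' (z k) x‖ +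
        ‖t * γ k‖ * (Real.sqrt (e k) * ‖rr A' V' (z k) x₀‖) +
        Real.sqrt (e k) * ‖rr A V (z k) x‖) atTop
        (𝓝 (0 + 0 + ‖t * g x₀ x‖ * 0 + 0)) :=
      ((hDx.add px').add ((lγ.const_mul t).norm.mul p0')).add px
    rw [mul_zero, add_zero, add_zero, add_zero] at b1
    refine squeeze_zero (fun k => by positivity) (fun k => ?_) b1
    rw [hvec k]
    have h1 := norm_add_le (A' (u k) - A (u k) - rr A' V' (z k) x -
      (t * γ k) • rr A' V' (z k) x₀) (rr A V (z k) x)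
    have h2 := norm_sub_le (A' (u k) - A (u k) - rr A' V' (z k) x)
      ((t * γ k) • rr A' V' (z k) x₀)
    have h3 := norm_sub_le (A' (u k) - A (u k)) (rr A' V' (z k) x)
    rw [norm_smul] at h2
    have h4 : ‖A' (u k) - A (u k) - rr A' V' (z k) x - (t * γ k) • rr A' V' (z k) x₀ +
        rr A V (z k) x‖ ≤ ‖A' (u k) - A (u k)‖ + ‖rr A' V' (z k) x‖ +
        ‖t * γ k‖ * ‖rr A' V' (z k) x₀‖ + ‖rr A V (z k) x‖ := by linarith
    calc _ ≤ Real.sqrt (e k) * (‖A' (u k) - A (u k)‖ + ‖rr A' V' (z k) x‖ +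
        ‖t * γ k‖ * ‖rr A' V' (z k) x₀‖ + ‖rr A V (z k) x‖) :=
          mul_le_mul_of_nonneg_left h4 (Real.sqrt_nonneg _)
      _ = _ := by ring
  -- bounds for the coefficients
  have bα : ∀ k, ‖α k‖ ≤ ‖A'‖ + ‖A‖ := by
    intro k
    rw [hα]
    simp only [Complex.norm_real, Real.norm_eq_abs]
    have h1 := abs_aa_le hsa' hcm' (hz k) x
    have h2 := abs_aa_le hsa hcm (hz k) x
    have h3 := abs_sub (aa A' V' (z k) x) (aa A V (z k) x)
    linarith
  obtain ⟨M, hM⟩ : ∃ M : ℝ, ∀ k, ‖t * γ k * b k‖ ≤ M := by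
    have h1 : Tendsto (fun k => ‖t * γ k * b k‖) atTop (𝓝 ‖t * g x₀ x * (1 - t * g' x₀ x₀)‖) :=
      ((lγ.const_mul t).mul lb).norm
    obtain ⟨M, hM⟩ := h1.bddAbove_range
    exact ⟨M, fun k => hM ⟨k, rfl⟩⟩
  have hM0 : 0 ≤ M := (norm_nonneg _).trans (hM 0)
  have bβ : ∀ k, ‖β k‖ ≤ M * (2 * ‖A'‖) := by
    intro k
    rw [hβ]
    simp only
    rw [norm_mul, Complex.norm_real, Real.norm_eq_abs]
    have h1 := abs_aa_le hsa' hcm' (hz k) x
    have h2 := abs_aa_le hsa' hcm' (hz k) x₀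
    have h3 := abs_sub (aa A' V' (z k) x₀) (aa A' V' (z k) x)
    have h4 : |aa A' V' (z k) x₀ - aa A' V' (z k) x| ≤ 2 * ‖A'‖ := by linarith
    exact mul_le_mul (hM k) h4 (abs_nonneg _) hM0
  -- the squared norm
  have lsq : Tendsto (fun k => ‖α k‖ ^ 2 * (e k * ‖u k‖ ^ 2) +
      ‖β k‖ ^ 2 * (e k * ‖u₀ k‖ ^ 2)) atTop (𝓝 0) := by
    have h1 : Tendsto (fun k => (Real.sqrt (e k) * ‖α k • u k + β k • u₀ k‖) ^ 2 -
        2 * (conj (α k) * β k * ((e k : ℂ) * ⟪u k, u₀ k⟫_ℂ)).re) atTop (𝓝 (0 ^ 2 - 0)) := by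
      refine (lvec.pow 2).sub ?_
      have h2 : Tendsto (fun k => (e k : ℂ) * ⟪u k, u₀ k⟫_ℂ) atTop (𝓝 0) := by
        have h3 := GLim.gram he hg x₀ x
        rw [GLim.symm he hg x x₀, hcr] at h3
        simpa using h3
      have h4 : Tendsto (fun k => 2 * (((‖A'‖ + ‖A‖) * (M * (2 * ‖A'‖))) *
          ‖(e k : ℂ) * ⟪u k, u₀ k⟫_ℂ‖)) atTop
          (𝓝 (2 * (((‖A'‖ + ‖A‖) * (M * (2 * ‖A'‖))) * ‖(0:ℂ)‖))) :=
        (h2.norm.const_mul _).const_mul 2
      rw [norm_zero, mul_zero, mul_zero] at h4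
      refine squeeze_zero_norm (fun k => ?_) h4
      rw [Real.norm_eq_abs, abs_mul, abs_of_pos (by norm_num : (0:ℝ) < 2)]
      refine mul_le_mul_of_nonneg_left ?_ (by norm_num)
      refine (Complex.abs_re_le_norm _).trans ?_
      rw [norm_mul, norm_mul, Complex.norm_conj]
      refine mul_le_mul_of_nonneg_right ?_ (norm_nonneg _)
      exact mul_le_mul (bα k) (bβ k) (norm_nonneg _) (by positivity)
    have h0z : (0 : ℝ) ^ 2 - 0 = 0 := by norm_num
    rw [h0z] at h1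
    refine h1.congr fun k => ?_
    rw [mul_pow, Real.sq_sqrt (he k).le, norm_comb_sq]
    have e1 : (conj (α k) * β k * ((e k : ℂ) * ⟪u k, u₀ k⟫_ℂ)).re =
        e k * (conj (α k) * β k * ⟪u k, u₀ k⟫_ℂ).re := by
      have : conj (α k) * β k * ((e k : ℂ) * ⟪u k, u₀ k⟫_ℂ) =
          (e k : ℂ) * (conj (α k) * β k * ⟪u k, u₀ k⟫_ℂ) := by ring
      rw [this, Complex.re_ofReal_mul]
    rw [e1]
    ring
  -- `α → 0`
  have lα : Tendsto (fun k => ‖α k‖ ^ 2) atTop (𝓝 0) := by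
    have h1 : Tendsto (fun k => (‖α k‖ ^ 2 * (e k * ‖u k‖ ^ 2) +
      ‖β k‖ ^ 2 * (e k * ‖u₀ k‖ ^ 2)) / (e k * ‖u k‖ ^ 2)) atTop (𝓝 (0 / (g x x).im)) :=
      lsq.div (GLim.norm_sq he hg x) hx.ne'
    rw [zero_div] at h1
    refine squeeze_zero (fun k => by positivity) (fun k => ?_) h1
    have hp : 0 < e k * ‖u k‖ ^ 2 := by
      have := norm_G_del_pos (V := V) (hz k) x
      have := he k
      positivity
    have hq : 0 ≤ ‖β k‖ ^ 2 * (e k * ‖u₀ k‖ ^ 2) := by
      have := (he k).le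
      positivity
    rw [le_div_iff₀ hp]
    linarith
  have lβ : Tendsto (fun k => ‖β k‖ ^ 2) atTop (𝓝 0) := by
    have h1 : Tendsto (fun k => (‖α k‖ ^ 2 * (e k * ‖u k‖ ^ 2) +
      ‖β k‖ ^ 2 * (e k * ‖u₀ k‖ ^ 2)) / (e k * ‖u₀ k‖ ^ 2)) atTop (𝓝 (0 / (g x₀ x₀).im)) :=
      lsq.div (GLim.norm_sq he hg x₀) h0.ne'
    rw [zero_div] at h1
    refine squeeze_zero (fun k => by positivity) (fun k => ?_) h1
    have hp : 0 < e k * ‖u₀ k‖ ^ 2 := by
      have := norm_G_del_pos (V := V) (hz k) x₀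
      have := he k
      positivity
    have hq : 0 ≤ ‖α k‖ ^ 2 * (e k * ‖u k‖ ^ 2) := by
      have := (he k).le
      positivity
    rw [le_div_iff₀ hp]
    linarith
  have lα' : Tendsto (fun k => aa A' V' (z k) x - aa A V (z k) x) atTop (𝓝 0) := by
    have h1 := lα.sqrt
    rw [Real.sqrt_zero] at h1
    rw [tendsto_zero_iff_norm_tendsto_zero]
    refine h1.congr fun k => ?_
    rw [Real.sqrt_sq (norm_nonneg _), hα]
    simp only [Complex.norm_real]
  have laa := tendsto_aa hg hh hx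
  have laa' : Tendsto (fun k => aa A' V' (z k) x) atTop (𝓝 (av g h x)) := by
    have := lα'.add laa
    rw [zero_add] at this
    refine this.congr fun k => ?_
    ring
  have laa0' : Tendsto (fun k => aa A' V' (z k) x₀) atTop (𝓝 (av g h x₀)) := by
    rw [← hval]; exact tendsto_aa hg' hh' h0'
  have lβ' : Tendsto β atTop (𝓝 (t * g x₀ x * (1 - t * g' x₀ x₀) *
      ((av g h x₀ - av g h x : ℝ) : ℂ))) :=
    ((lγ.const_mul t).mul lb).mul ((Complex.continuous_ofReal.tendsto _).comp (laa0'.sub laa'))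
  have lβ'' : Tendsto β atTop (𝓝 0) := by
    have h1 := lβ.sqrt
    rw [Real.sqrt_zero] at h1
    rw [tendsto_zero_iff_norm_tendsto_zero]
    refine h1.congr fun k => ?_
    rw [Real.sqrt_sq (norm_nonneg _)]
  have hfin := tendsto_nhds_unique lβ' lβ''
  rcases mul_eq_zero.1 hfin with h1 | h1
  · rcases mul_eq_zero.1 h1 with h2 | h2
    · rcases mul_eq_zero.1 h2 with h3 | h3
      · exact absurd h3 ht0
      · exact h3
    · exact absurd h2 hb
  · exfalso
    apply hv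
    have : av g h x₀ - av g h x = 0 := by exact_mod_cast h1
    linarith

end values

end Pool.Agent.QE
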