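import Pool.Agent.Helper54_QE.Gen

/-!
# Scaling of the potential and regularisation of almost everywhere defined families
-/

set_option autoImplicit false
set_option linter.unusedSectionVars false

open scoped InnerProductSpace ComplexConjugate Topology ENNReal
open MeasureTheory Filter

noncomputable section

namespace Pool.Agent.QE

open Pool.Agent.Anderson Pool.Agent.Helper54.Bal

variable {d : ℕ}

/-- multiplication of the potential by a constant -/
def sc (σ : ℝ) (ξ : Cfg d) : Cfg d := fun x => σ * ξ x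

theorem sc_sc {σ : ℝ} (hσ : σ ≠ 0) (ξ : Cfg d) : sc σ⁻¹ (sc σ ξ) = ξ := by
  funext x
  simp only [sc]
  rw [← mul_assoc, inv_mul_cancel₀ hσ, one_mul]

theorem tau_sc (a : Site d) (σ : ℝ) (ξ : Cfg d) : tau a (sc σ ξ) = sc σ (tau a ξ) := rfl

instance instProbMul (μ : Measure ℝ) [IsProbabilityMeasure μ] (σ : ℝ) :
    IsProbabilityMeasure (μ.map fun r => σ * r) :=
  Measure.isProbabilityMeasure_map (measurable_const_mul σ).aemeasurable

theorem mp_sc (μ : Measure ℝ) [IsProbabilityMeasure μ] (σ : ℝ) :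
    MeasurePreserving (sc σ) (PP d μ) (PP d (μ.map fun r => σ * r)) := by
  refine ⟨?_, ?_⟩
  · unfold sc
    fun_prop
  exact Measure.infinitePi_map_pi (μ := fun _ : Site d => μ) (f := fun _ r => σ * r)
    fun _ => measurable_const_mul σ

theorem mp_sc_inv (μ : Measure ℝ) [IsProbabilityMeasure μ] {σ : ℝ} (hσ : σ ≠ 0) :
    MeasurePreserving (sc σ⁻¹) (PP d (μ.map fun r => σ * r)) (PP d μ) := by
  have h := mp_sc (d := d) (μ.map fun r => σ * r) σ⁻¹
  have e : (μ.map fun r => σ * r).map (fun r => σ⁻¹ * r) = μ := by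
    rw [Measure.map_map (measurable_const_mul _) (measurable_const_mul _)]
    have e2 : (fun r : ℝ => σ⁻¹ * r) ∘ (fun r => σ * r) = id := by
      funext r
      simp only [Function.comp_apply, id]
      rw [← mul_assoc, inv_mul_cancel₀ hσ, one_mul]
    rw [e2, Measure.map_id]
  refine ⟨h.measurable, ?_⟩
  rw [h.map_eq]
  have e3 : ∀ (ν ν' : Measure ℝ) (h1 : IsProbabilityMeasure ν) (h2 : IsProbabilityMeasure ν'),
      ν = ν' → PP d ν = PP d ν' := by
    intro ν ν' h1 h2 h3
    subst h3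
    rfl
  exact e3 _ _ _ _ e

theorem atomless_mul {μ : Measure ℝ} (hna : ∀ a : ℝ, μ {a} = 0) {σ : ℝ} (hσ : σ ≠ 0) (a : ℝ) :
    (μ.map fun r => σ * r) {a} = 0 := by
  rw [Measure.map_apply (measurable_const_mul σ) (measurableSet_singleton a)]
  have e : (fun r : ℝ => σ * r) ⁻¹' {a} = {a / σ} := by
    ext r
    simp only [Set.mem_preimage, Set.mem_singleton_iff]
    rw [eq_div_iff hσ, mul_comm]
  rw [e]
  exact hna _

theorem tau_tau' (a b : Site d) (V : Cfg d) : tau a (tau b V) = tau (a + b) V := by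
  funext x
  simp only [tau]
  congr 1
  abel

theorem tau_zero' (V : Cfg d) : tau 0 V = V := by
  funext x
  simp only [tau, add_zero]

/-- a shift-invariant measurable set of full measure on which a given a.s. property holds -/
theorem exists_good {μ : Measure ℝ} [IsProbabilityMeasure μ] {Q : Cfg d → Prop}
    (h : ∀ᵐ V ∂(PP d μ), Q V) : ∃ S : Set (Cfg d), MeasurableSet S ∧
      (∀ᵐ V ∂(PP d μ), V ∈ S) ∧ (∀ V ∈ S, Q V) ∧ ∀ a V, tau a V ∈ S ↔ V ∈ S := by
  set N : Set (Cfg d) := toMeasurable (PP d μ) {V | ¬ Q V} with hN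
  have hNm : MeasurableSet N := measurableSet_toMeasurable _ _
  have hN0 : (PP d μ) N = 0 := by rw [hN, measure_toMeasurable]; exact h
  have hsub : {V | ¬ Q V} ⊆ N := subset_toMeasurable _ _
  refine ⟨⋂ b : Site d, tau b ⁻¹' Nᶜ, ?_, ?_, ?_, ?_⟩
  · exact MeasurableSet.iInter fun b => (Tr.mp_tau μ b).measurable hNm.compl
  · have h1 : ∀ b : Site d, ∀ᵐ V ∂(PP d μ), tau b V ∈ Nᶜ := by
      intro b
      refine (Tr.mp_tau μ b).quasiMeasurePreserving.ae ?_
      exact measure_eq_zero_iff_ae_notMem.1 hN0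
    filter_upwards [ae_all_iff.2 h1] with V hV
    exact Set.mem_iInter.2 hV
  · intro V hV
    by_contra hQ
    have h1 := Set.mem_iInter.1 hV 0
    rw [Set.mem_preimage, tau_zero'] at h1
    exact h1 (hsub hQ)
  · intro a V
    rw [Set.mem_iInter, Set.mem_iInter]
    constructor
    · intro h1 b
      have := h1 (b - a)
      rw [Set.mem_preimage, tau_tau', sub_add_cancel] at this
      exact this
    · intro h1 b
      rw [Set.mem_preimage, tau_tau']
      exact h1 (b + a)

/-- regularisation of a covariant family given almost everywhere -/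
theorem exists_reg {μ : Measure ℝ} [IsProbabilityMeasure μ] {A : Cfg d → Op d}
    (hm : ∀ f, StronglyMeasurable fun V => A V f) {C : ℝ} (hC0 : 0 ≤ C)
    (hC : ∀ᵐ V ∂(PP d μ), ‖A V‖ ≤ C)
    (hcov : ∀ a : Site d, ∀ᵐ V ∂(PP d μ), ∀ f, A (tau a V) (shift a f) = shift a (A V f))
    {Q : Cfg d → Prop} (hQ : ∀ᵐ V ∂(PP d μ), Q V) :
    ∃ A' : Cfg d → Op d, Cov A' ∧ (∀ V, ‖A' V‖ ≤ C) ∧ (∀ᵐ V ∂(PP d μ), A' V = A V) ∧
      ∀ V, (A' V = A V ∧ Q V) ∨ A' V = 0 := by
  classical
  have hall : ∀ᵐ V ∂(PP d μ), ‖A V‖ ≤ C ∧ (∀ a f, A (tau a V) (shift a f) = shift a (A V f)) ∧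
      Q V := by
    filter_upwards [hC, ae_all_iff.2 hcov, hQ] with V h1 h2 h3
    exact ⟨h1, h2, h3⟩
  obtain ⟨S, hSm, hSae, hSQ, hSinv⟩ := exists_good hall
  refine ⟨fun V => if V ∈ S then A V else 0, ⟨fun f => ?_, fun a V f => ?_, C, fun V => ?_⟩,
    fun V => ?_, ?_, fun V => ?_⟩
  · have e : (fun V => (if V ∈ S then A V else 0) f) = S.indicator fun V => A V f := by
      funext V
      by_cases h : V ∈ S
      · rw [if_pos h, Set.indicator_of_mem h]
      · rw [if_neg h, Set.indicator_of_notMem h]; rfl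
    rw [e]
    exact (hm f).indicator hSm
  · by_cases h : V ∈ S
    · rw [if_pos ((hSinv a V).2 h), if_pos h]
      exact (hSQ V h).2.1 a f
    · rw [if_neg (fun h1 => h ((hSinv a V).1 h1)), if_neg h]
      simp
  · by_cases h : V ∈ S
    · rw [if_pos h]; exact (hSQ V h).1
    · rw [if_neg h, norm_zero]; exact hC0
  · by_cases h : V ∈ S
    · simp only [if_pos h]; exact (hSQ V h).1
    · simp only [if_neg h, norm_zero]; exact hC0
  · filter_upwards [hSae] with V hV
    rw [if_pos hV]
  · by_cases h : V ∈ S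
    · left
      simp only [if_pos h]
      exact ⟨trivial, (hSQ V h).2.2⟩
    · right
      simp only [if_neg h]

/-- commutation with `H` implies commutation with the resolvents -/
theorem comm_G_of_comm {V : Cfg d} {A : Op d}
    (h : ∀ u f : L2 d, (∀ x, lap u x + (V x : ℂ) * u x = f x) →
      ∀ x, lap (A u) x + (V x : ℂ) * A u x = A f x) (z : ℂ) (hz : z.im ≠ 0) (f : L2 d) :
    A (G V z f) = G V z (A f) := by
  apply G_unique hz
  intro x
  have h1 := h (G V z f) (f + z • G V z f) (fun y => by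
    have := G_eq (V := V) hz f y
    rw [lp.coeFn_add, Pi.add_apply, lp.coeFn_smul, Pi.smul_apply, smul_eq_mul, ← this]
    ring) x
  rw [map_add, map_smul, lp.coeFn_add, Pi.add_apply, lp.coeFn_smul, Pi.smul_apply,
    smul_eq_mul] at h1
  linear_combination h1

end Pool.Agent.QE
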