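import Pool.Agent.Helper54_QE.Bv

/-!
# The common sequence and the almost everywhere limits
-/

set_option autoImplicit false
set_option linter.unusedSectionVars false

open scoped InnerProductSpace ComplexConjugate Topology ENNReal
open MeasureTheory Filter

noncomputable section

namespace Pool.Agent.QE

open Pool.Agent.Anderson Pool.Agent.Helper54.Bal

variable {d : ℕ}

/-- the fourth roots of unity -/
def cc (k : Fin 4) : ℂ := ![1, Complex.I, -1, -Complex.I] k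

theorem norm_cc (k : Fin 4) : ‖cc k‖ = 1 := by
  unfold cc
  fin_cases k <;> simp

theorem polar' (T : Op d) (u v : L2 d) :
    ⟪u, T v⟫_ℂ = (1 / 4) * ∑ k : Fin 4, cc k * ⟪v + cc k • u, T (v + cc k • u)⟫_ℂ := by
  have h := polar T u v
  have e : ∑ k : Fin 4, cc k * ⟪v + cc k • u, T (v + cc k • u)⟫_ℂ = 4 * ⟪u, T v⟫_ℂ := by
    rw [h, Fin.sum_univ_four]
    simp only [cc, Matrix.cons_val_zero, Matrix.cons_val_one, Matrix.cons_val]
    simp only [one_smul, neg_smul, ← sub_eq_add_neg]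
    ring
  rw [e]; ring

section transfer

variable {μ : Measure ℝ} [IsProbabilityMeasure μ]

theorem ae_fst {p : Cfg d × ℝ → Prop} (h : ∀ᵐ q ∂(KK d μ), p q) :
    ∀ᵐ ω ∂((KK d μ).prod μ), p ω.1 :=
  Measure.quasiMeasurePreserving_fst.ae h

theorem ae_fst' {p : Cfg d × ℝ → Prop} (h : ∀ᵐ ω ∂((KK d μ).prod μ), p ω.1) :
    ∀ᵐ q ∂(KK d μ), p q := by
  filter_upwards [Measure.ae_ae_of_ae_prod h] with q hq
  exact (hq.exists).choose_spec

theorem ae_upd (hMP : MPStatement) (x₀ : Site d) {p : Cfg d × ℝ → Prop}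
    (h : ∀ᵐ q ∂(KK d μ), p q) : ∀ᵐ ω ∂((KK d μ).prod μ), p (upd x₀ ω) :=
  (hMP d μ x₀).quasiMeasurePreserving.ae h

theorem ae_upd' (hMP : MPStatement) (x₀ : Site d) {p : Cfg d × ℝ → Prop}
    (hp : MeasurableSet {q | p q}) (h : ∀ᵐ ω ∂((KK d μ).prod μ), p (upd x₀ ω)) :
    ∀ᵐ q ∂(KK d μ), p q := by
  rw [← (hMP d μ x₀).map_eq]
  exact (ae_map_iff (hMP d μ x₀).measurable.aemeasurable hp).2 h

theorem ae_ne (hna : ∀ a : ℝ, μ {a} = 0) :
    ∀ᵐ ω ∂((KK d μ).prod μ), ∀ x₀ : Site d, ω.2 ≠ ω.1.1 x₀ := by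
  rw [ae_all_iff]
  intro x₀
  have hm : MeasurableSet {ω : (Cfg d × ℝ) × ℝ | ω.2 ≠ ω.1.1 x₀} := by
    refine (measurableSet_eq_fun measurable_snd ?_).compl
    exact (measurable_pi_apply x₀).comp (measurable_fst.comp measurable_fst)
  refine (Measure.ae_prod_iff_ae_ae hm).2 (Eventually.of_forall fun q => ?_)
  rw [ae_iff]
  have e : {a : ℝ | ¬ (q, a).2 ≠ (q, a).1.1 x₀} = {q.1 x₀} := by
    ext a; simp
  rw [e]
  exact hna _

end transfer

variable {ι : Type} (A : ι → Cfg d → Op d)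

/-- the vector families whose Green functions are needed -/
def wfam : ((Site d × Site d × Fin 4) ⊕ (ι × Site d × Fin 4)) → Cfg d → L2 d
  | Sum.inl r => fun _ => del r.2.1 + cc r.2.2 • del r.1
  | Sum.inr r => fun V => A r.1 V (del r.2.1) + cc r.2.2 • del r.2.1

variable {A} (hA : ∀ i, Obs (A i))
include hA

theorem sm_wfam (r) : StronglyMeasurable (wfam A r) := by
  rcases r with r | r
  · exact stronglyMeasurable_const
  · exact ((hA r.1).meas _).add stronglyMeasurable_const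

theorem bdd_wfam (r) : ∃ C : ℝ, ∀ V, ‖wfam A r V‖ ≤ C := by
  rcases r with r | r
  · exact ⟨‖(del r.2.1 + cc r.2.2 • del r.1 : L2 d)‖, fun V => le_rfl⟩
  · obtain ⟨C, hC⟩ := (hA r.1).bdd
    refine ⟨C + 1, fun V => ?_⟩
    refine (norm_add_le _ _).trans (add_le_add ?_ ?_)
    · refine ((A r.1 V).le_opNorm _).trans ?_
      rw [norm_del, mul_one]; exact hC V
    · rw [norm_smul, norm_cc, norm_del, one_mul]

/-- the common sequence -/
theorem exists_seq [Countable ι] (hStep : StepStatement) (hCauchy : CauchyStatement)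
    (hTight : TightStatement) (hSeq : SeqStatement) (μ : Measure ℝ) [IsProbabilityMeasure μ] :
    ∃ e : ℕ → ℝ, (∀ k, 0 < e k) ∧ Tendsto e atTop (𝓝 0) ∧
      (∀ r, ∃ F₀ : Cfg d × ℝ → ℂ, Measurable F₀ ∧
        ∀ᵐ p ∂(KK d μ), Tendsto (fun k => Fw (wfam A r) (e k) p) atTop (𝓝 (F₀ p))) ∧
      ∀ i x₀ x, ∀ᵐ ω ∂((KK d μ).prod μ),
        Tendsto (fun k => dq (A i) x₀ x (e k) ω) atTop (𝓝 0) ∧
        Tendsto (fun k => dq (A i) x₀ x (-e k) ω) atTop (𝓝 0) := by
  have hg : ∀ r : (Site d × Site d × Fin 4) ⊕ (ι × Site d × Fin 4),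
      ∃ g₀ : Cfg d × ℝ → ℂ, Measurable g₀ ∧ ∀ δ : ℝ, 0 < δ →
      Tendsto (fun ε => (KK d μ) {p | δ ≤ ‖gw (wfam A r) ε p - g₀ p‖}) (𝓝[>] 0) (𝓝 0) := by
    intro r
    obtain ⟨C, hC⟩ := bdd_wfam hA r
    exact hCauchy d μ (wfam A r) (sm_wfam hA r) C hC
  choose g₀ hg₀m hg₀ using hg
  set q : (((Site d × Site d × Fin 4) ⊕ (ι × Site d × Fin 4)) ⊕ (ι × Site d × Site d × Bool)) →
      ℝ → (Cfg d × ℝ) × ℝ → ℝ := fun j ε ω =>
    match j with
    | Sum.inl r => ‖gw (wfam A r) ε ω.1 - g₀ r ω.1‖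
    | Sum.inr r => dq (A r.1) r.2.1 r.2.2.1 ((if r.2.2.2 then 1 else -1) * ε) ω with hq
  have hconv : ∀ j δ, 0 < δ →
      Tendsto (fun ε => ((KK d μ).prod μ) {ω | δ ≤ |q j ε ω|}) (𝓝[>] 0) (𝓝 0) := by
    intro j δ hδ
    rcases j with r | r
    · refine (hg₀ r δ hδ).congr fun ε => ?_
      have e : {ω : (Cfg d × ℝ) × ℝ | δ ≤ |q (Sum.inl r) ε ω|} =
          {p : Cfg d × ℝ | δ ≤ ‖gw (wfam A r) ε p - g₀ r p‖} ×ˢ (Set.univ : Set ℝ) := by
        ext ω
        simp only [hq, abs_norm, Set.mem_ofPred_eq, Set.mem_prod, Set.mem_univ, and_true]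
      rw [e, Measure.prod_prod, measure_univ, mul_one]
    · have h1 := hStep d μ (A r.1) (hA r.1).toCov r.2.1 r.2.2.1 (if r.2.2.2 then 1 else -1)
        (by split_ifs <;> simp) δ hδ
      refine h1.congr fun ε => ?_
      congr 1
      ext ω
      simp only [hq, Set.mem_ofPred_eq]
      rw [abs_of_nonneg]
      unfold dq
      positivity
  obtain ⟨e, he, he0, hlim⟩ := hSeq _ ((KK d μ).prod μ) _ q hconv
  refine ⟨e, he, he0, fun r => ?_, fun i x₀ x => ?_⟩
  · obtain ⟨C, hC⟩ := bdd_wfam hA r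
    refine bv_limit hTight (sm_wfam hA r) hC he he0 (hg₀m r) ?_
    refine ae_fst' (μ := μ) ?_
    filter_upwards [hlim (Sum.inl r)] with ω hω
    simp only [hq] at hω
    rw [tendsto_iff_norm_sub_tendsto_zero]
    exact hω
  · filter_upwards [hlim (Sum.inr (i, x₀, x, true)), hlim (Sum.inr (i, x₀, x, false))]
      with ω h1 h2
    simp only [hq, if_true, one_mul] at h1
    simp only [hq] at h2
    simp only [Bool.false_eq_true, if_false, neg_mul, one_mul] at h2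
    exact ⟨h1, h2⟩

end Pool.Agent.QE
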